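import Pool.Agent.Lib.MP_1f44d9_lc.Hard.Core

/-!
# Module COMPLETE: the schedule attached to a partition
-/

namespace Pool.Agent.Lib.PmtnHard

/-! ## Coverage -/

/-- `1` from time `u` on. -/
def H (t u : ℕ) : ℤ := if u ≤ t then 1 else 0

theorem H_nonneg (t u : ℕ) : 0 ≤ H t u := by unfold H; split_ifs <;> norm_num

theorem H_le_one (t u : ℕ) : H t u ≤ 1 := by unfold H; split_ifs <;> norm_num

theorem iv_cover (t : ℕ) : ∀ (l : List (ℕ × ℕ)) (lo : ℕ), IvOk lo l →
    (((l.map fun i => if i.1 ≤ t ∧ t < i.2 then 1 else 0).sum : ℕ) : ℤ) =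
      (l.map fun i => H t i.1 - H t i.2).sum
  | [], _, _ => by simp
  | (u, v) :: l, lo, h => by
    obtain ⟨_, h2, h3⟩ := h
    have ih := iv_cover t l v h3
    simp only [List.map_cons, List.sum_cons]
    push_cast at ih ⊢
    rw [ih]
    congr 1
    unfold H
    split_ifs <;> omega

/-- The coverage of a list of records, as an integer. -/
def cov (t : ℕ) (L : List Rec) : ℤ :=
  (L.map fun c => (c.iv.map fun i => H t i.1 - H t i.2).sum).sum

theorem cover_eq (t : ℕ) : ∀ (L : List Rec), (∀ c ∈ L, c.Ok) →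
    (((L.map fun c => c.cover t).sum : ℕ) : ℤ) = cov t L
  | [], _ => by simp [cov]
  | c :: L, h => by
    have ih := cover_eq t L fun c hc => h c (List.mem_cons_of_mem _ hc)
    have h1 := iv_cover t c.iv c.r (h c (List.mem_cons_self ..)).1
    simp only [List.map_cons, List.sum_cons, cov] at ih ⊢
    rw [Nat.cast_add, ih]
    congr 1

theorem cov_append (t : ℕ) (L L' : List Rec) : cov t (L ++ L') = cov t L + cov t L' := by
  simp [cov]

theorem cov_cons (t : ℕ) (c : Rec) (L : List Rec) :
    cov t (c :: L) = (c.iv.map fun i => H t i.1 - H t i.2).sum + cov t L := by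
  simp [cov]

theorem cov_nil (t : ℕ) : cov t [] = 0 := rfl

/-- Total cost. -/
def cost (L : List Rec) : ℤ := (L.map fun c => (c.fin : ℤ) - (c.r + c.p)).sum

theorem cost_append (L L' : List Rec) : cost (L ++ L') = cost L + cost L' := by
  simp [cost]

theorem cost_cons (c : Rec) (L : List Rec) :
    cost (c :: L) = ((c.fin : ℤ) - (c.r + c.p)) + cost L := by
  simp [cost]

theorem cost_nil : cost [] = 0 := rfl

/-! ## Runs -/

/-- The records of a run of unit jobs. -/
def runRecs (E s N : ℕ) : List Rec :=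
  (List.range N).map fun i => ⟨E, s + i * E, [(s + i * E, s + i * E + E)]⟩

theorem runRecs_succ (E s N : ℕ) : runRecs E s (N + 1) =
    runRecs E s N ++ [⟨E, s + N * E, [(s + N * E, s + N * E + E)]⟩] := by
  simp [runRecs, List.range_succ]

theorem runRecs_map (E s N : ℕ) : (runRecs E s N).map (fun c => (c.p, c.r)) = run E s N := by
  simp [runRecs, run, Function.comp_def]

theorem runRecs_ok (E s N : ℕ) : ∀ c ∈ runRecs E s N, c.Ok := by
  intro c hc
  simp only [runRecs, List.mem_map] at hc
  obtain ⟨i, _, rfl⟩ := hc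
  simp [Rec.Ok, IvOk]

theorem runRecs_cost (E s N : ℕ) : cost (runRecs E s N) = 0 := by
  induction N with
  | zero => simp [runRecs, cost]
  | succ N ih =>
    rw [runRecs_succ, cost_append, ih, cost_cons, cost_nil]
    simp [Rec.fin, finish]

theorem runRecs_cov (t E s N : ℕ) : cov t (runRecs E s N) = H t s - H t (s + N * E) := by
  induction N with
  | zero => simp [runRecs, cov]
  | succ N ih =>
    rw [runRecs_succ, cov_append, ih, cov_cons, cov_nil]
    have : s + (N + 1) * E = s + N * E + E := by ring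
    rw [this]
    simp

/-! ## Blocks -/

/-- The unit jobs of a block. -/
def blockRuns (E B x : ℕ) : List Rec :=
  runRecs E (B + 10 * E + x) 30 ++ runRecs E (B + 50 * E + x) 30 ++ runRecs E (B + 104 * E) 16 ++
    runRecs E (B + 144 * E) 17

/-- A block in the first state. -/
def recsA (E B x al be ga de P Q : ℕ) : List Rec :=
  [⟨79 * E, B, [(B, B + 79 * E)]⟩,
    ⟨79 * E, B, [(B + al, B + 10 * E + x), (B + be, B + 79 * E + P)]⟩,
    ⟨79 * E, B + 40 * E + x, [(B + 40 * E + x, B + 119 * E + x)]⟩,
    ⟨79 * E, B + 40 * E + x, [(B + ga, B + 50 * E + x), (B + de, B + 119 * E + x + Q)]⟩,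
    ⟨80 * E, B + 79 * E, [(B + 79 * E, B + 159 * E)]⟩,
    ⟨79 * E, B + 80 * E + x, [(B + 80 * E + x, B + 104 * E), (B + 115 * E, B + 170 * E + x)]⟩,
    ⟨79 * E, B + 80 * E + x, [(B + 79 * E + P, B + 115 * E),
      (B + 119 * E + x, B + 162 * E + x + P)]⟩,
    ⟨79 * E, B + 120 * E, [(B + 119 * E + x + Q, B + 198 * E + Q + x)]⟩,
    ⟨79 * E, B + 120 * E, [(B + 120 * E, B + 144 * E), (B + 159 * E, B + 214 * E)]⟩] ++
  blockRuns E B x

/-- A block in the second state. -/
def recsB (E B x al be ga de P Q : ℕ) : List Rec :=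
  [⟨79 * E, B, [(B + 5 * E, B + 84 * E)]⟩,
    ⟨79 * E, B, [(B, B + 5 * E), (B + al, B + 10 * E + x), (B + be, B + 74 * E + P)]⟩,
    ⟨79 * E, B + 40 * E + x, [(B + 40 * E + x, B + 119 * E + x)]⟩,
    ⟨79 * E, B + 40 * E + x, [(B + ga, B + 50 * E + x), (B + de, B + 119 * E + x + Q)]⟩,
    ⟨80 * E, B + 79 * E, [(B + 119 * E + x, B + 156 * E + x), (B + 159 * E + x, B + 202 * E + x)]⟩,
    ⟨79 * E, B + 80 * E + x, [(B + 80 * E + x, B + 159 * E + x)]⟩,
    ⟨79 * E, B + 80 * E + x, [(B + 84 * E, B + 104 * E), (B + 74 * E + P, B + 133 * E + P)]⟩,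
    ⟨79 * E, B + 120 * E, [(B + 120 * E, B + 199 * E)]⟩,
    ⟨79 * E, B + 120 * E, [(B + 119 * E + x + Q, B + 144 * E),
      (B + 156 * E + x, B + 210 * E + Q + 2 * x)]⟩] ++
  blockRuns E B x

/-- The final block. -/
def recsF (E B al be ga de : ℕ) : List Rec :=
  [⟨79 * E, B, [(B, B + 79 * E)]⟩,
    ⟨79 * E, B, [(B + al, B + 10 * E), (B + be, B + 114 * E)]⟩,
    ⟨79 * E, B + 40 * E, [(B + 40 * E, B + 119 * E)]⟩,
    ⟨79 * E, B + 40 * E, [(B + ga, B + 50 * E), (B + de, B + 129 * E)]⟩] ++
  (runRecs E (B + 10 * E) 30 ++ runRecs E (B + 50 * E) 30 ++ runRecs E (B + 80 * E) 39 ++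
    runRecs E (B + 79 * E) 40 ++ runRecs E (B + 114 * E) 5)

/-- The initial jobs. -/
def recsI (E : ℕ) : List Rec :=
  runRecs E 0 7 ++ runRecs E 0 38 ++ runRecs E 0 49 ++ runRecs E 0 51

theorem blockRuns_ok (E B x : ℕ) : ∀ c ∈ blockRuns E B x, c.Ok := by
  intro c hc
  simp only [blockRuns, List.mem_append] at hc
  rcases hc with ((hc | hc) | hc) | hc <;> exact runRecs_ok _ _ _ c hc

theorem blockRuns_cost (E B x : ℕ) : cost (blockRuns E B x) = 0 := by
  simp [blockRuns, cost_append, runRecs_cost]

theorem blockRuns_cov (t E B x : ℕ) : cov t (blockRuns E B x) =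
    (H t (B + 10 * E + x) - H t (B + 40 * E + x)) + (H t (B + 50 * E + x) - H t (B + 80 * E + x)) +
    (H t (B + 104 * E) - H t (B + 120 * E)) + (H t (B + 144 * E) - H t (B + 161 * E)) := by
  simp only [blockRuns, cov_append, runRecs_cov]
  rw [show B + 10 * E + x + 30 * E = B + 40 * E + x by ring,
    show B + 50 * E + x + 30 * E = B + 80 * E + x by ring,
    show B + 104 * E + 16 * E = B + 120 * E by ring,
    show B + 144 * E + 17 * E = B + 161 * E by ring]

/-- The handover times relative to the start of a block. -/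
structure Inv (E : ℕ) (s : ℤ) (al be ga de : ℕ) : Prop where
  al1 : 5 * E ≤ al
  al2 : al ≤ 10 * E
  be1 : 35 * E ≤ be
  be2 : be ≤ 38 * E
  ga1 : 41 * E ≤ ga
  ga2 : ga ≤ 49 * E
  de1 : 51 * E ≤ de
  de2 : de ≤ 60 * E
  h1 : (al : ℤ) + be = 45 * E + s
  h2 : (ga : ℤ) + de = 100 * E - s
  s1 : -(E : ℤ) ≤ s
  s2 : s ≤ E

/-- A state, seen from its end: `L` is a list of records for the jobs `J`, of total cost `c`, the
coverage of which is `5` in the middle. -/
structure Good (J : List (ℕ × ℕ)) (L : List Rec) (c : ℤ) : Prop where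
  map : L.map (fun c => (c.p, c.r)) = J
  ok : ∀ c ∈ L, c.Ok
  cost : cost L = c

theorem Good.append {J J' : List (ℕ × ℕ)} {L L' : List Rec} {c c' : ℤ} (h : Good J L c)
    (h' : Good J' L' c') : Good (J ++ J') (L ++ L') (c + c') := by
  refine ⟨by simp [h.map, h'.map], ?_, by rw [cost_append, h.cost, h'.cost]⟩
  intro d hd
  rcases List.mem_append.1 hd with hd | hd
  · exact h.ok d hd
  · exact h'.ok d hd

theorem goodF {E B al be ga de : ℕ} {s : ℤ} (h : Inv E s al be ga de) (hs : s = 0) :
    Good (finalJobs E B) (recsF E B al be ga de) (45 * E) := by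
  obtain ⟨al1, al2, be1, be2, ga1, ga2, de1, de2, h1, h2, s1, s2⟩ := h
  subst hs
  refine ⟨?_, ?_, ?_⟩
  · simp [recsF, finalJobs, runRecs_map]
  · intro c hc
    simp only [recsF, List.mem_append, List.mem_cons, List.not_mem_nil, or_false] at hc
    rcases hc with (rfl | rfl | rfl | rfl) | ((((hc | hc) | hc) | hc) | hc)
    any_goals exact runRecs_ok _ _ _ c hc
    all_goals
      simp only [Rec.Ok, IvOk, List.map_cons, List.map_nil, List.sum_cons, List.sum_nil, and_true]
      refine ⟨?_, ?_⟩ <;> omega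
  · simp only [recsF, cost_append, cost_cons, cost_nil, runRecs_cost, Rec.fin, finish]
    push_cast
    omega

theorem covF {t E B al be ga de : ℕ} :
    cov t (recsF E B al be ga de) = H t B + H t (B + al) + H t (B + be) + H t (B + ga) +
      H t (B + de) - 4 * H t (B + 119 * E) - H t (B + 129 * E) := by
  simp only [recsF, cov_append, cov_cons, cov_nil, runRecs_cov, List.map_cons, List.map_nil,
    List.sum_cons, List.sum_nil]
  rw [show B + 10 * E + 30 * E = B + 40 * E by ring,
    show B + 50 * E + 30 * E = B + 80 * E by ring,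
    show B + 80 * E + 39 * E = B + 119 * E by ring,
    show B + 79 * E + 40 * E = B + 119 * E by ring,
    show B + 114 * E + 5 * E = B + 119 * E by ring]
  ring

theorem goodA {E B x al be ga de P Q : ℕ} {s : ℤ} (h : Inv E s al be ga de)
    (hx : (x : ℤ) + |s| ≤ E) (hP : P + (10 * E + x) = al + be)
    (hQ : Q + (90 * E + 2 * x) = ga + de) :
    Good (blockJobs E B x) (recsA E B x al be ga de P Q) (118 * E - 5 * x) := by
  obtain ⟨al1, al2, be1, be2, ga1, ga2, de1, de2, h1, h2, s1, s2⟩ := h
  have hs1 := le_abs_self s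
  have hs2 := neg_le_abs s
  refine ⟨?_, ?_, ?_⟩
  · simp [recsA, blockJobs, blockRuns, runRecs_map]
  · intro c hc
    simp only [recsA, List.mem_append, List.mem_cons, List.not_mem_nil, or_false] at hc
    rcases hc with (rfl | rfl | rfl | rfl | rfl | rfl | rfl | rfl | rfl) | hc
    any_goals exact blockRuns_ok _ _ _ c hc
    all_goals
      simp only [Rec.Ok, IvOk, List.map_cons, List.map_nil, List.sum_cons, List.sum_nil, and_true]
      refine ⟨?_, ?_⟩ <;> omega
  · simp only [recsA, cost_append, cost_cons, cost_nil, blockRuns_cost, Rec.fin, finish]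
    push_cast
    omega

theorem goodB {E B x al be ga de P Q : ℕ} {s : ℤ} (h : Inv E s al be ga de)
    (hx : (x : ℤ) + |s| ≤ E) (hP : P + (10 * E + x) = al + be)
    (hQ : Q + (90 * E + 2 * x) = ga + de) :
    Good (blockJobs E B x) (recsB E B x al be ga de P Q) (118 * E - 4 * x) := by
  obtain ⟨al1, al2, be1, be2, ga1, ga2, de1, de2, h1, h2, s1, s2⟩ := h
  have hs1 := le_abs_self s
  have hs2 := neg_le_abs s
  refine ⟨?_, ?_, ?_⟩
  · simp [recsB, blockJobs, blockRuns, runRecs_map]
  · intro c hc
    simp only [recsB, List.mem_append, List.mem_cons, List.not_mem_nil, or_false] at hc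
    rcases hc with (rfl | rfl | rfl | rfl | rfl | rfl | rfl | rfl | rfl) | hc
    any_goals exact blockRuns_ok _ _ _ c hc
    all_goals
      simp only [Rec.Ok, IvOk, List.map_cons, List.map_nil, List.sum_cons, List.sum_nil, and_true]
      refine ⟨?_, ?_⟩ <;> omega
  · simp only [recsB, cost_append, cost_cons, cost_nil, blockRuns_cost, Rec.fin, finish]
    push_cast
    omega

/-- The coverage that is handed over at time `B`. -/
def hand (t B al be ga de : ℕ) : ℤ :=
  H t B + H t (B + al) + H t (B + be) + H t (B + ga) + H t (B + de)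

theorem covA {t E B x al be ga de P Q : ℕ} :
    cov t (recsA E B x al be ga de P Q) = hand t B al be ga de -
      hand t (B + 161 * E) (9 * E + x) (E + x + P) (37 * E + Q + x) (53 * E) := by
  simp only [recsA, cov_append, cov_cons, cov_nil, blockRuns_cov, List.map_cons, List.map_nil,
    List.sum_cons, List.sum_nil, hand]
  rw [show B + 161 * E + (9 * E + x) = B + 170 * E + x by ring,
    show B + 161 * E + (E + x + P) = B + 162 * E + x + P by ring,
    show B + 161 * E + (37 * E + Q + x) = B + 198 * E + Q + x by ring,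
    show B + 161 * E + 53 * E = B + 214 * E by ring]
  ring

theorem covB {t E B x al be ga de P Q : ℕ} (hP : 28 * E ≤ P) :
    cov t (recsB E B x al be ga de P Q) = hand t B al be ga de -
      hand t (B + 161 * E) (P - 28 * E) (38 * E) (41 * E + x) (49 * E + Q + 2 * x) := by
  simp only [recsB, cov_append, cov_cons, cov_nil, blockRuns_cov, List.map_cons, List.map_nil,
    List.sum_cons, List.sum_nil, hand]
  rw [show B + 161 * E + (P - 28 * E) = B + 133 * E + P by omega,
    show B + 161 * E + 38 * E = B + 199 * E by ring,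
    show B + 161 * E + (41 * E + x) = B + 202 * E + x by ring,
    show B + 161 * E + (49 * E + Q + 2 * x) = B + 210 * E + Q + 2 * x by ring]
  ring

/-! ## All blocks -/

theorem exists_recs (E : ℕ) {ys xs : List ℕ} (h : ys.Sublist xs) :
    ∀ (B al be ga de : ℕ) (s : ℤ), Inv E s al be ga de →
      |s| + (xs.sum : ℤ) ≤ E → s + xs.sum = 2 * ys.sum →
      ∃ L : List Rec, Good (jobsFrom E B xs) L
          (45 * E + 118 * xs.length * E - 5 * xs.sum + ys.sum) ∧
        ∀ t, cov t L ≤ hand t B al be ga de := by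
  induction h with
  | slnil =>
    intro B al be ga de s hI _ hs
    refine ⟨recsF E B al be ga de, ?_, ?_⟩
    · simpa [jobsFrom] using goodF (B := B) hI (by simpa using hs)
    · intro t
      rw [covF, hand]
      have := H_nonneg t (B + 119 * E)
      have := H_nonneg t (B + 129 * E)
      linarith
  | @cons ys xs x h ih =>
    intro B al be ga de s hI hsE hs
    simp only [List.sum_cons, Nat.cast_add] at hsE hs
    have hx0 : 0 ≤ (xs.sum : ℤ) := Int.natCast_nonneg _
    have hI' := hI
    obtain ⟨al1, al2, be1, be2, ga1, ga2, de1, de2, h1, h2, s1, s2⟩ := hI'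
    have hs1 := le_abs_self s
    have hs2 := neg_le_abs s
    obtain ⟨P, hP⟩ : ∃ P, P + (10 * E + x) = al + be := ⟨al + be - (10 * E + x), by omega⟩
    obtain ⟨Q, hQ⟩ : ∃ Q, Q + (90 * E + 2 * x) = ga + de := ⟨ga + de - (90 * E + 2 * x), by omega⟩
    have hI2 : Inv E (s + x) (9 * E + x) (E + x + P) (37 * E + Q + x) (53 * E) := by
      constructor <;> (try push_cast) <;> omega
    have habs : |s + x| ≤ |s| + x := by
      refine (abs_add_le _ _).trans ?_
      simp
    obtain ⟨L, hL, hc⟩ := ih (B + 161 * E) (9 * E + x) (E + x + P) (37 * E + Q + x) (53 * E)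
      (s + x) hI2 (by linarith) (by linarith)
    refine ⟨recsA E B x al be ga de P Q ++ L, ?_, ?_⟩
    · have := (goodA (B := B) hI (by linarith) hP hQ).append hL
      rw [jobsFrom]
      convert this using 1
      simp only [List.sum_cons, List.length_cons]
      push_cast
      ring
    · intro t
      rw [cov_append, covA]
      have := hc t
      linarith
  | @cons_cons ys xs x h ih =>
    intro B al be ga de s hI hsE hs
    simp only [List.sum_cons, Nat.cast_add] at hsE hs
    have hx0 : 0 ≤ (xs.sum : ℤ) := Int.natCast_nonneg _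
    have hI' := hI
    obtain ⟨al1, al2, be1, be2, ga1, ga2, de1, de2, h1, h2, s1, s2⟩ := hI'
    have hs1 := le_abs_self s
    have hs2 := neg_le_abs s
    obtain ⟨P, hP⟩ : ∃ P, P + (10 * E + x) = al + be := ⟨al + be - (10 * E + x), by omega⟩
    obtain ⟨Q, hQ⟩ : ∃ Q, Q + (90 * E + 2 * x) = ga + de := ⟨ga + de - (90 * E + 2 * x), by omega⟩
    have hI2 : Inv E (s - x) (P - 28 * E) (38 * E) (41 * E + x) (49 * E + Q + 2 * x) := by
      constructor <;> (try push_cast) <;> omega
    have habs : |s - x| ≤ |s| + x := by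
      refine (abs_sub _ _).trans ?_
      simp
    obtain ⟨L, hL, hc⟩ := ih (B + 161 * E) (P - 28 * E) (38 * E) (41 * E + x) (49 * E + Q + 2 * x)
      (s - x) hI2 (by linarith) (by linarith)
    refine ⟨recsB E B x al be ga de P Q ++ L, ?_, ?_⟩
    · have := (goodB (B := B) hI (by linarith) hP hQ).append hL
      rw [jobsFrom]
      convert this using 1
      simp only [List.sum_cons, List.length_cons]
      push_cast
      ring
    · intro t
      rw [cov_append, covB (by omega)]
      have := hc t
      linarith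

theorem goodI (E : ℕ) : Good (initJobs E) (recsI E) 0 := by
  refine ⟨by simp [recsI, initJobs, runRecs_map], ?_, by simp [recsI, cost_append, runRecs_cost]⟩
  intro c hc
  simp only [recsI, List.mem_append] at hc
  rcases hc with ((hc | hc) | hc) | hc <;> exact runRecs_ok _ _ _ c hc

theorem complete (E : ℕ) (xs : List ℕ) (hE : xs.sum < E) (h : Partition xs) :
    ∃ L : List Rec, (L.map fun c => (c.p, c.r)) = allJobs E xs ∧ (∀ c ∈ L, c.Ok) ∧
      (∀ t, (L.map fun c => c.cover t).sum ≤ 5) ∧
      2 * (L.map Rec.fin).sum + 9 * xs.sum =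
        90 * E + 236 * xs.length * E + 2 * ((allJobs E xs).map fun j => j.2 + j.1).sum := by
  obtain ⟨ys, hys, hsum⟩ := h
  have hI : Inv E 0 (7 * E) (38 * E) (49 * E) (51 * E) := by
    constructor <;> (try push_cast) <;> omega
  obtain ⟨L, hL, hc⟩ := exists_recs E hys 0 (7 * E) (38 * E) (49 * E) (51 * E) 0 hI
    (by rw [abs_zero, zero_add]; exact_mod_cast hE.le) (by rw [zero_add]; exact_mod_cast hsum.symm)
  have hG := (goodI E).append hL
  refine ⟨recsI E ++ L, hG.map, hG.ok, ?_, ?_⟩
  · intro t
    have h1 := cover_eq t _ hG.ok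
    have h2 := hc t
    have h3 : cov t (recsI E ++ L) ≤ 5 := by
      simp only [recsI, cov_append, runRecs_cov, hand, zero_add] at h2 ⊢
      have := H_le_one t 0
      linarith
    rw [← h1] at h3
    exact_mod_cast h3
  · have h1 := hG.cost
    have h2 : ∀ L : List Rec, cost L =
        ((L.map Rec.fin).sum : ℤ) - ((((L.map fun c => (c.p, c.r)).map fun j => j.2 + j.1).sum : ℕ)
          : ℤ) := by
      intro L
      induction L with
      | nil => simp [cost]
      | cons c L ih =>
        rw [cost_cons, ih]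
        simp only [List.map_cons, List.sum_cons]
        push_cast
        ring
    rw [h2, hG.map] at h1
    have h3 : (2 : ℤ) * ys.sum = xs.sum := by exact_mod_cast hsum
    unfold allJobs
    have h4 : 2 * (((recsI E ++ L).map Rec.fin).sum : ℤ) + 9 * (xs.sum : ℤ) =
        90 * E + 236 * xs.length * E +
          2 * ((((initJobs E ++ jobsFrom E 0 xs).map fun j => j.2 + j.1).sum : ℕ) : ℤ) := by
      linarith
    exact_mod_cast h4

end Pool.Agent.Lib.PmtnHard
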