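import Mathlib

/-!
# The reduction from PARTITION: combinatorial definitions

`E` is the unit; the jobs have processing times `E`, `79 E`, `80 E`; there are 5 machines. The
numbers `x` of the gadgets are at most `E`.
-/

namespace Pool.Agent.Lib.PmtnHard

/-- A list of numbers can be split into two parts with equal sums. -/
def Partition (l : List ℕ) : Prop := ∃ l' : List ℕ, l'.Sublist l ∧ 2 * l'.sum = l.sum

/-- `N` jobs of length `E`, released at `s`, `s + E`, ... -/
def run (E s N : ℕ) : List (ℕ × ℕ) := (List.range N).map fun i => (E, s + i * E)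

/-- The initial jobs `(p, r)`. -/
def initJobs (E : ℕ) : List (ℕ × ℕ) := run E 0 7 ++ run E 0 38 ++ run E 0 49 ++ run E 0 51

/-- The jobs `(p, r)` of a block, starting at time `B`, with number `x`. -/
def blockJobs (E B x : ℕ) : List (ℕ × ℕ) :=
  [(79 * E, B), (79 * E, B), (79 * E, B + 40 * E + x), (79 * E, B + 40 * E + x),
    (80 * E, B + 79 * E), (79 * E, B + 80 * E + x), (79 * E, B + 80 * E + x),
    (79 * E, B + 120 * E), (79 * E, B + 120 * E)] ++
  (run E (B + 10 * E + x) 30 ++ run E (B + 50 * E + x) 30 ++ run E (B + 104 * E) 16 ++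
    run E (B + 144 * E) 17)

/-- The jobs `(p, r)` of the final block. -/
def finalJobs (E B : ℕ) : List (ℕ × ℕ) :=
  [(79 * E, B), (79 * E, B), (79 * E, B + 40 * E), (79 * E, B + 40 * E)] ++
  (run E (B + 10 * E) 30 ++ run E (B + 50 * E) 30 ++ run E (B + 80 * E) 39 ++
    run E (B + 79 * E) 40 ++ run E (B + 114 * E) 5)

/-- The jobs of all blocks from time `B` on. -/
def jobsFrom (E : ℕ) : ℕ → List ℕ → List (ℕ × ℕ)
  | B, [] => finalJobs E B
  | B, x :: xs => blockJobs E B x ++ jobsFrom E (B + 161 * E) xs

/-- All jobs `(p, r)`. -/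
def allJobs (E : ℕ) (xs : List ℕ) : List (ℕ × ℕ) := initJobs E ++ jobsFrom E 0 xs

/-- The bound for the total tardiness, when the due dates are `r + p`. -/
def bound (E : ℕ) (xs : List ℕ) : ℕ := (90 * E + 236 * xs.length * E - 9 * xs.sum) / 2

/-- The numbers of the gadgets. -/
def gad (l : List ℕ) : List ℕ := l.map (2 * ·)

/-- The unit. -/
def unit (l : List ℕ) : ℕ := (gad l).sum + 1

/-- `P5 | pmtn | ∑ T_j`: the jobs `(p, d)` of the instance attached to `l`. -/
def jobsT (l : List ℕ) : List (ℕ × ℕ) :=
  (allJobs (unit l) (gad l)).map fun j => (j.1, j.2 + j.1)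

/-- `P5 | pmtn, r_j | ∑ C_j`: the jobs `(p, r)` of the instance attached to `l`. -/
def jobsC (l : List ℕ) : List (ℕ × ℕ) := allJobs (unit l) (gad l)

/-- The bound for the total tardiness. -/
def boundT (l : List ℕ) : ℕ := bound (unit l) (gad l)

/-- The bound for the total completion time. -/
def boundC (l : List ℕ) : ℕ :=
  bound (unit l) (gad l) + ((jobsC l).map fun j => j.2 + j.1).sum

/-! ## Schedules by intervals -/

/-- A job with the time intervals in which it is processed. -/
structure Rec where
  /-- processing time -/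
  p : ℕ
  /-- release date -/
  r : ℕ
  /-- intervals -/
  iv : List (ℕ × ℕ)

/-- The intervals are in order, and none starts before `lo`. -/
def IvOk : ℕ → List (ℕ × ℕ) → Prop
  | _, [] => True
  | lo, (u, v) :: l => lo ≤ u ∧ u ≤ v ∧ IvOk v l

/-- The end of the last interval (`lo` if there is none). -/
def finish : ℕ → List (ℕ × ℕ) → ℕ
  | lo, [] => lo
  | _, (_, v) :: l => finish v l

/-- The record is consistent. -/
def Rec.Ok (c : Rec) : Prop := IvOk c.r c.iv ∧ (c.iv.map fun i => i.2 - i.1).sum = c.p

/-- The completion time given by the intervals. -/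
def Rec.fin (c : Rec) : ℕ := finish c.r c.iv

/-- The number of intervals of the record that contain the slot `[t, t + 1)`. -/
def Rec.cover (c : Rec) (t : ℕ) : ℕ := (c.iv.map fun i => if i.1 ≤ t ∧ t < i.2 then 1 else 0).sum

end Pool.Agent.Lib.PmtnHard
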