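import Pool.Agent.Lib.MP_1f44d9_lc.Hard.Statement
import Pool.Agent.Lib.MP_1f44d9_lc.Hard.Core
import Pool.Agent.Lib.CookLevin.Final
import Pool.Agent.Lib.PolyTime.NatBin
import Pool.Agent.Lib.PolyTime.IntBin

/-!
# NP-hardness of PARTITION
-/

namespace Pool.Agent.Lib.PmtnHard

open Turing Pool.Agent.Lib.PolyTime Pool.Agent.Lib.CookLevin

namespace Part

/-! ### Sums of sublists -/

/-- The number `s` is the sum of a sublist of `l`. -/
def SS (l : List ℕ) (s : ℕ) : Prop := ∃ l' : List ℕ, l'.Sublist l ∧ l'.sum = s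

theorem ss_append (l₁ l₂ : List ℕ) (s : ℕ) :
    SS (l₁ ++ l₂) s ↔ ∃ a b, SS l₁ a ∧ SS l₂ b ∧ a + b = s := by
  constructor
  · rintro ⟨l', h, rfl⟩
    obtain ⟨a, b, rfl, ha, hb⟩ := List.sublist_append_iff.1 h
    exact ⟨_, _, ⟨a, ha, rfl⟩, ⟨b, hb, rfl⟩, by simp⟩
  · rintro ⟨_, _, ⟨a, ha, rfl⟩, ⟨b, hb, rfl⟩, rfl⟩
    exact ⟨a ++ b, ha.append hb, by simp⟩

theorem ss_nil (s : ℕ) : SS [] s ↔ s = 0 := by
  constructor
  · rintro ⟨l', h, rfl⟩
    rw [List.sublist_nil.1 h]
    rfl
  · rintro rfl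
    exact ⟨[], List.Sublist.refl _, rfl⟩

theorem ss_replicate (k a s : ℕ) : SS (List.replicate k a) s ↔ ∃ i ≤ k, s = i * a := by
  constructor
  · rintro ⟨l', h, rfl⟩
    obtain ⟨i, hi, rfl⟩ := List.sublist_replicate_iff.1 h
    exact ⟨i, hi, by simp⟩
  · rintro ⟨i, hi, rfl⟩
    exact ⟨List.replicate i a, List.sublist_replicate_iff.2 ⟨i, hi, rfl⟩, by simp⟩

theorem ss_single (a s : ℕ) : SS [a] s ↔ ∃ i ≤ 1, s = i * a := ss_replicate 1 a s

theorem ss_le (l : List ℕ) (s : ℕ) (h : SS l s) : s ≤ l.sum := by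
  obtain ⟨l', h, rfl⟩ := h
  exact h.sum_le_sum (by simp)

theorem ss_compl (l : List ℕ) (s : ℕ) (h : SS l s) : ∃ t, SS l t ∧ s + t = l.sum := by
  obtain ⟨l', h, rfl⟩ := h
  induction h with
  | slnil => exact ⟨0, (ss_nil 0).2 rfl, rfl⟩
  | cons a h ih =>
    obtain ⟨t, ⟨l'', h'', rfl⟩, e⟩ := ih
    refine ⟨a + l''.sum, ⟨a :: l'', h''.cons_cons a, by simp⟩, ?_⟩
    rw [List.sum_cons]
    omega
  | cons_cons a h ih =>
    obtain ⟨t, ⟨l'', h'', rfl⟩, e⟩ := ih
    refine ⟨l''.sum, ⟨l'', h''.cons a, rfl⟩, ?_⟩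
    rw [List.sum_cons, List.sum_cons]
    omega

theorem ss_flatMap (n : ℕ) (f : ℕ → List ℕ) (s : ℕ) : SS ((List.range n).flatMap f) s ↔
    ∃ u : ℕ → ℕ, (∀ i < n, SS (f i) (u i)) ∧ ∑ i ∈ Finset.range n, u i = s := by
  induction n generalizing s with
  | zero =>
    rw [List.range_zero, List.flatMap_nil, ss_nil]
    constructor
    · rintro rfl
      exact ⟨fun _ => 0, by simp, by simp⟩
    · rintro ⟨u, -, h⟩
      simpa using h.symm
  | succ n ih =>
    rw [List.range_succ, List.flatMap_append, List.flatMap_singleton, ss_append]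
    constructor
    · rintro ⟨a, b, ha, hb, rfl⟩
      obtain ⟨u, hu, rfl⟩ := (ih a).1 ha
      refine ⟨fun i => if i = n then b else u i, fun i hi => ?_, ?_⟩
      · dsimp only
        split_ifs with h
        · rw [h]; exact hb
        · exact hu i (by omega)
      · rw [Finset.sum_range_succ, if_pos rfl]
        congr 1
        refine Finset.sum_congr rfl fun i hi => ?_
        rw [if_neg (Finset.mem_range.1 hi).ne]
    · rintro ⟨u, hu, rfl⟩
      refine ⟨_, u n, (ih _).2 ⟨u, fun i hi => hu i (by omega), rfl⟩, hu n (by omega), ?_⟩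
      rw [Finset.sum_range_succ]

/-- From subset sums to partitions. -/
theorem partition_of_ss (l : List ℕ) (t : ℕ) : Partition (l ++ [2 * t, l.sum]) ↔ SS l t := by
  have e : (l ++ [2 * t, l.sum]).sum = 2 * (l.sum + t) := by
    simp
    ring
  have e2 : Partition (l ++ [2 * t, l.sum]) ↔ SS (l ++ ([2 * t] ++ [l.sum])) (l.sum + t) := by
    constructor
    · rintro ⟨l', h, h'⟩
      exact ⟨l', h, by omega⟩
    · rintro ⟨l', h, h'⟩
      exact ⟨l', h, by omega⟩
  rw [e2, ss_append]
  constructor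
  · rintro ⟨a, b, ha, hb, hab⟩
    obtain ⟨c, d, hc, hd, rfl⟩ := (ss_append _ _ _).1 hb
    obtain ⟨i, hi, rfl⟩ := (ss_single _ _).1 hc
    obtain ⟨j, hj, rfl⟩ := (ss_single _ _).1 hd
    have hle := ss_le l a ha
    obtain ⟨a', ha', haa'⟩ := ss_compl l a ha
    have h0 : SS l 0 := ⟨[], List.nil_sublist l, rfl⟩
    interval_cases i <;> interval_cases j
    · have : t = 0 := by omega
      rw [this]; exact h0
    · have : t = a := by omega
      rw [this]; exact ha
    · have : t = a' := by omega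
      rw [this]; exact ha'
    · have : t = 0 := by omega
      rw [this]; exact h0
  · intro ht
    refine ⟨t, l.sum, ht, (ss_append _ _ _).2 ⟨0, l.sum, ?_, ?_, by omega⟩, by omega⟩
    · exact (ss_single _ _).2 ⟨0, by omega, by omega⟩
    · exact (ss_single _ _).2 ⟨1, by omega, by omega⟩

/-! ### Digits -/

theorem digits_inj (b : ℕ) (d : ℕ) (u v : ℕ → ℕ) (hu : ∀ i < d, u i < b)
    (hv : ∀ i < d, v i < b)
    (h : ∑ i ∈ Finset.range d, u i * b ^ i = ∑ i ∈ Finset.range d, v i * b ^ i) :
    ∀ i < d, u i = v i := by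
  induction d generalizing u v with
  | zero => intro i hi; omega
  | succ d ih =>
    rw [Finset.sum_range_succ', Finset.sum_range_succ'] at h
    have e : ∀ w : ℕ → ℕ, ∑ i ∈ Finset.range d, w (i + 1) * b ^ (i + 1) + w 0 * b ^ 0 =
        w 0 + b * ∑ i ∈ Finset.range d, w (i + 1) * b ^ i := by
      intro w
      rw [Finset.mul_sum, pow_zero, mul_one, add_comm]
      congr 1
      refine Finset.sum_congr rfl fun i _ => ?_
      ring
    rw [e, e] at h
    have hu0 := hu 0 (by omega)
    have hv0 := hv 0 (by omega)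
    have h0 : u 0 = v 0 := by
      have := congrArg (· % b) h
      simp only [Nat.add_mul_mod_self_left] at this
      rwa [Nat.mod_eq_of_lt hu0, Nat.mod_eq_of_lt hv0] at this
    have h1 : b * ∑ i ∈ Finset.range d, u (i + 1) * b ^ i =
        b * ∑ i ∈ Finset.range d, v (i + 1) * b ^ i := by omega
    have h2 := Nat.eq_of_mul_eq_mul_left (by omega) h1
    intro i hi
    rcases i with _ | i
    · exact h0
    · exact ih (fun i => u (i + 1)) (fun i => v (i + 1)) (fun i hi => hu _ (by omega))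
        (fun i hi => hv _ (by omega)) h2 i (by omega)

theorem digits_inj2 (b n m : ℕ) (p p' r r' : ℕ → ℕ) (hp : ∀ i < n, p i < b)
    (hp' : ∀ i < n, p' i < b) (hr : ∀ i < m, r i < b) (hr' : ∀ i < m, r' i < b) :
    (∑ i ∈ Finset.range n, p i * b ^ i + ∑ j ∈ Finset.range m, r j * b ^ (n + j) =
      ∑ i ∈ Finset.range n, p' i * b ^ i + ∑ j ∈ Finset.range m, r' j * b ^ (n + j)) ↔
    (∀ i < n, p i = p' i) ∧ ∀ j < m, r j = r' j := by
  have e : ∀ p r : ℕ → ℕ,
      ∑ i ∈ Finset.range n, p i * b ^ i + ∑ j ∈ Finset.range m, r j * b ^ (n + j) =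
      ∑ i ∈ Finset.range (n + m), (if i < n then p i else r (i - n)) * b ^ i := by
    intro p r
    rw [Finset.sum_range_add]
    congr 1
    · refine Finset.sum_congr rfl fun i hi => ?_
      rw [if_pos (Finset.mem_range.1 hi)]
    · refine Finset.sum_congr rfl fun i hi => ?_
      rw [if_neg (by omega)]
      congr 2
      omega
  constructor
  · intro h
    rw [e, e] at h
    have hh := digits_inj b (n + m) _ _ (fun i hi => by
      split_ifs with h
      exacts [hp i h, hr _ (by omega)]) (fun i hi => by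
      split_ifs with h
      exacts [hp' i h, hr' _ (by omega)]) h
    refine ⟨fun i hi => ?_, fun j hj => ?_⟩
    · have := hh i (by omega)
      rwa [if_pos hi, if_pos hi] at this
    · have := hh (n + j) (by omega)
      rw [if_neg (by omega), if_neg (by omega)] at this
      have e3 : n + j - n = j := by omega
      rwa [e3] at this
  · rintro ⟨h1, h2⟩
    congr 1
    · exact Finset.sum_congr rfl fun i hi => by rw [h1 i (Finset.mem_range.1 hi)]
    · exact Finset.sum_congr rfl fun i hi => by rw [h2 i (Finset.mem_range.1 hi)]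

/-! ### The numbers -/

/-- The base. -/
def base (φ : CNF) : ℕ := 2 * φ.2.flatten.length + 3

/-- The clause number `j`. -/
def cl (φ : CNF) (j : ℕ) : List (ℕ × Bool) := (φ.2[j]?).getD []

/-- The number of a literal. -/
def item (φ : CNF) (l : ℕ × Bool) : ℕ :=
  base φ ^ l.1 + ((List.range φ.2.length).map fun j =>
    (cl φ j).count l * base φ ^ (φ.1 + j)).sum

/-- All numbers. -/
def items (φ : CNF) : List ℕ :=
  (List.range φ.1).flatMap (fun v => [item φ (v, false)] ++ [item φ (v, true)]) ++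
  (List.range φ.2.length).flatMap fun j =>
    List.replicate ((cl φ j).length - 1) (base φ ^ (φ.1 + j))

/-- The sum which has to be attained. -/
def target (φ : CNF) : ℕ :=
  ((List.range φ.1).map fun v => base φ ^ v).sum +
  ((List.range φ.2.length).map fun j => max 1 (cl φ j).length * base φ ^ (φ.1 + j)).sum

/-- The instance of PARTITION. -/
def red (φ : CNF) : List ℕ := items φ ++ [2 * target φ, (items φ).sum]

theorem sum_map_range (n : ℕ) (f : ℕ → ℕ) : ((List.range n).map f).sum =
    ∑ i ∈ Finset.range n, f i := by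
  induction n with
  | zero => simp
  | succ n ih => rw [List.range_succ, Finset.sum_range_succ]; simp [ih]

/-- The number of literals of the clause `j` selected by `x`, `y`. -/
def sel (φ : CNF) (x y : ℕ → ℕ) (j : ℕ) : ℕ :=
  ∑ v ∈ Finset.range φ.1, (x v * (cl φ j).count (v, false) + y v * (cl φ j).count (v, true))

theorem sum_count_le (n : ℕ) (c : List (ℕ × Bool)) :
    ∑ v ∈ Finset.range n, (c.count (v, false) + c.count (v, true)) ≤ c.length := by
  induction c with
  | nil => simp
  | cons l c ih =>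
    have e : ∀ v, (l :: c).count (v, false) + (l :: c).count (v, true) =
        (c.count (v, false) + c.count (v, true)) + if l.1 = v then 1 else 0 := by
      intro v
      obtain ⟨a, β⟩ := l
      simp only [List.count_cons, beq_iff_eq, Prod.mk.injEq]
      by_cases h : a = v <;> cases β <;> simp [h] <;> omega
    rw [Finset.sum_congr rfl fun v _ => e v, Finset.sum_add_distrib, List.length_cons]
    refine add_le_add ih ?_
    rw [Finset.sum_ite_eq]
    split_ifs <;> omega

theorem sel_le (φ : CNF) (x y : ℕ → ℕ) (hx : ∀ v, x v ≤ 1) (hy : ∀ v, y v ≤ 1) (j : ℕ) :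
    sel φ x y j ≤ (cl φ j).length := by
  refine le_trans (Finset.sum_le_sum fun v _ => ?_) (sum_count_le φ.1 (cl φ j))
  exact add_le_add (mul_le_of_le_one_left (Nat.zero_le _) (hx v))
    (mul_le_of_le_one_left (Nat.zero_le _) (hy v))

theorem length_cl_le (φ : CNF) (j : ℕ) : (cl φ j).length ≤ φ.2.flatten.length := by
  unfold cl
  rcases h : φ.2[j]? with _ | c
  · simp
  · have hc : c ∈ φ.2 := List.mem_of_getElem? h
    rw [Option.getD_some, List.length_flatten]
    exact List.single_le_sum (by simp) _ (List.mem_map_of_mem hc)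

theorem cl_mem (φ : CNF) (j : ℕ) (hj : j < φ.2.length) : cl φ j ∈ φ.2 := by
  unfold cl
  rw [List.getElem?_eq_getElem hj]
  simp

theorem exists_cl (φ : CNF) (c : List (ℕ × Bool)) (hc : c ∈ φ.2) :
    ∃ j < φ.2.length, cl φ j = c := by
  obtain ⟨j, hj, rfl⟩ := List.mem_iff_getElem.1 hc
  refine ⟨j, hj, ?_⟩
  unfold cl
  rw [List.getElem?_eq_getElem hj]
  simp

theorem sum_items (φ : CNF) (x y s : ℕ → ℕ) :
    ∑ v ∈ Finset.range φ.1, (x v * item φ (v, false) + y v * item φ (v, true)) +
      ∑ j ∈ Finset.range φ.2.length, s j * base φ ^ (φ.1 + j) =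
    ∑ v ∈ Finset.range φ.1, (x v + y v) * base φ ^ v +
      ∑ j ∈ Finset.range φ.2.length, (sel φ x y j + s j) * base φ ^ (φ.1 + j) := by
  have e : ∀ l : ℕ × Bool, item φ l = base φ ^ l.1 +
      ∑ j ∈ Finset.range φ.2.length, (cl φ j).count l * base φ ^ (φ.1 + j) := by
    intro l
    rw [item, sum_map_range]
  have e2 : ∑ v ∈ Finset.range φ.1, (x v * item φ (v, false) + y v * item φ (v, true)) =
      ∑ v ∈ Finset.range φ.1, (x v + y v) * base φ ^ v +
      ∑ v ∈ Finset.range φ.1, ∑ j ∈ Finset.range φ.2.length,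
        (x v * (cl φ j).count (v, false) + y v * (cl φ j).count (v, true)) *
          base φ ^ (φ.1 + j) := by
    rw [← Finset.sum_add_distrib]
    refine Finset.sum_congr rfl fun v _ => ?_
    rw [e, e]
    simp only [add_mul, Finset.sum_add_distrib, mul_add, Finset.mul_sum, mul_assoc]
    ring
  rw [e2, Finset.sum_comm, add_assoc, ← Finset.sum_add_distrib]
  congr 1
  refine Finset.sum_congr rfl fun j _ => ?_
  rw [← Finset.sum_mul, sel, add_mul]

theorem ss_items (φ : CNF) (t : ℕ) : SS (items φ) t ↔ ∃ x y s : ℕ → ℕ, (∀ v, x v ≤ 1) ∧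
    (∀ v, y v ≤ 1) ∧ (∀ j < φ.2.length, s j ≤ (cl φ j).length - 1) ∧
    ∑ v ∈ Finset.range φ.1, (x v * item φ (v, false) + y v * item φ (v, true)) +
      ∑ j ∈ Finset.range φ.2.length, s j * base φ ^ (φ.1 + j) = t := by
  rw [items, ss_append]
  constructor
  · rintro ⟨a, b, ha, hb, rfl⟩
    obtain ⟨u, hu, rfl⟩ := (ss_flatMap _ _ _).1 ha
    obtain ⟨w, hw, rfl⟩ := (ss_flatMap _ _ _).1 hb
    have h1 : ∀ v, ∃ p : ℕ × ℕ, p.1 ≤ 1 ∧ p.2 ≤ 1 ∧
        (v < φ.1 → u v = p.1 * item φ (v, false) + p.2 * item φ (v, true)) := by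
      intro v
      by_cases hv : v < φ.1
      · obtain ⟨c, d, hc, hd, he⟩ := (ss_append _ _ _).1 (hu v hv)
        obtain ⟨i, hi, rfl⟩ := (ss_single _ _).1 hc
        obtain ⟨j, hj, rfl⟩ := (ss_single _ _).1 hd
        exact ⟨(i, j), hi, hj, fun _ => he.symm⟩
      · exact ⟨(0, 0), by simp, by simp, fun h => absurd h hv⟩
    choose p hp1 hp2 hp3 using h1
    have h2 : ∀ j, ∃ i, j < φ.2.length → i ≤ (cl φ j).length - 1 ∧
        w j = i * base φ ^ (φ.1 + j) := by
      intro j
      by_cases hj : j < φ.2.length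
      · obtain ⟨i, hi, he⟩ := (ss_replicate _ _ _).1 (hw j hj)
        exact ⟨i, fun _ => ⟨hi, he⟩⟩
      · exact ⟨0, fun h => absurd h hj⟩
    choose s hs using h2
    refine ⟨fun v => (p v).1, fun v => (p v).2, s, hp1, hp2, fun j hj => (hs j hj).1, ?_⟩
    congr 1
    · exact Finset.sum_congr rfl fun v hv => (hp3 v (Finset.mem_range.1 hv)).symm
    · exact Finset.sum_congr rfl fun j hj => ((hs j (Finset.mem_range.1 hj)).2).symm
  · rintro ⟨x, y, s, hx, hy, hs, rfl⟩
    refine ⟨_, _, (ss_flatMap _ _ _).2 ⟨_, fun v hv => ?_, rfl⟩,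
      (ss_flatMap _ _ _).2 ⟨_, fun j hj => ?_, rfl⟩, rfl⟩
    · exact (ss_append _ _ _).2 ⟨_, _, (ss_single _ _).2 ⟨x v, hx v, rfl⟩,
        (ss_single _ _).2 ⟨y v, hy v, rfl⟩, rfl⟩
    · exact (ss_replicate _ _ _).2 ⟨s j, hs j hj, rfl⟩

/-- Satisfiability. -/
def Sat (φ : CNF) : Prop := ∃ a : ℕ → Bool, ∀ c ∈ φ.2, ∃ l ∈ c, a l.1 = l.2

theorem ss_target (φ : CNF) (hφ : φ.Wf) : SS (items φ) (target φ) ↔ Sat φ := by
  rw [ss_items]
  have key : ∀ x y s : ℕ → ℕ, (∀ v, x v ≤ 1) → (∀ v, y v ≤ 1) →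
      (∀ j < φ.2.length, s j ≤ (cl φ j).length - 1) →
      (∑ v ∈ Finset.range φ.1, (x v * item φ (v, false) + y v * item φ (v, true)) +
        ∑ j ∈ Finset.range φ.2.length, s j * base φ ^ (φ.1 + j) = target φ ↔
      (∀ v < φ.1, x v + y v = 1) ∧
        ∀ j < φ.2.length, sel φ x y j + s j = max 1 (cl φ j).length) := by
    intro x y s hx hy hs
    rw [sum_items, target, sum_map_range, sum_map_range]
    have e : ∑ v ∈ Finset.range φ.1, base φ ^ v =
        ∑ v ∈ Finset.range φ.1, 1 * base φ ^ v := by simp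
    rw [e]
    refine digits_inj2 (base φ) φ.1 φ.2.length (fun v => x v + y v) (fun _ => 1)
      (fun j => sel φ x y j + s j) (fun j => max 1 (cl φ j).length) ?_ ?_ ?_ ?_
    · intro v _
      have := hx v
      have := hy v
      unfold base
      omega
    · intro v _
      unfold base
      omega
    · intro j hj
      have h1 := sel_le φ x y hx hy j
      have h2 := hs j hj
      have h3 := length_cl_le φ j
      unfold base
      omega
    · intro j hj
      have h3 := length_cl_le φ j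
      unfold base
      omega
  constructor
  · rintro ⟨x, y, s, hx, hy, hs, h⟩
    obtain ⟨h1, h2⟩ := (key x y s hx hy hs).1 h
    refine ⟨fun v => decide (y v = 1), fun c hc => ?_⟩
    obtain ⟨j, hj, rfl⟩ := exists_cl φ c hc
    have h3 := h2 j hj
    have h4 := hs j hj
    have h5 : sel φ x y j ≠ 0 := by
      intro h0
      rw [h0] at h3
      omega
    obtain ⟨v, hv, hne⟩ := Finset.exists_ne_zero_of_sum_ne_zero h5
    have hv' := h1 v (Finset.mem_range.1 hv)
    by_cases hyv : y v = 1
    · have hxv : x v = 0 := by omega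
      rw [hyv, hxv] at hne
      have : 0 < (cl φ j).count (v, true) := by omega
      exact ⟨(v, true), List.count_pos_iff.1 this, by simp [hyv]⟩
    · have hxv : x v = 1 := by
        have := hy v
        omega
      have hy0 : y v = 0 := by omega
      rw [hy0, hxv] at hne
      have : 0 < (cl φ j).count (v, false) := by omega
      exact ⟨(v, false), List.count_pos_iff.1 this, by simp [hyv]⟩
  · rintro ⟨a, ha⟩
    set x : ℕ → ℕ := fun v => if a v = true then 0 else 1 with hx
    set y : ℕ → ℕ := fun v => if a v = true then 1 else 0 with hy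
    have hx1 : ∀ v, x v ≤ 1 := by
      intro v
      simp only [hx]
      split_ifs <;> omega
    have hy1 : ∀ v, y v ≤ 1 := by
      intro v
      simp only [hy]
      split_ifs <;> omega
    have hsel : ∀ j < φ.2.length, 0 < sel φ x y j := by
      intro j hj
      obtain ⟨⟨v, β⟩, hl, hal⟩ := ha _ (cl_mem φ j hj)
      have hv : v < φ.1 := hφ _ (cl_mem φ j hj) _ hl
      have hc : 0 < (cl φ j).count (v, β) := List.count_pos_iff.2 hl
      refine lt_of_lt_of_le ?_ (Finset.single_le_sum (fun _ _ => Nat.zero_le _)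
        (Finset.mem_range.2 hv))
      simp only at hal
      simp only [hx, hy]
      cases β
      · rw [hal]
        simpa using hc
      · rw [hal]
        simpa using hc
    have hs : ∀ j < φ.2.length, (cl φ j).length - sel φ x y j ≤ (cl φ j).length - 1 := by
      intro j hj
      have := hsel j hj
      omega
    refine ⟨x, y, fun j => (cl φ j).length - sel φ x y j, hx1, hy1, hs,
      (key x y _ hx1 hy1 hs).2 ⟨fun v _ => ?_, fun j hj => ?_⟩⟩
    · simp only [hx, hy]
      split_ifs <;> rfl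
    · have h1 := hsel j hj
      have h2 := sel_le φ x y hx1 hy1 j
      omega

theorem count_pos (φ : CNF) (hφ : φ.Wf) : 0 < count φ ↔ Sat φ := by
  unfold count
  rw [Finite.card_pos_iff]
  constructor
  · rintro ⟨⟨a, ha⟩⟩
    refine ⟨fun v => if h : v < φ.1 then a ⟨v, h⟩ else false, fun c hc => ?_⟩
    obtain ⟨l, hl, h, e⟩ := ha c hc
    exact ⟨l, hl, (dif_pos h).trans e⟩
  · rintro ⟨a, ha⟩
    refine ⟨⟨fun v => a v, fun c hc => ?_⟩⟩
    obtain ⟨l, hl, e⟩ := ha c hc
    exact ⟨l, hl, hφ c hc l hl, e⟩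

theorem partition_red (φ : CNF) (hφ : φ.Wf) : Partition (red φ) ↔ 0 < count φ := by
  rw [red, partition_of_ss, ss_target φ hφ, count_pos φ hφ]

/-! ### Computability -/

section poly

variable {α : Type*} [TEnc α]

theorem nbPow {f : α → NBin} {n : α → ℕ} (hf : PolyF f) (hn : PolyF n) :
    PolyF (α := α) (β := NBin) (fun x => @HPow.hPow ℕ ℕ ℕ instHPow (f x) (n x)) := by
  refine ((hf.toBin.intOfBin.intPow hn).intToNat.ofBin).congr fun x => ?_
  have : ∀ a k : ℕ, ((a : ℤ) ^ k).toNat = a ^ k := by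
    intro a k
    rw [← Nat.cast_pow, Int.toNat_natCast]
  exact this (f x) (n x)

theorem polyF_base {φ : α → CNF} (hφ : PolyF φ) :
    PolyF (α := α) (β := NBin) (fun x => base (φ x)) :=
  (((PolyF.const 2).natMul hφ.snd.flatten.length).natAdd (PolyF.const 3)).nbOfNat

theorem polyF_cl {φ : α → CNF} {j : α → ℕ} (hφ : PolyF φ) (hj : PolyF j) :
    PolyF (fun x => cl (φ x) (j x)) :=
  (PolyF.getElem? hj hφ.snd).getD (PolyF.const [])

theorem polyF_item {φ : α → CNF} {l : α → ℕ × Bool} (hφ : PolyF φ) (hl : PolyF l) :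
    PolyF (α := α) (β := NBin) (fun x => item (φ x) (l x)) := by
  have h1 : PolyF (α := α) (β := List NBin) (fun x => (List.range (φ x).2.length).map fun j =>
      (cl (φ x) j).count (l x) * base (φ x) ^ ((φ x).1 + j)) := by
    refine PolyF.map (γ := NBin) (h := fun x j => ((cl (φ x) j).count (l x) *
      base (φ x) ^ ((φ x).1 + j) : ℕ)) (hφ.snd.length.range) ?_
    have hφ' : PolyF (fun p : α × ℕ => φ p.1) := hφ.comp PolyF.fst'
    have hc : PolyF (fun p : α × ℕ => (cl (φ p.1) p.2).count (l p.1)) :=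
      PolyF.count (f := fun p : α × ℕ => l p.1) (hl.comp PolyF.fst') (polyF_cl hφ' PolyF.snd')
    exact hc.nbOfNat.nbMul (nbPow (polyF_base hφ') (hφ'.fst.natAdd PolyF.snd'))
  exact (nbPow (polyF_base hφ) hl.fst).nbAdd h1.nbSum

theorem polyF_items {φ : α → CNF} (hφ : PolyF φ) :
    PolyF (α := α) (β := List NBin) (fun x => items (φ x)) := by
  have h1 : PolyF (α := α) (β := List NBin) (fun x => (List.range (φ x).1).flatMap (fun v =>
      [item (φ x) (v, false)] ++ [item (φ x) (v, true)])) := by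
    refine PolyF.flatMap (γ := NBin) (h := fun x v => ([item (φ x) (v, false)] ++
      [item (φ x) (v, true)] : List ℕ)) (hφ.fst.range) ?_
    have hφ' : PolyF (fun p : α × ℕ => φ p.1) := hφ.comp PolyF.fst'
    exact (polyF_item hφ' (PolyF.snd'.pair (PolyF.const false))).singleton.append
      (polyF_item hφ' (PolyF.snd'.pair (PolyF.const true))).singleton
  have h2 : PolyF (α := α) (β := List NBin) (fun x => (List.range (φ x).2.length).flatMap fun j =>
      List.replicate ((cl (φ x) j).length - 1) (base (φ x) ^ ((φ x).1 + j))) := by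
    refine PolyF.flatMap (γ := NBin) (h := fun x j => (List.replicate
      ((cl (φ x) j).length - 1) (base (φ x) ^ ((φ x).1 + j)) : List ℕ)) (hφ.snd.length.range) ?_
    have hφ' : PolyF (fun p : α × ℕ => φ p.1) := hφ.comp PolyF.fst'
    exact PolyF.replicate (β := NBin) (((polyF_cl hφ' PolyF.snd').length).natSub
      (PolyF.const 1)) (nbPow (polyF_base hφ') (hφ'.fst.natAdd PolyF.snd'))
  exact h1.append h2

theorem polyF_target {φ : α → CNF} (hφ : PolyF φ) :
    PolyF (α := α) (β := NBin) (fun x => target (φ x)) := by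
  have hφ' : PolyF (fun p : α × ℕ => φ p.1) := hφ.comp PolyF.fst'
  have h1 : PolyF (α := α) (β := List NBin) (fun x => (List.range (φ x).1).map (fun v =>
      base (φ x) ^ v)) :=
    PolyF.map (γ := NBin) (h := fun x v => (base (φ x) ^ v : ℕ)) (hφ.fst.range)
      (nbPow (polyF_base hφ') PolyF.snd')
  have h2 : PolyF (α := α) (β := List NBin) (fun x => (List.range (φ x).2.length).map (fun j =>
      max 1 (cl (φ x) j).length * base (φ x) ^ ((φ x).1 + j))) := by
    refine PolyF.map (γ := NBin) (h := fun x j => (max 1 (cl (φ x) j).length *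
      base (φ x) ^ ((φ x).1 + j) : ℕ)) (hφ.snd.length.range) ?_
    exact ((PolyF.nbConst 1).nbMax ((polyF_cl hφ' PolyF.snd').length.nbOfNat)).nbMul
      (nbPow (polyF_base hφ') (hφ'.fst.natAdd PolyF.snd'))
  exact h1.nbSum.nbAdd h2.nbSum

theorem polyF_red {φ : α → CNF} (hφ : PolyF φ) :
    PolyF (α := α) (β := List NBin) (fun x => red (φ x)) :=
  PolyF.append (β := NBin) (polyF_items hφ)
    (((PolyF.nbConst 2).nbMul (polyF_target hφ)).cons (polyF_items hφ).nbSum.singleton)

end poly

end Part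

theorem partition_hard (L : Set (List Bool)) (hL : InNP L) :
    ∃ g : List Bool → List NBin, PolyF g ∧ ∀ x, x ∈ L ↔ Partition (g x) := by
  obtain ⟨p, V, hV, hx⟩ := hL
  have hS : SharpP fun x => Nat.card {w : List Bool // w.length = p.eval x.length ∧
      V (x, w) = true} := ⟨p, V, hV, fun _ => rfl⟩
  obtain ⟨g, hg, hwf, hc⟩ := cook_levin hS
  refine ⟨fun x => Part.red (g x), Part.polyF_red hg, fun x => ?_⟩
  have h1 : Partition (Part.red (g x)) ↔ 0 < count (g x) := Part.partition_red (g x) (hwf x)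
  have h2 : 0 < count (g x) ↔ x ∈ L := by
    rw [← hc x, hx]
    have : Finite {w : List Bool // w.length = p.eval x.length ∧ V (x, w) = true} :=
      Set.Finite.to_subtype ((List.finite_length_eq Bool (p.eval x.length)).subset
        fun w hw => hw.1)
    rw [Finite.card_pos_iff]
    exact nonempty_subtype
  exact (h1.trans h2).symm

end Pool.Agent.Lib.PmtnHard
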