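import Pool.Agent.Lib.MP_1f44d9_lc.Hard.Statement
import Pool.Agent.Lib.MP_1f44d9_lc.Hard.Core
import Pool.Agent.Lib.PolyTime.NatBin
import Pool.Agent.Lib.PolyTime.Bridge

/-!
# The reduction is computable in polynomial time
-/

set_option linter.unusedSimpArgs false

namespace Pool.Agent.Lib.PmtnHard

open Turing Pool.Agent.Lib.PolyTime

/-! ## Machines -/

theorem tm2_of_polyF {α : Type} (e : α → List Bool) (f : List Bool → α)
    (h : PolyF fun x => e (f x)) :
    Nonempty (TM2ComputableInPolyTime (fun w : List Bool => w) e f) :=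
  h.tm2 fun _ => rfl

/-! ## Positive processing times -/

namespace PolyAux

theorem unit_pos (l : List ℕ) : 0 < unit l := Nat.succ_pos _

theorem run_fst {E s N : ℕ} {j : ℕ × ℕ} (h : j ∈ run E s N) : j.1 = E := by
  obtain ⟨i, -, rfl⟩ := List.mem_map.1 h
  rfl

theorem initJobs_pos {E : ℕ} (hE : 0 < E) {j : ℕ × ℕ} (h : j ∈ initJobs E) : 0 < j.1 := by
  simp only [initJobs, List.mem_append] at h
  rcases h with ((h | h) | h) | h <;> rw [run_fst h] <;> exact hE

theorem blockJobs_pos {E B x : ℕ} (hE : 0 < E) {j : ℕ × ℕ} (h : j ∈ blockJobs E B x) :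
    0 < j.1 := by
  simp only [blockJobs, List.mem_append, List.mem_cons, List.not_mem_nil, or_false] at h
  rcases h with h | ((h | h) | h) | h
  · rcases h with h | h | h | h | h | h | h | h | h <;> subst h <;> simp <;> omega
  all_goals rw [run_fst h]; exact hE

theorem finalJobs_pos {E B : ℕ} (hE : 0 < E) {j : ℕ × ℕ} (h : j ∈ finalJobs E B) :
    0 < j.1 := by
  simp only [finalJobs, List.mem_append, List.mem_cons, List.not_mem_nil, or_false] at h
  rcases h with h | (((h | h) | h) | h) | h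
  · rcases h with h | h | h | h <;> subst h <;> simp <;> omega
  all_goals rw [run_fst h]; exact hE

theorem jobsFrom_pos {E : ℕ} (hE : 0 < E) (xs : List ℕ) (B : ℕ) {j : ℕ × ℕ}
    (h : j ∈ jobsFrom E B xs) : 0 < j.1 := by
  induction xs generalizing B with
  | nil => exact finalJobs_pos hE h
  | cons x xs ih =>
    rcases List.mem_append.1 h with h | h
    · exact blockJobs_pos hE h
    · exact ih _ h

theorem allJobs_pos {E : ℕ} (hE : 0 < E) (xs : List ℕ) {j : ℕ × ℕ} (h : j ∈ allJobs E xs) :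
    0 < j.1 := by
  rcases List.mem_append.1 h with h | h
  · exact initJobs_pos hE h
  · exact jobsFrom_pos hE xs 0 h

theorem jobsC_pos (l : List ℕ) : ∀ j ∈ jobsC l, 0 < j.1 := fun _ h =>
  allJobs_pos (unit_pos l) _ h

theorem jobsT_pos (l : List ℕ) : ∀ j ∈ jobsT l, 0 < j.1 := by
  intro j h
  obtain ⟨i, hi, rfl⟩ := List.mem_map.1 h
  exact allJobs_pos (j := i) (unit_pos l) _ hi

end PolyAux

open PolyAux

/-! ## The inputs -/

/-- The input `(m, k, J)` for `∑ C_j`. -/
def inputC (l : List ℕ) : Input := ⟨(5, boundC l, jobsC l), ⟨by norm_num, jobsC_pos l⟩⟩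

/-- The input `(m, k, J)` for `∑ T_j`. -/
def inputT (l : List ℕ) : Input := ⟨(5, boundT l, jobsT l), ⟨by norm_num, jobsT_pos l⟩⟩

/-! ## The jobs, without recursion -/

namespace PolyAux

theorem jobsFrom_eq (E : ℕ) (xs : List ℕ) (B : ℕ) :
    jobsFrom E B xs =
      (((List.range xs.length).zip xs).flatMap fun q => blockJobs E (B + 161 * E * q.1) q.2) ++
        finalJobs E (B + 161 * E * xs.length) := by
  induction xs generalizing B with
  | nil => simp [jobsFrom]
  | cons x xs ih =>
    have e1 : (List.range (x :: xs).length).zip (x :: xs) =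
        (0, x) :: (((List.range xs.length).zip xs).map fun q => (q.1 + 1, q.2)) := by
      rw [List.length_cons, List.range_succ_eq_map, List.zip_cons_cons, List.zip_map_left]
      rfl
    rw [jobsFrom, ih, e1, List.flatMap_cons, List.flatMap_map, List.append_assoc]
    have e2 : B + 161 * E * 0 = B := by ring
    have e3 : B + 161 * E * (x :: xs).length = B + 161 * E + 161 * E * xs.length := by
      rw [List.length_cons]; ring
    have e4 : (fun q : ℕ × ℕ => blockJobs E (B + 161 * E * (q.1 + 1)) q.2) =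
        fun q : ℕ × ℕ => blockJobs E (B + 161 * E + 161 * E * q.1) q.2 := by
      funext q
      congr 1
      ring
    rw [e2, e3, e4]

/-! ## Polynomial time -/

section

variable {α : Type*} [TEnc α]

/-- Lists of jobs, in binary. -/
abbrev BJobs : Type := List (NBin × NBin)

theorem appB {f g : α → BJobs} (hf : PolyF f) (hg : PolyF g) :
    PolyF (β := BJobs) (fun x => @HAppend.hAppend (List (ℕ × ℕ)) (List (ℕ × ℕ))
      (List (ℕ × ℕ)) instHAppendOfAppend (f x) (g x)) :=
  PolyF.append (β := NBin × NBin) hf hg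

/-- A number plus a constant multiple of a number. -/
theorem polyF_lin {E s : α → NBin} (c : ℕ) (hE : PolyF E) (hs : PolyF s) :
    PolyF (α := α) (β := NBin) (fun x =>
      @HAdd.hAdd ℕ ℕ ℕ instHAdd (s x) (@HMul.hMul ℕ ℕ ℕ instHMul c (E x))) :=
  hs.nbAdd ((PolyF.nbConst c).nbMul hE)

theorem polyF_run {E s : α → NBin} (hE : PolyF E) (hs : PolyF s) (N : ℕ) :
    PolyF (β := BJobs) (fun x => run (E x) (s x) N) := by
  have h : PolyF (β := BJobs) (fun x => (List.range N).map fun i =>
      ((E x, @HAdd.hAdd ℕ ℕ ℕ instHAdd (s x) (@HMul.hMul ℕ ℕ ℕ instHMul i (E x))) :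
        NBin × NBin)) := by
    refine PolyF.map (l := fun _ => List.range N) (h := fun x (i : ℕ) =>
      ((E x, @HAdd.hAdd ℕ ℕ ℕ instHAdd (s x) (@HMul.hMul ℕ ℕ ℕ instHMul i (E x))) :
        NBin × NBin)) (PolyF.const _) ?_
    exact (hE.comp PolyF.fst').pair ((hs.comp PolyF.fst').nbAdd
      ((PolyF.snd'.nbOfNat).nbMul (hE.comp PolyF.fst')))
  exact h

theorem polyF_initJobs {E : α → NBin} (hE : PolyF E) :
    PolyF (β := BJobs) (fun x => initJobs (E x)) := by
  have h0 : PolyF (α := α) (β := NBin) (fun _ => (0 : ℕ)) := PolyF.nbConst 0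
  exact appB (appB (appB (polyF_run hE h0 7) (polyF_run hE h0 38))
    (polyF_run hE h0 49)) (polyF_run hE h0 51)

theorem polyF_blockJobs {E B y : α → NBin} (hE : PolyF E) (hB : PolyF B) (hy : PolyF y) :
    PolyF (β := BJobs) (fun x => blockJobs (E x) (B x) (y x)) := by
  have hl : ∀ c : ℕ, PolyF (α := α) (β := NBin) (fun x =>
      @HAdd.hAdd ℕ ℕ ℕ instHAdd (B x) (@HMul.hMul ℕ ℕ ℕ instHMul c (E x))) := fun c =>
    polyF_lin c hE hB
  have hly : ∀ c : ℕ, PolyF (α := α) (β := NBin) (fun x => @HAdd.hAdd ℕ ℕ ℕ instHAdd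
      (@HAdd.hAdd ℕ ℕ ℕ instHAdd (B x) (@HMul.hMul ℕ ℕ ℕ instHMul c (E x))) (y x)) := fun c =>
    (hl c).nbAdd hy
  have hm : ∀ c : ℕ, PolyF (α := α) (β := NBin) (fun x => @HMul.hMul ℕ ℕ ℕ instHMul c (E x)) :=
    fun c => (PolyF.nbConst c).nbMul hE
  have h : PolyF (β := BJobs) _ := (((hm 79).pair hB).cons (((hm 79).pair hB).cons
    (((hm 79).pair (hly 40)).cons
    (((hm 79).pair (hly 40)).cons (((hm 80).pair (hl 79)).cons (((hm 79).pair (hly 80)).cons
    (((hm 79).pair (hly 80)).cons (((hm 79).pair (hl 120)).cons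
    (((hm 79).pair (hl 120)).cons (PolyF.nil (α := α)))))))))))
  have h2 := appB (appB (appB (polyF_run hE (hly 10) 30) (polyF_run hE (hly 50) 30))
    (polyF_run hE (hl 104) 16)) (polyF_run hE (hl 144) 17)
  exact appB h h2

theorem polyF_finalJobs {E B : α → NBin} (hE : PolyF E) (hB : PolyF B) :
    PolyF (β := BJobs) (fun x => finalJobs (E x) (B x)) := by
  have hl : ∀ c : ℕ, PolyF (α := α) (β := NBin) (fun x =>
      @HAdd.hAdd ℕ ℕ ℕ instHAdd (B x) (@HMul.hMul ℕ ℕ ℕ instHMul c (E x))) := fun c =>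
    polyF_lin c hE hB
  have hm : ∀ c : ℕ, PolyF (α := α) (β := NBin) (fun x => @HMul.hMul ℕ ℕ ℕ instHMul c (E x)) :=
    fun c => (PolyF.nbConst c).nbMul hE
  have h : PolyF (β := BJobs) _ := (((hm 79).pair hB).cons (((hm 79).pair hB).cons
    (((hm 79).pair (hl 40)).cons (((hm 79).pair (hl 40)).cons (PolyF.nil (α := α))))))
  have h2 := appB (appB (appB (appB (polyF_run hE (hl 10) 30) (polyF_run hE (hl 50) 30))
    (polyF_run hE (hl 80) 39)) (polyF_run hE (hl 79) 40))
    (polyF_run hE (hl 114) 5)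
  exact appB h h2

/-- The start of a block. -/
def start (E B : ℕ) (k : ℕ) : ℕ := B + 161 * E * k

theorem polyF_start {E B k : α → NBin} (hE : PolyF E) (hB : PolyF B) (hk : PolyF k) :
    PolyF (β := NBin) (fun x => start (E x) (B x) (k x)) :=
  hB.nbAdd (((PolyF.nbConst 161).nbMul hE).nbMul hk)

theorem polyF_jobsFrom {E : α → NBin} {xs : α → List NBin} (hE : PolyF E) (hxs : PolyF xs) :
    PolyF (β := BJobs) (fun x => jobsFrom (E x) 0 (xs x)) := by
  have hlen : PolyF (fun x => (xs x).length) := hxs.length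
  have hz : PolyF (β := List (ℕ × NBin)) (fun x => (List.range (xs x).length).zip (xs x)) :=
    (hlen.range).zip hxs
  have hb : PolyF (β := BJobs) (fun q : α × (ℕ × NBin) =>
      blockJobs (E q.1) (start (E q.1) 0 q.2.1) q.2.2) :=
    polyF_blockJobs (hE.comp PolyF.fst') (polyF_start (hE.comp PolyF.fst') (PolyF.nbConst 0)
      (PolyF.snd'.fst.nbOfNat)) PolyF.snd'.snd
  have hfm : PolyF (β := BJobs) (fun x => ((List.range (xs x).length).zip (xs x)).flatMap
      fun q : ℕ × NBin => blockJobs (E x) (start (E x) 0 q.1) q.2) :=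
    PolyF.flatMap (γ := NBin × NBin) (h := fun x (q : ℕ × NBin) =>
      blockJobs (E x) (start (E x) 0 q.1) q.2) hz hb
  have hf : PolyF (β := BJobs) (fun x => finalJobs (E x) (start (E x) 0 (xs x).length)) :=
    polyF_finalJobs hE (polyF_start hE (PolyF.nbConst 0) hlen.nbOfNat)
  refine (appB hfm hf).congr fun x => ?_
  exact (jobsFrom_eq (E x) (xs x) 0).symm

theorem polyF_allJobs {E : α → NBin} {xs : α → List NBin} (hE : PolyF E) (hxs : PolyF xs) :
    PolyF (β := BJobs) (fun x => allJobs (E x) (xs x)) :=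
  appB (polyF_initJobs hE) (polyF_jobsFrom hE hxs)

theorem polyF_gad {l : α → List NBin} (hl : PolyF l) :
    PolyF (β := List NBin) (fun x => gad (l x)) := by
  have h : PolyF (β := List NBin) (fun x => (l x).map fun n : NBin =>
      (@HMul.hMul ℕ ℕ ℕ instHMul 2 n : NBin)) :=
    PolyF.map (γ := NBin) (h := fun _ (n : NBin) => (@HMul.hMul ℕ ℕ ℕ instHMul 2 n : NBin)) hl
      ((PolyF.nbConst 2).nbMul PolyF.snd')
  exact h

theorem polyF_unit {l : α → List NBin} (hl : PolyF l) :
    PolyF (β := NBin) (fun x => unit (l x)) :=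
  (polyF_gad hl).nbSum.nbAdd (PolyF.nbConst 1)

theorem polyF_bound {E : α → NBin} {xs : α → List NBin} (hE : PolyF E) (hxs : PolyF xs) :
    PolyF (β := NBin) (fun x => bound (E x) (xs x)) := by
  have h := ((((PolyF.nbConst 90).nbMul hE).nbAdd
    ((((PolyF.nbConst 236).nbMul hxs.length.nbOfNat)).nbMul hE)).nbSub
    ((PolyF.nbConst 9).nbMul hxs.nbSum)).nbDiv (PolyF.nbConst 2)
  exact h

theorem polyF_jobsC {l : α → List NBin} (hl : PolyF l) :
    PolyF (β := BJobs) (fun x => jobsC (l x)) :=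
  polyF_allJobs (polyF_unit hl) (polyF_gad hl)

theorem polyF_jobsT {l : α → List NBin} (hl : PolyF l) :
    PolyF (β := BJobs) (fun x => jobsT (l x)) := by
  have h : PolyF (β := BJobs) (fun x => (jobsC (l x) : BJobs).map fun j : NBin × NBin =>
      ((j.1, (@HAdd.hAdd ℕ ℕ ℕ instHAdd j.2 j.1 : NBin)) : NBin × NBin)) :=
    (polyF_jobsC hl).map (h := fun _ (j : NBin × NBin) =>
      ((j.1, (@HAdd.hAdd ℕ ℕ ℕ instHAdd j.2 j.1 : NBin)) : NBin × NBin))
      (PolyF.snd'.fst.pair (PolyF.snd'.snd.nbAdd PolyF.snd'.fst))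
  exact h

theorem polyF_boundT {l : α → List NBin} (hl : PolyF l) :
    PolyF (β := NBin) (fun x => boundT (l x)) :=
  polyF_bound (polyF_unit hl) (polyF_gad hl)

theorem polyF_boundC {l : α → List NBin} (hl : PolyF l) :
    PolyF (β := NBin) (fun x => boundC (l x)) := by
  have h : PolyF (β := List NBin) (fun x => (jobsC (l x) : BJobs).map fun j : NBin × NBin =>
      (@HAdd.hAdd ℕ ℕ ℕ instHAdd j.2 j.1 : NBin)) :=
    PolyF.map (γ := NBin) (h := fun _ (j : NBin × NBin) =>
      (@HAdd.hAdd ℕ ℕ ℕ instHAdd j.2 j.1 : NBin)) (polyF_jobsC hl)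
      (PolyF.snd'.snd.nbAdd PolyF.snd'.fst)
  exact (polyF_bound (polyF_unit hl) (polyF_gad hl)).nbAdd h.nbSum

theorem polyF_natWord {n : α → NBin} (hn : PolyF n) :
    PolyF (fun x => Input.natWord (n x)) := by
  have h := (hn.toBin.bits).flatMap (h := fun _ (b : Bool) => [true, b])
    ((PolyF.const true).cons (PolyF.snd'.cons PolyF.nil))
  exact h.append (PolyF.const [false])

/-- The word of an input given by its three components. -/
def wordOf (m k : ℕ) (J : List (ℕ × ℕ)) : List Bool :=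
  Input.natWord m ++ Input.natWord k ++ Input.natWord J.length ++
    J.flatMap fun j => Input.natWord j.1 ++ Input.natWord j.2

theorem polyF_wordOf (m : ℕ) {k : α → NBin} {J : α → BJobs} (hk : PolyF k) (hJ : PolyF J) :
    PolyF (fun x => wordOf m (k x) (J x)) := by
  have h : PolyF (fun x => (J x).flatMap fun j : NBin × NBin =>
      Input.natWord j.1 ++ Input.natWord j.2) :=
    hJ.flatMap (h := fun _ (j : NBin × NBin) => Input.natWord j.1 ++ Input.natWord j.2)
      ((polyF_natWord PolyF.snd'.fst).append (polyF_natWord PolyF.snd'.snd))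
  exact (((PolyF.const (Input.natWord m)).append (polyF_natWord hk)).append
    (polyF_natWord hJ.length.nbOfNat)).append h

end

end PolyAux

theorem polyF_inputC : PolyF (fun l : List NBin => Input.word (inputC l)) :=
  polyF_wordOf 5 (polyF_boundC PolyF.id) (polyF_jobsC PolyF.id)

theorem polyF_inputT : PolyF (fun l : List NBin => Input.word (inputT l)) :=
  polyF_wordOf 5 (polyF_boundT PolyF.id) (polyF_jobsT PolyF.id)

end Pool.Agent.Lib.PmtnHard
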