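import Pool.Agent.Lib.MP_1f44d9_lc.Hard.Statement
import Pool.Agent.Lib.CookLevin.Cols
import Pool.Agent.Lib.CookLevin.Micro
import Pool.Agent.Lib.CookLevin.Closed
import Pool.Agent.Lib.CookLevin.TabPoly

/-!
# Machines restricted to a slice

A fixed machine of Mathlib's type `Turing.FinTM2` is simulated by a function in `PolyF`.
-/

namespace Pool.Agent.Lib.PmtnHard

open Turing Pool.Agent.Lib.PolyTime Pool.Agent.Lib.CookLevin

/-! ### Rows of cells -/

/-- One step of the dynamics on rows of cells. -/
def nxt {n : ℕ} (bl : Fin n) (r0 : Fin n × Fin n → Fin n)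
    (r1 : (Fin n × Fin n) × (Fin n × Fin n) → Fin n) (r : List (Fin n)) : List (Fin n) :=
  (List.range r.length).map fun i =>
    if i = 0 then r0 ((r[0]?).getD bl, (r[1]?).getD bl)
    else r1 (((r[0]?).getD bl, (r[i - 1]?).getD bl), ((r[i]?).getD bl, (r[i + 1]?).getD bl))

theorem length_nxt {n : ℕ} (bl : Fin n) (r0 : Fin n × Fin n → Fin n)
    (r1 : (Fin n × Fin n) × (Fin n × Fin n) → Fin n) (r : List (Fin n)) :
    (nxt bl r0 r1 r).length = r.length := by
  simp [nxt]

theorem length_nxt_iterate {n : ℕ} (bl : Fin n) (r0 : Fin n × Fin n → Fin n)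
    (r1 : (Fin n × Fin n) × (Fin n × Fin n) → Fin n) (k : ℕ) : ∀ r : List (Fin n),
    ((nxt bl r0 r1)^[k] r).length = r.length := by
  induction k with
  | zero => intro r; rfl
  | succ k ih => intro r; rw [Function.iterate_succ_apply, ih, length_nxt]

theorem polyF_nxt {n : ℕ} (bl : Fin n) (r0 : Fin n × Fin n → Fin n)
    (r1 : (Fin n × Fin n) × (Fin n × Fin n) → Fin n) : PolyF (nxt bl r0 r1) := by
  have hg : ∀ {f : List (Fin n) × ℕ → ℕ}, PolyF f →
      PolyF (fun p : List (Fin n) × ℕ => ((p.1)[f p]?).getD bl) := fun hf =>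
    PolyF.getD (PolyF.getElem? hf PolyF.fst') (PolyF.const bl)
  refine PolyF.map (l := fun r : List (Fin n) => List.range r.length)
    (h := fun r i => if i = 0 then r0 ((r[0]?).getD bl, (r[1]?).getD bl)
    else r1 (((r[0]?).getD bl, (r[i - 1]?).getD bl), ((r[i]?).getD bl, (r[i + 1]?).getD bl)))
    (PolyF.range (PolyF.length PolyF.id)) ?_
  refine PolyF.ite (p := fun p : List (Fin n) × ℕ => p.2 = 0) (PolyF.natIsZero PolyF.snd') ?_ ?_
  · exact PolyF.finComp ((hg (PolyF.const 0)).pair (hg (PolyF.const 1))) r0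
  · exact PolyF.finComp (((hg (PolyF.const 0)).pair (hg (PolyF.pred PolyF.snd'))).pair
      ((hg PolyF.snd').pair (hg (PolyF.succ PolyF.snd')))) r1

theorem sz_row_le {n : ℕ} (r : List (Fin n)) : sz r ≤ (n + 1) * r.length :=
  sz_le_of_forall fun a _ => by rw [sz_fin]; exact a.2.le

theorem polyF_nxt_iterate {α : Type*} [TEnc α] {n : ℕ} (bl : Fin n) (r0 : Fin n × Fin n → Fin n)
    (r1 : (Fin n × Fin n) × (Fin n × Fin n) → Fin n) {T : α → ℕ} {r : α → List (Fin n)}
    (hT : PolyF T) (hr : PolyF r) : PolyF (fun x => (nxt bl r0 r1)^[T x] (r x)) := by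
  obtain ⟨Q, hQ⟩ := hr.bound
  refine PolyF.natIterate (f := fun _ : α => nxt bl r0 r1) hT
    ((polyF_nxt bl r0 r1).comp PolyF.snd') hr
    ⟨Polynomial.C (n + 1) * Q, fun x i _ => ?_⟩
  refine (sz_row_le _).trans ?_
  rw [length_nxt_iterate, Polynomial.eval_mul, Polynomial.eval_C]
  exact Nat.mul_le_mul_left _ ((length_le_sz _).trans (hQ x))

section

variable {K : Type} [DecidableEq K] {Γ : K → Type} {Λ σ : Type}

/-- The rows simulate the dynamics of columns. -/
theorem nxt_row (v₀ : σ) (m : Λ → TM2.Stmt Γ Λ σ) (G : Set (Col Γ Λ σ))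
    (hbl : blank v₀ ∈ G) (h0 : ∀ a ∈ G, ∀ b ∈ G, rule0 m a b ∈ G)
    (h1 : ∀ a ∈ G, ∀ b ∈ G, ∀ c ∈ G, ∀ d ∈ G, rule1 v₀ a b c d ∈ G)
    {n : ℕ} (cod : Col Γ Λ σ → Fin n) (r0 : Fin n × Fin n → Fin n)
    (r1 : (Fin n × Fin n) × (Fin n × Fin n) → Fin n)
    (e0 : ∀ a ∈ G, ∀ b ∈ G, r0 (cod a, cod b) = cod (rule0 m a b))
    (e1 : ∀ a ∈ G, ∀ b ∈ G, ∀ c ∈ G, ∀ d ∈ G,
      r1 ((cod a, cod b), (cod c, cod d)) = cod (rule1 v₀ a b c d))
    (W : ℕ) (T : ℕ) : ∀ (c : ℕ → Col Γ Λ σ), (∀ i, c i ∈ G) → (∀ i, W ≤ i → c i = blank v₀) →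
    (nxt (cod (blank v₀)) r0 r1)^[T] ((List.range W).map fun i => cod (c i)) =
      ((List.range W).map fun i => cod ((colNext v₀ m W)^[T] c i)) ∧
      ∀ i, (colNext v₀ m W)^[T] c i ∈ G := by
  induction T with
  | zero => intro c hc _; exact ⟨rfl, hc⟩
  | succ T ih =>
    intro c hc hW
    have hc' : ∀ i, colNext v₀ m W c i ∈ G := by
      intro i
      unfold colNext
      split_ifs
      exacts [h0 _ (hc _) _ (hc _), h1 _ (hc _) _ (hc _) _ (hc _) _ (hc _), hbl]
    have hW' : ∀ i, W ≤ i → colNext v₀ m W c i = blank v₀ := by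
      intro i hi
      unfold colNext
      rw [if_neg (by omega)]
    have hget : ∀ i, ((((List.range W).map fun i => cod (c i))[i]?).getD (cod (blank v₀))) =
        cod (c i) := by
      intro i
      by_cases hi : i < W
      · rw [List.getElem?_eq_getElem (by simpa using hi)]
        simp
      · rw [List.getElem?_eq_none (by simpa using hi), Option.getD_none, hW i (by omega)]
    have e : nxt (cod (blank v₀)) r0 r1 ((List.range W).map fun i => cod (c i)) =
        ((List.range W).map fun i => cod (colNext v₀ m W c i)) := by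
      unfold nxt
      simp only [hget, List.length_map, List.length_range]
      refine List.map_congr_left fun i hi => ?_
      have hi' : i < W := List.mem_range.1 hi
      unfold colNext
      rw [if_pos hi']
      split_ifs
      exacts [e0 _ (hc _) _ (hc _), e1 _ (hc _) _ (hc _) _ (hc _) _ (hc _)]
    rw [Function.iterate_succ_apply, Function.iterate_succ_apply, e]
    exact ih _ hc' hW'

end

/-- The column `i` of the initial configuration in terms of the symbol of the input stack. -/
def iniCol' (tm : FinTM2) (q : Option (TM2.Stmt tm.Γ tm.Λ tm.σ)) {I : Type} (e : tm.Γ tm.k₀ ≃ I)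
    (o : Option I) : Col tm.Γ tm.Λ tm.σ :=
  ((q, tm.initialState), fun k => if h : k = tm.k₀ then h ▸ o.map e.invFun else none)

theorem toCol_init' (tm : FinTM2) {I : Type} (e : tm.Γ tm.k₀ ≃ I) (l : List I) (i : ℕ) :
    toCol tm.initialState ⟨some (tm.m tm.main), tm.initialState,
      (initList tm (l.map e.invFun)).stk⟩ i =
    iniCol' tm (if i = 0 then some (tm.m tm.main) else none) e (l[i]?) := by
  unfold toCol iniCol' initList
  refine Prod.ext (by dsimp only; split_ifs <;> rfl) ?_
  funext k
  dsimp only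
  by_cases h : k = tm.k₀
  · subst h
    simp
  · simp [h]

/-- The simulation: the answer of a machine that decides a set within a time that can be computed
is a function in `PolyF` of the input word and of the time (in unary). -/
theorem exists_simulation (c : TM2ComputableAux Bool Bool) :
    ∃ F : List Bool × ℕ → Bool, PolyF F ∧ ∀ (w : List Bool) (b : Bool) (t s : ℕ), s ≤ t →
      Nonempty (TM2OutputsInTime c.tm (List.map c.inputAlphabet.invFun w)
        (some (List.map c.outputAlphabet.invFun (Computability.encodeBool b))) s) →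
      F (w, t) = b := by
  classical
  obtain ⟨tm, ea, eb⟩ := c
  have := tm.kFin
  have := tm.ΛFin
  have := tm.σFin
  have := tm.Γk₀Fin
  obtain ⟨D, hD⟩ := micro_eval tm.m
  obtain ⟨G, hG, hblG, hini, hr0, hr1⟩ := exists_closed tm.initialState tm.m tm.k₀
  have : Finite G := hG
  obtain ⟨n, ⟨e⟩⟩ := Finite.exists_equiv_fin G
  set cod : Col tm.Γ tm.Λ tm.σ → Fin n := fun c =>
    if h : c ∈ G then e ⟨c, h⟩ else e ⟨blank tm.initialState, hblG⟩ with hcod
  set dec : Fin n → Col tm.Γ tm.Λ tm.σ := fun j => (e.symm j).1 with hdec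
  have hdc : ∀ a ∈ G, dec (cod a) = a := by
    intro a ha
    simp only [hdec, hcod, dif_pos ha, Equiv.symm_apply_apply]
  set r0 : Fin n × Fin n → Fin n := fun p => cod (rule0 tm.m (dec p.1) (dec p.2)) with hr0'
  set r1 : (Fin n × Fin n) × (Fin n × Fin n) → Fin n := fun p =>
    cod (rule1 tm.initialState (dec p.1.1) (dec p.1.2) (dec p.2.1) (dec p.2.2)) with hr1'
  set cod0 : Option Bool → Fin n := fun o => cod (iniCol' tm (some (tm.m tm.main)) ea o) with hcod0
  set cod1 : Option Bool → Fin n := fun o => cod (iniCol' tm none ea o) with hcod1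
  set acc : Option (Fin n) → Bool := fun o => match o with
    | none => false
    | some a => decide ((dec a).2 tm.k₁ = some (eb.invFun true)) with hacc
  set ini : List Bool × ℕ → List (Fin n) := fun p =>
    (List.range (p.1.length + D * p.2 + 1)).map fun i =>
      if i = 0 then cod0 ((p.1)[i]?) else cod1 ((p.1)[i]?) with hinid
  have hiniF : PolyF ini := by
    refine PolyF.map (l := fun p : List Bool × ℕ => List.range (p.1.length + D * p.2 + 1))
      (h := fun p i => if i = 0 then cod0 ((p.1)[i]?) else cod1 ((p.1)[i]?))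
      (PolyF.range (PolyF.succ (PolyF.natAdd (PolyF.length PolyF.fst')
        (PolyF.natMul (PolyF.const D) PolyF.snd')))) ?_
    have hgt : PolyF (fun q : (List Bool × ℕ) × ℕ => (q.1.1)[q.2]?) :=
      PolyF.getElem? PolyF.snd' PolyF.fst'.fst
    exact PolyF.ite (p := fun q : (List Bool × ℕ) × ℕ => q.2 = 0) (PolyF.natIsZero PolyF.snd')
      (PolyF.finComp hgt cod0) (PolyF.finComp hgt cod1)
  refine ⟨fun p => acc (((nxt (cod (blank tm.initialState)) r0 r1)^[D * p.2] (ini p)).head?),
    ?_, ?_⟩
  · exact PolyF.finComp (PolyF.head? (polyF_nxt_iterate _ r0 r1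
      (PolyF.natMul (PolyF.const D) PolyF.snd') hiniF)) acc
  · rintro w b t s hst ⟨⟨⟨k, hk⟩, hk'⟩⟩
    set S₀ := (initList tm (w.map ea.invFun)).stk with hS₀
    set W : ℕ := w.length + D * t + 1 with hW
    set c₀ : MCfg tm.Γ tm.Λ tm.σ := ⟨some (tm.m tm.main), tm.initialState, S₀⟩ with hc₀
    have g0 : ∀ o, iniCol' tm (some (tm.m tm.main)) ea o ∈ G := fun o =>
      (hini _ _ _ fun k hk => by simp [hk]).1
    have g1 : ∀ o, iniCol' tm none ea o ∈ G := fun o =>
      (hini tm.main _ _ fun k hk => by simp [hk]).2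
    have hin : ∀ i, toCol tm.initialState c₀ i ∈ G := by
      intro i
      rw [hc₀, hS₀, toCol_init']
      split_ifs
      exacts [g0 _, g1 _]
    have hlen : ∀ k, (S₀ k).length + D * t ≤ W := by
      intro k
      by_cases hk : k = tm.k₀
      · subst hk
        simp [hS₀, initList, hW]
      · simp [hS₀, initList, hk, hW]
        omega
    have hblk : ∀ i, W ≤ i → toCol tm.initialState c₀ i = blank tm.initialState := by
      intro i hi
      have hi0 : i ≠ 0 := by omega
      simp only [toCol, hi0, if_false, blank]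
      congr 1
      funext k
      have h2 := hlen k
      exact List.getElem?_eq_none (by show (S₀ k).length ≤ i; omega)
    have e1 : ini (w, t) = (List.range W).map fun i => cod (toCol tm.initialState c₀ i) := by
      simp only [hinid]
      refine List.map_congr_left fun i _ => ?_
      rw [hc₀, hS₀, toCol_init']
      split_ifs <;> rfl
    obtain ⟨e2, e3⟩ := nxt_row tm.initialState tm.m G hblG hr0 hr1 cod r0 r1
      (fun a ha b hb => by simp only [hr0', hdc a ha, hdc b hb])
      (fun a ha b hb c hc d hd => by simp only [hr1', hdc a ha, hdc b hb, hdc c hc, hdc d hd])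
      W (D * t) (toCol tm.initialState c₀) hin hblk
    have e4 := colNext_iterate tm.initialState tm.m W (by omega) c₀ (D * t) hlen
    have e5 := hD k tm.main tm.initialState S₀ tm.initialState
      (haltList tm ((Computability.encodeBool b).map eb.invFun)).stk hk (D * t)
      (Nat.mul_le_mul_left _ (hk'.trans hst))
    have e6 : ((List.range W).map fun i =>
        cod ((colNext tm.initialState tm.m W)^[D * t] (toCol tm.initialState c₀) i)).head? =
        some (cod ((colNext tm.initialState tm.m W)^[D * t] (toCol tm.initialState c₀) 0)) := by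
      rw [hW, List.range_succ_eq_map]
      rfl
    show acc (((nxt (cod (blank tm.initialState)) r0 r1)^[D * t] (ini (w, t))).head?) = b
    rw [e1, e2, e6]
    simp only [hacc]
    rw [hdc _ (e3 0), e4, hc₀, e5]
    simp only [toCol, haltList, dif_pos]
    cases b
    · simp [Computability.encodeBool]
    · simp [Computability.encodeBool]

theorem inP_of_decidedInTime {α : Type} {e : α → List Bool} {L : Set α} {time : α → ℕ}
    (hD : DecidedInTime e L time) {f : List Bool → α} (hf : PolyF fun x => e (f x))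
    (P : Polynomial ℕ) (hP : ∀ x, time (f x) ≤ P.eval x.length) :
    InP {x | f x ∈ L} := by
  classical
  obtain ⟨c, hc⟩ := hD
  obtain ⟨F, hF, hF'⟩ := exists_simulation c
  have h1 : PolyF (fun x : List Bool => F (e (f x), P.eval x.length)) :=
    hF.comp (hf.pair (polyF_natPoly (PolyF.length PolyF.id) P))
  refine ⟨fun x => F (e (f x), P.eval x.length),
    PolyF.tm2_bool (ea := fun w : List Bool => w) h1 (fun _ => rfl), fun x => ?_⟩
  have h2 := hF' (e (f x)) (decide (f x ∈ L)) (P.eval x.length) (time (f x)) (hP x) (hc (f x))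
  show f x ∈ L ↔ F (e (f x), P.eval x.length) = true
  rw [h2, decide_eq_true_eq]

end Pool.Agent.Lib.PmtnHard
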