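import Pool.Agent.Lib.MP_1f44d9_lc.Hard.Iff
import Pool.Agent.Lib.MP_1f44d9_lc.Hard.Part
import Pool.Agent.Lib.MP_1f44d9_lc.Hard.Poly
import Pool.Agent.Lib.MP_1f44d9_lc.Hard.Sim

/-!
# Hardness with three distinct processing times: final assembly
-/

namespace Pool.Agent.Lib.PmtnHard

open MeasureTheory Turing Pool.Agent.Lib.PolyTime

theorem inputC_mem (l : List ℕ) : inputC l ∈ SumCompletion ↔ Partition l :=
  (partition_iff_sumC l).symm

theorem inputT_mem (l : List ℕ) : inputT l ∈ SumTardiness ↔ Partition l :=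
  (partition_iff_sumT l).symm

theorem inputC_restr (l : List ℕ) : (inputC l).m = 5 ∧ (inputC l).pbar ≤ 3 :=
  ⟨rfl, (jobs_distinct l).1⟩

theorem inputT_restr (l : List ℕ) : (inputT l).m = 5 ∧ (inputT l).pbar ≤ 3 :=
  ⟨rfl, (jobs_distinct l).2⟩

/-- From a family of instances with all properties. -/
theorem hard_of {L : Set Input} (F : List ℕ → Input)
    (hF : PolyF (fun l : List NBin => Input.word (F l)))
    (hmem : ∀ l, F l ∈ L ↔ Partition l) (hr : ∀ l, (F l).m = 5 ∧ (F l).pbar ≤ 3) :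
    NPHard (fun I : {I : Input // I.m = 5 ∧ I.pbar ≤ 3} => I.1.word) {I | I.1 ∈ L} := by
  intro L' hL'
  obtain ⟨g, hg, hx⟩ := partition_hard L' hL'
  refine ⟨fun x => ⟨F (g x), hr (g x)⟩, tm2_of_polyF _ _ (hF.comp hg), fun x => ?_⟩
  rw [hx x]
  exact (hmem (g x)).symm

/-- A parameterized algorithm gives `P = NP`, if the parameter is bounded on the instances. -/
theorem collapse_of {L : Set Input} (F : List ℕ → Input)
    (hF : PolyF (fun l : List NBin => Input.word (F l)))
    (hmem : ∀ l, F l ∈ L ↔ Partition l) {time : Input → ℕ}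
    (hD : DecidedInTime Input.word L time) {C : ℕ}
    (hC : ∀ l, time (F l) ≤ C * ((F l).word.length + 1) ^ C) :
    ∀ L' : Set (List Bool), InNP L' → InP L' := by
  intro L' hL'
  obtain ⟨g, hg, hx⟩ := partition_hard L' hL'
  have hf : PolyF (fun x => (F (g x)).word) := hF.comp hg
  obtain ⟨Q, hQ⟩ := hf.bound
  have h1 : ∀ x : List Bool, (F (g x)).word.length ≤ Q.eval (2 * x.length) := fun x =>
    (length_le_sz _).trans ((hQ x).trans (peval_mono Q (sz_bits_le x)))
  have h2 := inP_of_decidedInTime hD (f := fun x => F (g x)) hf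
    (Polynomial.C C * (Q.comp (2 * Polynomial.X) + 1) ^ C) (fun x => by
      refine (hC (g x)).trans ?_
      simp only [Polynomial.eval_mul, Polynomial.eval_C, Polynomial.eval_pow, Polynomial.eval_add,
        Polynomial.eval_comp, Polynomial.eval_X, Polynomial.eval_one, Polynomial.eval_ofNat]
      exact Nat.mul_le_mul_left _ (Nat.pow_le_pow_left (by have := h1 x; omega) _))
  have h3 : {x | F (g x) ∈ L} = L' := by
    ext x
    rw [hx x]
    exact hmem (g x)
  rwa [h3] at h2

theorem collapse_fpt {L : Set Input} (F : List ℕ → Input)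
    (hF : PolyF (fun l : List NBin => Input.word (F l)))
    (hmem : ∀ l, F l ∈ L ↔ Partition l) {κ : Input → ℕ} {B : ℕ} (hB : ∀ l, κ (F l) ≤ B)
    (h : FPT Input.word κ L) : ∀ L' : Set (List Bool), InNP L' → InP L' := by
  obtain ⟨f, c, hD⟩ := h
  refine collapse_of F hF hmem hD (C := (∑ i ∈ Finset.range (B + 1), f i) + c) fun l => ?_
  have h1 : f (κ (F l)) ≤ ∑ i ∈ Finset.range (B + 1), f i :=
    Finset.single_le_sum (f := f) (fun _ _ => Nat.zero_le _)
      (Finset.mem_range.2 (Nat.lt_succ_of_le (hB l)))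
  exact Nat.mul_le_mul (by omega) (Nat.pow_le_pow_right (Nat.succ_pos _) (by omega))

theorem collapse_xp {L : Set Input} (F : List ℕ → Input)
    (hF : PolyF (fun l : List NBin => Input.word (F l)))
    (hmem : ∀ l, F l ∈ L ↔ Partition l) {κ : Input → ℕ} {B : ℕ} (hB : ∀ l, κ (F l) ≤ B)
    (h : XP Input.word κ L) : ∀ L' : Set (List Bool), InNP L' → InP L' := by
  obtain ⟨f, hD⟩ := h
  refine collapse_of F hF hmem hD (C := ∑ i ∈ Finset.range (B + 1), f i) fun l => ?_
  have h1 : f (κ (F l)) ≤ ∑ i ∈ Finset.range (B + 1), f i :=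
    Finset.single_le_sum (f := f) (fun _ _ => Nat.zero_le _)
      (Finset.mem_range.2 (Nat.lt_succ_of_le (hB l)))
  exact Nat.mul_le_mul h1 (Nat.pow_le_pow_right (Nat.succ_pos _) h1)

end Pool.Agent.Lib.PmtnHard
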