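import Mathlib

/-!
# The function `psi`
-/

namespace Pool.Agent.Lib.PmtnHard

/-- The amount of work on a job of length `p`, completed at time `s`, that can be done after
time `0`. -/
noncomputable def psi (p s : ℝ) : ℝ := min p (max 0 s)

end Pool.Agent.Lib.PmtnHard
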