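import Pool.Agent.Lib.MP_1f44d9_lc.Hard.Statement
import Pool.Agent.Lib.MP_1f44d9_lc.Hard.Core
import Pool.Agent.Lib.MP_1f44d9_lc.Hard.Psi

/-!
# Schedules and interval records
-/

namespace Pool.Agent.Lib.PmtnHard

open MeasureTheory

namespace Schedule

variable {m : ℕ} {J : List (ℕ × ℕ)} (σ : Schedule m J)

lemma run_finite (j : Fin J.length) : volume {t | ∃ i, σ.on i t = some j} ≠ ⊤ := by
  rw [σ.processed]; exact ENNReal.natCast_ne_top _

lemma work_finite (j : Fin J.length) (t : ℝ) :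
    volume {s | s ≤ t ∧ ∃ i, σ.on i s = some j} ≠ ⊤ := by
  refine ne_top_of_le_ne_top (σ.run_finite j) (measure_mono ?_)
  rintro s ⟨_, hs⟩
  exact hs

lemma work_mono (j : Fin J.length) {s t : ℝ} (h : s ≤ t) : σ.work j s ≤ σ.work j t := by
  unfold work
  apply ENNReal.toReal_mono (σ.work_finite j t)
  apply measure_mono
  rintro x ⟨h1, h2⟩
  exact ⟨h1.trans h, h2⟩

lemma work_lip (j : Fin J.length) {s t : ℝ} (h : s ≤ t) :
    σ.work j t ≤ σ.work j s + (t - s) := by
  unfold work
  have hfin : volume (Set.Icc s t) ≠ ⊤ := by rw [Real.volume_Icc]; exact ENNReal.ofReal_ne_top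
  have : volume {x | x ≤ t ∧ ∃ i, σ.on i x = some j} ≤
      volume {x | x ≤ s ∧ ∃ i, σ.on i x = some j} + volume (Set.Icc s t) := by
    refine le_trans (measure_mono ?_) (measure_union_le _ _)
    rintro x ⟨h1, h2⟩
    rcases le_total x s with h3 | h3
    · exact Or.inl ⟨h3, h2⟩
    · exact Or.inr ⟨h3, h1⟩
  have h3 := ENNReal.toReal_mono (ENNReal.add_ne_top.mpr ⟨σ.work_finite j s, hfin⟩) this
  rw [ENNReal.toReal_add (σ.work_finite j s) hfin, Real.volume_Icc,
    ENNReal.toReal_ofReal (by linarith)] at h3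
  exact h3

lemma work_horizon (j : Fin J.length) : ∃ T : ℝ, 0 ≤ T ∧ (J[j].1 : ℝ) ≤ σ.work j T := by
  obtain ⟨T, hT⟩ := σ.idle_after
  refine ⟨max T 0, le_max_right _ _, ?_⟩
  unfold work
  have : {s | s ≤ max T 0 ∧ ∃ i, σ.on i s = some j} = {s | ∃ i, σ.on i s = some j} := by
    ext s
    constructor
    · rintro ⟨_, h⟩; exact h
    · rintro ⟨i, h⟩
      refine ⟨?_, i, h⟩
      by_contra hlt
      push Not at hlt
      have := hT i s (lt_of_le_of_lt (le_max_left _ _) hlt)
      rw [this] at h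
      exact absurd h (by simp)
  rw [this, σ.processed]
  simp

lemma completion_le_iff (j : Fin J.length) {x : ℝ} (hx : 0 ≤ x) :
    σ.completion j ≤ x ↔ (J[j].1 : ℝ) ≤ σ.work j x := by
  constructor
  · intro h
    by_contra hlt
    push Not at hlt
    set ε := (J[j].1 : ℝ) - σ.work j x with hε
    have hεpos : 0 < ε := by simp only [hε]; linarith
    obtain ⟨t, ht, htlt⟩ := Real.lt_sInf_add_pos (s := {t | 0 ≤ t ∧ (J[j].1 : ℝ) ≤ σ.work j t})
      (by obtain ⟨T, h1, h2⟩ := σ.work_horizon j; exact ⟨T, h1, h2⟩) hεpos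
    have h1 : t < x + ε := by unfold completion at h; linarith
    rcases le_total t x with h2 | h2
    · have := σ.work_mono j h2
      have := ht.2
      linarith
    · have := σ.work_lip j h2
      have := ht.2
      linarith
  · intro h
    exact csInf_le ⟨0, fun t ht => ht.1⟩ ⟨hx, h⟩

lemma work_nonneg (j : Fin J.length) (t : ℝ) : 0 ≤ σ.work j t := ENNReal.toReal_nonneg

lemma completion_nonneg (j : Fin J.length) : 0 ≤ σ.completion j :=
  Real.sInf_nonneg fun _ ht => ht.1

lemma psi_le_work (j : Fin J.length) {t : ℝ} (ht : 0 ≤ t) :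
    (J[j].1 : ℝ) - psi J[j].1 (σ.completion j - t) ≤ σ.work j t := by
  have hp : (0 : ℝ) ≤ (J[j].1 : ℝ) := Nat.cast_nonneg _
  unfold psi
  rcases le_total (σ.completion j) t with h | h
  · rw [max_eq_left (by linarith), min_eq_right hp, sub_zero]
    exact (σ.completion_le_iff j ht).mp h
  · rw [max_eq_right (by linarith)]
    have h1 := (σ.completion_le_iff j (σ.completion_nonneg j)).mp le_rfl
    have h2 := σ.work_lip j h
    rcases le_total (J[j].1 : ℝ) (σ.completion j - t) with h3 | h3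
    · rw [min_eq_left h3, sub_self]
      exact σ.work_nonneg j t
    · rw [min_eq_right h3]
      linarith

lemma sum_work_le {t : ℝ} (ht : 0 ≤ t) : ∑ j, σ.work j t ≤ m * t := by
  have key : ∑ j, volume {s | s ≤ t ∧ ∃ i, σ.on i s = some j} ≤
      (m : ENNReal) * ENNReal.ofReal t := by
    calc ∑ j, volume {s | s ≤ t ∧ ∃ i, σ.on i s = some j}
        ≤ ∑ j, ∑ i, volume ({s | σ.on i s = some j} ∩ Set.Icc 0 t) := by
          apply Finset.sum_le_sum
          intro j _
          have : {s | s ≤ t ∧ ∃ i, σ.on i s = some j} ⊆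
              ⋃ i ∈ (Finset.univ : Finset (Fin m)), ({s | σ.on i s = some j} ∩ Set.Icc 0 t) := by
            rintro s ⟨h1, i, h2⟩
            simp only [Finset.mem_univ, Set.iUnion_true, Set.mem_iUnion]
            refine ⟨i, h2, ?_, h1⟩
            by_contra hneg
            push Not at hneg
            rw [σ.idle_before i s hneg] at h2
            exact absurd h2 (by simp)
          exact (measure_mono this).trans (measure_biUnion_finset_le _ _)
      _ = ∑ i, ∑ j, volume ({s | σ.on i s = some j} ∩ Set.Icc 0 t) := Finset.sum_comm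
      _ ≤ ∑ _i : Fin m, ENNReal.ofReal t := by
          apply Finset.sum_le_sum
          intro i _
          rw [← measure_biUnion_finset]
          · calc volume (⋃ j ∈ (Finset.univ : Finset (Fin J.length)),
                  ({s | σ.on i s = some j} ∩ Set.Icc 0 t))
                ≤ volume (Set.Icc 0 t) := by
                  apply measure_mono
                  intro s hs
                  simp only [Set.mem_iUnion] at hs
                  obtain ⟨j, _, hs⟩ := hs
                  exact hs.2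
              _ = ENNReal.ofReal t := by rw [Real.volume_Icc, sub_zero]
          · intro a _ b _ hab
            rw [Function.onFun, Set.disjoint_left]
            rintro s ⟨h1, _⟩ ⟨h2, _⟩
            have h1' : σ.on i s = some a := h1
            have h2' : σ.on i s = some b := h2
            rw [h1'] at h2'
            exact hab (Option.some.inj h2')
          · intro j _
            exact (σ.measurable_on i j).inter measurableSet_Icc
      _ = (m : ENNReal) * ENNReal.ofReal t := by simp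
  have h2 : (∑ j, volume {s | s ≤ t ∧ ∃ i, σ.on i s = some j}).toReal = ∑ j, σ.work j t := by
    rw [ENNReal.toReal_sum (fun j _ => σ.work_finite j t)]
    rfl
  rw [← h2]
  have h3 := ENNReal.toReal_mono (by exact ENNReal.mul_ne_top (by simp) ENNReal.ofReal_ne_top) key
  rwa [ENNReal.toReal_mul, ENNReal.toReal_ofReal ht, ENNReal.toReal_natCast] at h3

end Schedule

theorem Schedule.necessary {m : ℕ} {J : List (ℕ × ℕ)} (σ : Schedule m J) (t : ℕ) :
    ∑ j : Fin J.length, ((J[j].1 : ℝ) - psi J[j].1 (σ.completion j - t)) ≤ m * t :=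
  (Finset.sum_le_sum fun j _ => σ.psi_le_work j (Nat.cast_nonneg t)).trans
    (σ.sum_work_le (Nat.cast_nonneg t))

/-! ### From unit slots to schedules -/

lemma measurable_floor_set (P : ℕ → Prop) : MeasurableSet {t : ℝ | 0 ≤ t ∧ P ⌊t⌋₊} := by
  have : {t : ℝ | 0 ≤ t ∧ P ⌊t⌋₊} = Set.Ici 0 ∩ (fun t : ℝ => ⌊t⌋₊) ⁻¹' {k | P k} := by
    ext t; simp
  rw [this]
  exact measurableSet_Ici.inter (Nat.measurable_floor (MeasurableSpace.measurableSet_top))

lemma volume_floor_set (F : Finset ℕ) :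
    volume {t : ℝ | 0 ≤ t ∧ ⌊t⌋₊ ∈ F} = (F.card : ENNReal) := by
  have : {t : ℝ | 0 ≤ t ∧ ⌊t⌋₊ ∈ F} = ⋃ s ∈ F, Set.Ico (s : ℝ) (s + 1) := by
    ext t
    simp only [Set.mem_ofPred_eq, Set.mem_iUnion, Set.mem_Ico, exists_prop]
    constructor
    · rintro ⟨h1, h2⟩
      exact ⟨_, h2, Nat.floor_le h1, Nat.lt_floor_add_one t⟩
    · rintro ⟨s, hs, h1, h2⟩
      have h0 : 0 ≤ t := le_trans (Nat.cast_nonneg s) h1
      refine ⟨h0, ?_⟩
      have : ⌊t⌋₊ = s := (Nat.floor_eq_iff h0).mpr ⟨h1, h2⟩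
      rwa [this]
  rw [this, measure_biUnion_finset]
  · simp
  · intro a _ b _ hab
    rw [Function.onFun, Set.disjoint_left]
    rintro t ⟨h1, h2⟩ ⟨h3, h4⟩
    apply hab
    have h0 : 0 ≤ t := le_trans (Nat.cast_nonneg a) h1
    rw [← (Nat.floor_eq_iff h0).mpr ⟨h1, h2⟩, ← (Nat.floor_eq_iff h0).mpr ⟨h3, h4⟩]
  · intro s _
    exact measurableSet_Ico

/-- The `i`-th element of a finite set of jobs, if it exists. -/
def pick {n : ℕ} (B : Finset (Fin n)) (i : ℕ) : Option (Fin n) :=
  if h : i < B.card then some (B.orderEmbOfFin rfl ⟨i, h⟩) else none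

lemma pick_eq_some {n : ℕ} {B : Finset (Fin n)} {i : ℕ} {j : Fin n} :
    pick B i = some j ↔ ∃ h : i < B.card, B.orderEmbOfFin rfl ⟨i, h⟩ = j := by
  unfold pick
  by_cases h : i < B.card
  · rw [dif_pos h]
    exact ⟨fun h' => ⟨h, Option.some.inj h'⟩, fun ⟨_, h'⟩ => congrArg some h'⟩
  · rw [dif_neg h]
    exact ⟨fun h' => absurd h' (by simp), fun ⟨h', _⟩ => absurd h' h⟩

/-- The schedule given by an assignment of sets of jobs to unit time slots. -/
noncomputable def slotOn {n : ℕ} (m : ℕ) (A : ℕ → Finset (Fin n)) (i : Fin m) (t : ℝ) :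
    Option (Fin n) :=
  if 0 ≤ t then pick (A ⌊t⌋₊) i else none

lemma slotOn_eq_some {n m : ℕ} {A : ℕ → Finset (Fin n)} {i : Fin m} {t : ℝ} {j : Fin n} :
    slotOn m A i t = some j ↔ 0 ≤ t ∧ pick (A ⌊t⌋₊) i = some j := by
  unfold slotOn
  by_cases h0 : 0 ≤ t
  · rw [if_pos h0]; exact ⟨fun h => ⟨h0, h⟩, fun h => h.2⟩
  · rw [if_neg h0]; exact ⟨fun h => absurd h (by simp), fun h => absurd h.1 h0⟩

lemma exists_slotOn {n m : ℕ} {A : ℕ → Finset (Fin n)} (hA : ∀ s, (A s).card ≤ m) {t : ℝ}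
    {j : Fin n} : (∃ i, slotOn m A i t = some j) ↔ 0 ≤ t ∧ j ∈ A ⌊t⌋₊ := by
  constructor
  · rintro ⟨i, h⟩
    obtain ⟨h0, h1⟩ := slotOn_eq_some.mp h
    obtain ⟨_, h2⟩ := pick_eq_some.mp h1
    refine ⟨h0, ?_⟩
    rw [← h2]
    exact Finset.orderEmbOfFin_mem _ _ _
  · rintro ⟨h0, hj⟩
    have : j ∈ Set.range ((A ⌊t⌋₊).orderEmbOfFin rfl) := by
      rw [Finset.range_orderEmbOfFin]; exact hj
    obtain ⟨k, hk⟩ := this
    refine ⟨⟨k, lt_of_lt_of_le k.2 (hA _)⟩, ?_⟩
    rw [slotOn_eq_some]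
    exact ⟨h0, pick_eq_some.mpr ⟨k.2, hk⟩⟩

lemma slotOn_none {n m : ℕ} {A : ℕ → Finset (Fin n)} {D : ℕ} (hD : ∀ s, D ≤ s → A s = ∅)
    (i : Fin m) {t : ℝ} (ht : (D : ℝ) ≤ t) : slotOn m A i t = none := by
  have h0 : (0 : ℝ) ≤ t := le_trans (Nat.cast_nonneg D) ht
  have h1 : D ≤ ⌊t⌋₊ := Nat.le_floor ht
  unfold slotOn pick
  rw [if_pos h0, dif_neg]
  rw [hD _ h1]; simp

/-- The schedule of a slot assignment. -/
noncomputable def slotSchedule (m : ℕ) (J : List (ℕ × ℕ)) (A : ℕ → Finset (Fin J.length))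
    (D : ℕ) (hA : ∀ s, (A s).card ≤ m) (hD : ∀ s, D ≤ s → A s = ∅)
    (hp : ∀ j : Fin J.length, ((Finset.range D).filter (fun s => j ∈ A s)).card = J[j].1) :
    Schedule m J where
  on := slotOn m A
  measurable_on := by
    intro i j
    have : {t | slotOn m A i t = some j} =
        {t : ℝ | 0 ≤ t ∧ pick (A ⌊t⌋₊) i = some j} := by
      ext t
      exact slotOn_eq_some
    rw [this]
    exact measurable_floor_set (fun k => pick (A k) i = some j)
  idle_before := by
    intro i t ht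
    unfold slotOn
    rw [if_neg (by linarith)]
  idle_after := ⟨D, fun i t ht => slotOn_none hD i ht.le⟩
  changes := by
    refine ⟨(Finset.range (D + 1)).image (fun k : ℕ => (k : ℝ)), fun i s t hst hF => ?_⟩
    have hF' : ∀ k : ℕ, k ≤ D → (k : ℝ) ≤ s ∨ t < (k : ℝ) := fun k hk =>
      hF _ (Finset.mem_image.mpr ⟨k, Finset.mem_range.mpr (by omega), rfl⟩)
    rcases lt_or_ge t 0 with ht | ht
    · unfold slotOn
      rw [if_neg (by linarith), if_neg (by linarith)]
    · have hs : 0 ≤ s := by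
        rcases hF' 0 (Nat.zero_le _) with h | h
        · simpa using h
        · simp at h; linarith
      by_cases hfl : ⌊s⌋₊ = ⌊t⌋₊
      · unfold slotOn
        rw [if_pos hs, if_pos ht, hfl]
      · have hlt : ⌊s⌋₊ < ⌊t⌋₊ := lt_of_le_of_ne (Nat.floor_mono hst) hfl
        have h1 : s < (⌊t⌋₊ : ℝ) := (Nat.floor_lt hs).mp hlt
        have h2 : (⌊t⌋₊ : ℝ) ≤ t := Nat.floor_le ht
        rcases le_or_gt ⌊t⌋₊ D with hk | hk
        · rcases hF' _ hk with h | h <;> linarith
        · have hk' : (D : ℝ) < (⌊t⌋₊ : ℝ) := by exact_mod_cast hk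
          rcases hF' D le_rfl with h | h
          · rw [slotOn_none hD i h, slotOn_none hD i (h.trans hst)]
          · linarith
  no_parallel := by
    intro t i i' j h h'
    obtain ⟨h1, h2⟩ := pick_eq_some.mp (slotOn_eq_some.mp h).2
    obtain ⟨h1', h2'⟩ := pick_eq_some.mp (slotOn_eq_some.mp h').2
    rw [← h2'] at h2
    have := ((A ⌊t⌋₊).orderEmbOfFin rfl).injective h2
    exact Fin.ext (by simpa using this)
  processed := by
    intro j
    rw [← hp j, ← volume_floor_set]
    congr 1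
    ext t
    simp only [Set.mem_ofPred_eq, exists_slotOn hA, Finset.mem_filter, Finset.mem_range]
    constructor
    · rintro ⟨h0, h1⟩
      refine ⟨h0, ?_, h1⟩
      by_contra hlt
      push Not at hlt
      rw [hD _ hlt] at h1
      exact absurd h1 (by simp)
    · rintro ⟨h0, _, h1⟩
      exact ⟨h0, h1⟩

lemma slotSchedule_completion (m : ℕ) (J : List (ℕ × ℕ)) (A : ℕ → Finset (Fin J.length))
    (D : ℕ) (hA : ∀ s, (A s).card ≤ m) (hD : ∀ s, D ≤ s → A s = ∅)
    (hp : ∀ j : Fin J.length, ((Finset.range D).filter (fun s => j ∈ A s)).card = J[j].1)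
    (j : Fin J.length) (d : ℕ) (hj : ∀ s, j ∈ A s → s < d) :
    (slotSchedule m J A D hA hD hp).completion j ≤ d := by
  rw [Schedule.completion_le_iff _ _ (Nat.cast_nonneg _)]
  unfold Schedule.work
  have : {s : ℝ | s ≤ (d : ℝ) ∧ ∃ i, (slotSchedule m J A D hA hD hp).on i s = some j} =
      {s : ℝ | ∃ i, (slotSchedule m J A D hA hD hp).on i s = some j} := by
    ext s
    constructor
    · rintro ⟨_, h⟩; exact h
    · intro h
      refine ⟨?_, h⟩
      obtain ⟨h0, h1⟩ := (exists_slotOn hA).mp h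
      have h2 := hj _ h1
      have h3 : s < (⌊s⌋₊ : ℝ) + 1 := Nat.lt_floor_add_one s
      have h4 : ((⌊s⌋₊ : ℝ) + 1) ≤ d := by exact_mod_cast h2
      linarith
  rw [this, Schedule.processed]
  simp

/-! ### Interval lists -/

/-- The number of intervals of the list that contain the slot. -/
def gcov (iv : List (ℕ × ℕ)) (t : ℕ) : ℕ :=
  (iv.map fun i => if i.1 ≤ t ∧ t < i.2 then 1 else 0).sum

lemma gcov_cons (a : ℕ × ℕ) (iv : List (ℕ × ℕ)) (t : ℕ) :
    gcov (a :: iv) t = (if a.1 ≤ t ∧ t < a.2 then 1 else 0) + gcov iv t := by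
  simp [gcov]

lemma gcov_lt {iv : List (ℕ × ℕ)} : ∀ {lo t : ℕ}, IvOk lo iv → t < lo → gcov iv t = 0 := by
  induction iv with
  | nil => intro lo t _ _; rfl
  | cons a iv ih =>
    intro lo t h ht
    obtain ⟨u, v⟩ := a
    obtain ⟨h1, h2, h3⟩ := h
    rw [gcov_cons, ih h3 (by omega), if_neg (by simp only; omega)]

lemma le_finish {iv : List (ℕ × ℕ)} : ∀ {lo : ℕ}, IvOk lo iv → lo ≤ finish lo iv := by
  induction iv with
  | nil => intro lo _; exact le_rfl
  | cons a iv ih =>
    intro lo h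
    obtain ⟨u, v⟩ := a
    obtain ⟨h1, h2, h3⟩ := h
    have := ih h3
    simp only [finish]
    omega

lemma gcov_ge {iv : List (ℕ × ℕ)} : ∀ {lo t : ℕ}, IvOk lo iv → finish lo iv ≤ t →
    gcov iv t = 0 := by
  induction iv with
  | nil => intro lo t _ _; rfl
  | cons a iv ih =>
    intro lo t h ht
    obtain ⟨u, v⟩ := a
    obtain ⟨h1, h2, h3⟩ := h
    have h4 := le_finish h3
    simp only [finish] at ht
    rw [gcov_cons, ih h3 ht, if_neg (by simp only; omega)]

lemma gcov_le_one {iv : List (ℕ × ℕ)} : ∀ {lo t : ℕ}, IvOk lo iv → gcov iv t ≤ 1 := by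
  induction iv with
  | nil => intro lo t _; exact Nat.zero_le _
  | cons a iv ih =>
    intro lo t h
    obtain ⟨u, v⟩ := a
    obtain ⟨h1, h2, h3⟩ := h
    rw [gcov_cons]
    by_cases hc : u ≤ t ∧ t < v
    · rw [if_pos hc, gcov_lt h3 hc.2]
    · rw [if_neg hc, zero_add]
      exact ih h3

lemma sum_gcov {iv : List (ℕ × ℕ)} : ∀ {lo D : ℕ}, IvOk lo iv → finish lo iv ≤ D →
    ∑ s ∈ Finset.range D, gcov iv s = (iv.map fun i => i.2 - i.1).sum := by
  induction iv with
  | nil => intro lo D _ _; simp [gcov]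
  | cons a iv ih =>
    intro lo D h hD
    obtain ⟨u, v⟩ := a
    obtain ⟨h1, h2, h3⟩ := h
    have h4 := le_finish h3
    simp only [finish] at hD
    simp only [gcov_cons, List.map_cons, List.sum_cons, Finset.sum_add_distrib, ih h3 hD]
    congr 1
    rw [← Finset.sum_filter, Finset.sum_const, smul_eq_mul, mul_one]
    have : (Finset.range D).filter (fun s => u ≤ s ∧ s < v) = Finset.Ico u v := by
      ext s
      simp only [Finset.mem_filter, Finset.mem_range, Finset.mem_Ico]
      constructor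
      · rintro ⟨_, h⟩; exact h
      · intro h; exact ⟨by omega, h⟩
    rw [this, Nat.card_Ico]

theorem exists_schedule (m : ℕ) (L : List Rec) (g : Rec → ℕ) (h : ∀ c ∈ L, c.Ok)
    (hm : ∀ t, (L.map fun c => c.cover t).sum ≤ m) :
    ∃ σ : Schedule m (L.map fun c => (c.p, g c)),
      (∀ i t (j : Fin (L.map fun c => (c.p, g c)).length), σ.on i t = some j →
        ((L[(j : ℕ)]'(by simpa using j.2)).r : ℝ) ≤ t) ∧
      ∀ j : Fin (L.map fun c => (c.p, g c)).length,
        σ.completion j ≤ (L[(j : ℕ)]'(by simpa using j.2)).fin := by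
  classical
  set J := L.map fun c => (c.p, g c) with hJ
  have hlen : ∀ j : Fin J.length, (j : ℕ) < L.length := fun j => by simpa [hJ] using j.2
  let R : Fin J.length → Rec := fun j => L[(j : ℕ)]'(hlen j)
  have hR : ∀ j, (R j).Ok := fun j => h _ (List.getElem_mem (hlen j))
  have hcov : ∀ (c : Rec) (t : ℕ), c.cover t = gcov c.iv t := fun _ _ => rfl
  let A : ℕ → Finset (Fin J.length) := fun s => Finset.univ.filter fun j => 0 < (R j).cover s
  have hmem : ∀ s j, j ∈ A s ↔ 0 < (R j).cover s := fun s j => by simp [A]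
  have hone : ∀ s j, (R j).cover s ≤ 1 := fun s j => gcov_le_one (hR j).1
  have hsum : ∀ s, ∑ j, (R j).cover s = (L.map fun c => c.cover s).sum := by
    intro s
    have e1 : (L.map fun c => c.cover s).sum = ∑ i : Fin L.length, (L[(i : ℕ)]).cover s := by
      rw [← List.sum_ofFn]
      congr 1
      apply List.ext_getElem
      · simp
      · intro i h1 h2
        simp
    rw [e1]
    have hl : J.length = L.length := by simp [hJ]
    exact Fintype.sum_equiv (finCongr hl) _ _ (fun j => rfl)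
  have hA : ∀ s, (A s).card ≤ m := by
    intro s
    refine le_trans ?_ (hm s)
    rw [← hsum, Finset.card_eq_sum_ones, Finset.sum_filter]
    refine Finset.sum_le_sum fun j _ => ?_
    by_cases hc : 0 < (R j).cover s
    · rw [if_pos hc]; exact hc
    · rw [if_neg hc]; exact Nat.zero_le _
  let D : ℕ := ∑ j, (R j).fin
  have hfin : ∀ j, (R j).fin ≤ D := fun j =>
    Finset.single_le_sum (f := fun j => (R j).fin) (fun _ _ => Nat.zero_le _) (Finset.mem_univ j)
  have hlate : ∀ j s, (R j).fin ≤ s → (R j).cover s = 0 := fun j s hs => gcov_ge (hR j).1 hs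
  have hD : ∀ s, D ≤ s → A s = ∅ := by
    intro s hs
    ext j
    rw [hmem, hlate j s ((hfin j).trans hs)]
    simp
  have hp : ∀ j : Fin J.length,
      ((Finset.range D).filter (fun s => j ∈ A s)).card = J[j].1 := by
    intro j
    have h1 : J[j].1 = (R j).p := by simp [hJ, R]
    rw [h1, ← (hR j).2, ← sum_gcov (hR j).1 (hfin j), Finset.card_eq_sum_ones, Finset.sum_filter]
    refine Finset.sum_congr rfl fun s _ => ?_
    have h2 := hone s j
    rw [hcov] at h2
    by_cases hc : j ∈ A s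
    · rw [if_pos hc]
      rw [hmem, hcov] at hc
      omega
    · rw [if_neg hc]
      rw [hmem, hcov] at hc
      omega
  refine ⟨slotSchedule m J A D hA hD hp, ?_, ?_⟩
  · intro i t j hj
    obtain ⟨h0, h1⟩ := (exists_slotOn hA).mp ⟨i, hj⟩
    rw [hmem] at h1
    have h2 : (R j).r ≤ ⌊t⌋₊ := by
      by_contra hlt
      push Not at hlt
      rw [hcov, gcov_lt (hR j).1 hlt] at h1
      exact absurd h1 (by simp)
    calc ((R j).r : ℝ) ≤ (⌊t⌋₊ : ℝ) := by exact_mod_cast h2
      _ ≤ t := Nat.floor_le h0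
  · intro j
    refine slotSchedule_completion m J A D hA hD hp j (R j).fin fun s hs => ?_
    by_contra hlt
    push Not at hlt
    rw [hmem, hlate j s hlt] at hs
    exact absurd hs (by simp)

end Pool.Agent.Lib.PmtnHard
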