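import Pool.Agent.Lib.MP_1f44d9_lc.Hard.SoundB

/-!
# Soundness, part 3: a good schedule gives a partition
-/

namespace Pool.Agent.Lib.PmtnHard

/-- The gain at the times of the list `T`. -/
noncomputable def esum (T : List ℕ) (JD : List ((ℕ × ℕ) × ℝ)) : ℝ :=
  (JD.map fun j => psum T j.1.1 j.2 - psum T j.1.1 ((j.1.2 : ℝ) + j.1.1)).sum

/-- The total delay. -/
noncomputable def ysum (JD : List ((ℕ × ℕ) × ℝ)) : ℝ :=
  (JD.map fun j => j.2 - ((j.1.2 : ℝ) + j.1.1)).sum

@[simp] theorem esum_cons (T : List ℕ) (j : (ℕ × ℕ) × ℝ) (JD : List ((ℕ × ℕ) × ℝ)) :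
    esum T (j :: JD) =
      (psum T j.1.1 j.2 - psum T j.1.1 ((j.1.2 : ℝ) + j.1.1)) + esum T JD := by simp [esum]

@[simp] theorem esum_append (T : List ℕ) (JD JD' : List ((ℕ × ℕ) × ℝ)) :
    esum T (JD ++ JD') = esum T JD + esum T JD' := by simp [esum]

@[simp] theorem ysum_cons (j : (ℕ × ℕ) × ℝ) (JD : List ((ℕ × ℕ) × ℝ)) :
    ysum (j :: JD) = (j.2 - ((j.1.2 : ℝ) + j.1.1)) + ysum JD := by simp [ysum]

@[simp] theorem ysum_append (JD JD' : List ((ℕ × ℕ) × ℝ)) :
    ysum (JD ++ JD') = ysum JD + ysum JD' := by simp [ysum]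

theorem esum_step (t : ℕ) (T : List ℕ) (JD : List ((ℕ × ℕ) × ℝ)) :
    esum (t :: T) JD = (wk t (JD.map Prod.fst) : ℝ) -
      (JD.map fun j => (j.1.1 : ℝ) - psi j.1.1 (j.2 - t)).sum + esum T JD := by
  induction JD with
  | nil => simp [esum]
  | cons j JD ih =>
    have h1 : ((min j.1.1 (t - j.1.2) : ℕ) : ℝ) =
        (j.1.1 : ℝ) - psi j.1.1 ((j.1.2 : ℝ) + j.1.1 - t) := by
      unfold psi
      have hp : (0 : ℝ) ≤ j.1.1 := Nat.cast_nonneg _
      rcases le_total t j.1.2 with h | h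
      · have h' : (t : ℝ) ≤ j.1.2 := by exact_mod_cast h
        rw [Nat.sub_eq_zero_of_le h, Nat.min_zero, max_eq_right (by linarith),
          min_eq_left (by linarith), Nat.cast_zero, sub_self]
      · have h' : (j.1.2 : ℝ) ≤ t := by exact_mod_cast h
        rw [Nat.cast_min, Nat.cast_sub h]
        rcases le_total ((t : ℝ) - j.1.2) j.1.1 with h2 | h2
        · rw [min_eq_right h2, max_eq_right (by linarith), min_eq_right (by linarith)]
          ring
        · rw [min_eq_left h2, max_eq_left (by linarith), min_eq_right hp]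
          ring
    rw [esum_cons, ih, esum_cons, psum_cons, psum_cons]
    simp only [List.map_cons, wk_cons, List.sum_cons]
    push_cast at h1 ⊢
    linarith

theorem exc_le_esum {JD : List ((ℕ × ℕ) × ℝ)}
    (hcap : ∀ t : ℕ, (JD.map fun j => (j.1.1 : ℝ) - psi j.1.1 (j.2 - t)).sum ≤ 5 * t)
    (T : List ℕ) : exc T 0 (JD.map Prod.fst) ≤ esum T JD := by
  induction T with
  | nil => simp [esum]
  | cons t T ih =>
    rw [esum_step, exc_cons]
    have := hcap t
    linarith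

theorem normal_list {E : ℕ} {xs : List ℕ} (hx : ∀ x ∈ xs, x ≤ E) (JD : List ((ℕ × ℕ) × ℝ))
    (hp : ∀ j ∈ JD, j.1.1 ≤ 79 * E) (hD : ∀ j ∈ JD, (j.1.2 : ℝ) + j.1.1 ≤ j.2) :
    esum (ev E 0 xs) JD ≤ ysum JD ∧ esum (od E 0 xs) JD ≤ ysum JD := by
  induction JD with
  | nil => simp [esum, ysum]
  | cons j JD ih =>
    obtain ⟨h1, h2⟩ := ih (fun j hj => hp j (by simp [hj])) (fun j hj => hD j (by simp [hj]))
    obtain ⟨h3, h4⟩ := job_normal (hp j (by simp)) hx (d := (j.1.2 : ℝ) + j.1.1) (D := j.2)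
      (by positivity) (hD j (by simp))
    rw [esum_cons, esum_cons, ysum_cons]
    exact ⟨by linarith, by linarith⟩

theorem run_p {E s N : ℕ} {j : ℕ × ℕ} (hj : j ∈ run E s N) : j.1 = E := by
  obtain ⟨i, -, rfl⟩ := List.mem_map.1 hj
  rfl

theorem initJobs_p {E : ℕ} {j : ℕ × ℕ} (hj : j ∈ initJobs E) : j.1 ≤ 79 * E := by
  simp only [initJobs, List.mem_append] at hj
  rcases hj with (((h | h) | h) | h) <;> (have := run_p h; omega)

theorem finalJobs_p {E B : ℕ} {j : ℕ × ℕ} (hj : j ∈ finalJobs E B) : j.1 ≤ 79 * E := by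
  simp only [finalJobs, List.mem_append, List.mem_cons, List.not_mem_nil, or_false] at hj
  rcases hj with (h | h | h | h) | ((((h | h) | h) | h) | h) <;>
    first
      | (subst h; exact le_rfl)
      | (have := run_p h; omega)

/-- The jobs of a block before the gadget. -/
def blkA (E B x : ℕ) : List (ℕ × ℕ) :=
  [(79 * E, B), (79 * E, B), (79 * E, B + 40 * E + x), (79 * E, B + 40 * E + x)]

/-- The jobs of a block after the gadget. -/
def blkC (E B x : ℕ) : List (ℕ × ℕ) :=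
  [(79 * E, B + 80 * E + x), (79 * E, B + 80 * E + x),
    (79 * E, B + 120 * E), (79 * E, B + 120 * E)] ++
  (run E (B + 10 * E + x) 30 ++ run E (B + 50 * E + x) 30 ++ run E (B + 104 * E) 16 ++
    run E (B + 144 * E) 17)

theorem blockJobs_eq (E B x : ℕ) :
    blockJobs E B x = blkA E B x ++ (80 * E, B + 79 * E) :: blkC E B x := rfl

theorem blkA_p {E B x : ℕ} {j : ℕ × ℕ} (hj : j ∈ blkA E B x) : j.1 ≤ 79 * E := by
  simp only [blkA, List.mem_cons, List.not_mem_nil, or_false] at hj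
  rcases hj with h | h | h | h <;> (subst h; exact le_rfl)

theorem blkC_p {E B x : ℕ} {j : ℕ × ℕ} (hj : j ∈ blkC E B x) : j.1 ≤ 79 * E := by
  simp only [blkC, List.mem_append, List.mem_cons, List.not_mem_nil, or_false] at hj
  rcases hj with (h | h | h | h) | (((h | h) | h) | h) <;>
    first
      | (subst h; exact le_rfl)
      | (have := run_p h; omega)

theorem block_rec {E : ℕ} {xs0 : List ℕ} (hx0 : ∀ x ∈ xs0, x ≤ E) :
    ∀ (xs pe po : List ℕ) (B : ℕ) (JD : List ((ℕ × ℕ) × ℝ)), (∀ x ∈ xs, x ≤ E) →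
      (∀ t ∈ pe, t ≤ B) → (∀ t ∈ po, t ≤ B) →
      ev E 0 xs0 = pe ++ ev E B xs → od E 0 xs0 = po ++ od E B xs →
      JD.map Prod.fst = jobsFrom E B xs → (∀ j ∈ JD, (j.1.2 : ℝ) + j.1.1 ≤ j.2) →
      esum (ev E 0 xs0) JD + esum (od E 0 xs0) JD ≤ 2 * ysum JD ∧
      (esum (ev E 0 xs0) JD + esum (od E 0 xs0) JD = 2 * ysum JD →
        ∃ ys : List ℕ, ys.Sublist xs ∧
          esum (ev E 0 xs0) JD - esum (od E 0 xs0) JD = 2 * ((ys.sum : ℕ) : ℝ))
  | [], pe, po, B, JD, _, _, _, _, _, hJ, hD => by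
    have hp : ∀ j ∈ JD, j.1.1 ≤ 79 * E := fun j hj =>
      finalJobs_p (B := B) (by
        have : j.1 ∈ JD.map Prod.fst := List.mem_map.2 ⟨j, hj, rfl⟩
        rw [hJ] at this
        exact this)
    obtain ⟨h1, h2⟩ := normal_list hx0 JD hp hD
    exact ⟨by linarith, fun h3 => ⟨[], List.Sublist.refl _, by simp; linarith⟩⟩
  | x :: xs, pe, po, B, JD, hx, he, ho, hev, hod, hJ, hD => by
    rw [jobsFrom, blockJobs_eq, List.append_assoc, List.cons_append] at hJ
    obtain ⟨JA, J1, rfl, hA, hJ1⟩ := List.map_eq_append_iff.1 hJ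
    obtain ⟨g, J2, rfl, hg, hJ2⟩ := List.map_eq_cons_iff.1 hJ1
    obtain ⟨JC, JR, rfl, hC, hR⟩ := List.map_eq_append_iff.1 hJ2
    have hpA : ∀ j ∈ JA, j.1.1 ≤ 79 * E := fun j hj => blkA_p (B := B) (x := x) (by
      have : j.1 ∈ JA.map Prod.fst := List.mem_map.2 ⟨j, hj, rfl⟩
      rwa [hA] at this)
    have hpC : ∀ j ∈ JC, j.1.1 ≤ 79 * E := fun j hj => blkC_p (B := B) (x := x) (by
      have : j.1 ∈ JC.map Prod.fst := List.mem_map.2 ⟨j, hj, rfl⟩
      rwa [hC] at this)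
    obtain ⟨hA1, hA2⟩ := normal_list hx0 JA hpA (fun j hj => hD j (by simp [hj]))
    obtain ⟨hC1, hC2⟩ := normal_list hx0 JC hpC (fun j hj => hD j (by simp [hj]))
    have hx1 := hx x (by simp)
    obtain ⟨hR1, hR2⟩ := block_rec hx0 xs (pe ++ [B + 38 * E, B + 119 * E + x])
      (po ++ [B + 79 * E, B + 159 * E + x]) (B + 161 * E) JR (fun y hy => hx y (by simp [hy]))
      (by
        intro t ht
        simp only [List.mem_append, List.mem_cons, List.not_mem_nil, or_false] at ht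
        rcases ht with h | h | h
        · have := he t h; omega
        · omega
        · omega)
      (by
        intro t ht
        simp only [List.mem_append, List.mem_cons, List.not_mem_nil, or_false] at ht
        rcases ht with h | h | h
        · have := ho t h; omega
        · omega
        · omega)
      (by rw [hev, ev]; simp) (by rw [hod, od]; simp) hR (fun j hj => hD j (by simp [hj]))
    have hgD := hD g (by simp)
    have hg1 : g.1.1 = 80 * E := by rw [hg]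
    have hg2 : g.1.2 = B + 79 * E := by rw [hg]
    have hd : (g.1.2 : ℝ) + g.1.1 = ((B + 159 * E : ℕ) : ℝ) := by
      rw [hg1, hg2]; push_cast; ring
    rw [hd] at hgD
    obtain ⟨hG1, hG2⟩ := job_gadget (xs := xs) hx he ho hgD
    rw [← hev, ← hod] at hG1 hG2
    simp only [esum_append, esum_cons, ysum_append, ysum_cons]
    rw [hd, hg1]
    refine ⟨by linarith, fun h => ?_⟩
    obtain ⟨ys, hys, hsum⟩ := hR2 (by linarith)
    rcases hG2 (by linarith) with hz | hz
    · exact ⟨ys, hys.cons x, by linarith⟩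
    · refine ⟨x :: ys, hys.cons_cons x, ?_⟩
      have h9 : (((x :: ys).sum : ℕ) : ℝ) = x + ((ys.sum : ℕ) : ℝ) := by
        rw [List.sum_cons, Nat.cast_add]
      rw [h9]
      linarith

theorem sound (E : ℕ) (xs : List ℕ) (hE : xs.sum < E) (JD : List ((ℕ × ℕ) × ℝ))
    (hJ : JD.map Prod.fst = allJobs E xs)
    (hD : ∀ j ∈ JD, (j.1.2 : ℝ) + j.1.1 ≤ j.2)
    (hcap : ∀ t : ℕ, (JD.map fun j => (j.1.1 : ℝ) - psi j.1.1 (j.2 - t)).sum ≤ 5 * t)
    (hK : 2 * (JD.map fun j => j.2 - ((j.1.2 : ℝ) + j.1.1)).sum ≤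
      90 * E + 236 * xs.length * E - 9 * xs.sum) :
    Partition xs := by
  have hx : ∀ x ∈ xs, x ≤ E := fun x hx => by
    have := List.single_le_sum (l := xs) (fun _ _ => Nat.zero_le _) x hx
    omega
  have he := exc_le_esum hcap (ev E 0 xs)
  have ho := exc_le_esum hcap (od E 0 xs)
  rw [hJ, exc_ev_all hx] at he
  rw [hJ, exc_od_all hx] at ho
  change 2 * ysum JD ≤ _ at hK
  rw [allJobs] at hJ
  obtain ⟨JI, JR, rfl, hI, hR⟩ := List.map_eq_append_iff.1 hJ
  have hpI : ∀ j ∈ JI, j.1.1 ≤ 79 * E := fun j hj => initJobs_p (by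
    have : j.1 ∈ JI.map Prod.fst := List.mem_map.2 ⟨j, hj, rfl⟩
    rwa [hI] at this)
  obtain ⟨hI1, hI2⟩ := normal_list hx JI hpI (fun j hj => hD j (by simp [hj]))
  obtain ⟨hR1, hR2⟩ := block_rec hx xs [] [] 0 JR hx (by simp) (by simp) rfl rfl hR
    (fun j hj => hD j (by simp [hj]))
  rw [esum_append] at he ho
  rw [ysum_append] at hK
  obtain ⟨ys, hys, hsum⟩ := hR2 (by linarith)
  refine ⟨ys, hys, ?_⟩
  have h1 : ((2 * ys.sum : ℕ) : ℝ) = ((xs.sum : ℕ) : ℝ) := by
    push_cast [Nat.cast_mul]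
    push_cast at hsum he ho hK
    linarith
  exact_mod_cast h1

end Pool.Agent.Lib.PmtnHard
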