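import Pool.Agent.Lib.MP_1f44d9_lc.Hard.Gen
import Pool.Agent.Lib.MP_1f44d9_lc.Hard.Sound
import Pool.Agent.Lib.MP_1f44d9_lc.Hard.Complete

/-!
# Module IFF: the reduction is correct
-/

namespace Pool.Agent.Lib.PmtnHard

open MeasureTheory

/-! ## The jobs -/

theorem iff_run_fst {E s N : ℕ} {j : ℕ × ℕ} (h : j ∈ run E s N) : j.1 = E := by
  simp only [run, List.mem_map] at h
  obtain ⟨i, _, rfl⟩ := h
  rfl

theorem iff_jobsFrom_fst (E : ℕ) : ∀ (xs : List ℕ) (B : ℕ), ∀ j ∈ jobsFrom E B xs,
    j.1 = E ∨ j.1 = 79 * E ∨ j.1 = 80 * E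
  | [], B => by
    intro j hj
    simp only [jobsFrom, finalJobs, List.mem_append, List.mem_cons, List.not_mem_nil, or_false]
      at hj
    rcases hj with (rfl | rfl | rfl | rfl) | ((((hj | hj) | hj) | hj) | hj)
    any_goals exact Or.inl (iff_run_fst hj)
    all_goals simp
  | x :: xs, B => by
    intro j hj
    rw [jobsFrom, List.mem_append] at hj
    rcases hj with hj | hj
    · simp only [blockJobs, List.mem_append, List.mem_cons, List.not_mem_nil, or_false] at hj
      rcases hj with (rfl | rfl | rfl | rfl | rfl | rfl | rfl | rfl | rfl) | (((hj | hj) | hj) | hj)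
      any_goals exact Or.inl (iff_run_fst hj)
      all_goals simp
    · exact iff_jobsFrom_fst E xs _ j hj

theorem iff_allJobs_fst (E : ℕ) (xs : List ℕ) : ∀ j ∈ allJobs E xs,
    j.1 = E ∨ j.1 = 79 * E ∨ j.1 = 80 * E := by
  intro j hj
  rw [allJobs, List.mem_append] at hj
  rcases hj with hj | hj
  · simp only [initJobs, List.mem_append] at hj
    rcases hj with ((hj | hj) | hj) | hj <;> exact Or.inl (iff_run_fst hj)
  · exact iff_jobsFrom_fst E xs _ j hj

theorem iff_unit_pos (l : List ℕ) : 0 < unit l := Nat.succ_pos _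

theorem iff_allJobs_pos (l : List ℕ) : ∀ j ∈ allJobs (unit l) (gad l), 0 < j.1 := by
  intro j hj
  have := iff_unit_pos l
  rcases iff_allJobs_fst _ _ j hj with h | h | h <;> omega

theorem jobs_pos (l : List ℕ) : (∀ j ∈ jobsC l, 0 < j.1) ∧ (∀ j ∈ jobsT l, 0 < j.1) := by
  refine ⟨iff_allJobs_pos l, ?_⟩
  intro j hj
  simp only [jobsT, List.mem_map] at hj
  obtain ⟨i, hi, rfl⟩ := hj
  exact iff_allJobs_pos l i hi

theorem iff_allJobs_distinct (E : ℕ) (xs : List ℕ) :
    ((allJobs E xs).map Prod.fst).toFinset.card ≤ 3 := by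
  have h : ((allJobs E xs).map Prod.fst).toFinset ⊆ {E, 79 * E, 80 * E} := by
    intro p hp
    simp only [List.mem_toFinset, List.mem_map] at hp
    obtain ⟨j, hj, rfl⟩ := hp
    simpa using iff_allJobs_fst E xs j hj
  exact (Finset.card_le_card h).trans Finset.card_le_three

theorem jobs_distinct (l : List ℕ) : ((jobsC l).map Prod.fst).toFinset.card ≤ 3 ∧
    ((jobsT l).map Prod.fst).toFinset.card ≤ 3 := by
  refine ⟨iff_allJobs_distinct _ _, ?_⟩
  have : (jobsT l).map Prod.fst = (allJobs (unit l) (gad l)).map Prod.fst := by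
    simp [jobsT, Function.comp_def]
  rw [this]
  exact iff_allJobs_distinct _ _

/-! ## Partition -/

theorem iff_gad_sum (l : List ℕ) : (gad l).sum = 2 * l.sum := by
  induction l with
  | nil => rfl
  | cons x l ih =>
    simp only [gad, List.map_cons, List.sum_cons] at ih ⊢
    omega

theorem iff_partition_gad (l : List ℕ) : Partition (gad l) ↔ Partition l := by
  constructor
  · rintro ⟨ys, hys, h⟩
    obtain ⟨zs, hzs, rfl⟩ := List.sublist_map_iff.1 hys
    refine ⟨zs, hzs, ?_⟩
    have h1 := iff_gad_sum zs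
    have h2 := iff_gad_sum l
    unfold gad at h1 h2 h
    omega
  · rintro ⟨ys, hys, h⟩
    refine ⟨gad ys, hys.map _, ?_⟩
    have h1 := iff_gad_sum ys
    have h2 := iff_gad_sum l
    omega

/-! ## Completion times of released schedules -/

namespace Schedule

variable {m : ℕ} {J : List (ℕ × ℕ)} (σ : Schedule m J)

theorem iff_exists_work (j : Fin J.length) : ∃ t : ℝ, 0 ≤ t ∧ (J[j].1 : ℝ) ≤ σ.work j t := by
  obtain ⟨T, hT⟩ := σ.idle_after
  refine ⟨max 0 T, le_max_left _ _, ?_⟩
  have : {s | s ≤ max 0 T ∧ ∃ i, σ.on i s = some j} = {s | ∃ i, σ.on i s = some j} := by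
    ext s
    refine ⟨fun h => h.2, fun h => ⟨?_, h⟩⟩
    revert h
    rintro ⟨i, hi⟩
    by_contra hs
    rw [hT i s ((le_max_right _ _).trans_lt (not_le.1 hs))] at hi
    cases hi
  rw [work, this, σ.processed j]
  simp

theorem Released.iff_le_completion (h : σ.Released) (j : Fin J.length) (hp : 0 < J[j].1) :
    (J[j].2 : ℝ) + J[j].1 ≤ σ.completion j := by
  refine le_csInf (σ.iff_exists_work j) ?_
  rintro t ⟨_, ht⟩
  have h1 : {s | s ≤ t ∧ ∃ i, σ.on i s = some j} ⊆ Set.Icc (J[j].2 : ℝ) t := by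
    rintro s ⟨hs, i, hi⟩
    exact ⟨h i s j hi, hs⟩
  have h2 : σ.work j t ≤ max 0 (t - J[j].2) := by
    have := ENNReal.toReal_mono (by simp) (measure_mono (μ := volume) h1)
    rw [Real.volume_Icc, ENNReal.toReal_ofReal'] at this
    rw [max_comm]
    exact this
  have h3 : (0 : ℝ) < J[j].1 := by exact_mod_cast hp
  rcases max_cases (0 : ℝ) (t - J[j].2) with ⟨h4, _⟩ | ⟨h4, _⟩ <;> linarith

end Schedule

/-! ## Bounds -/

theorem iff_finish_ge : ∀ (l : List (ℕ × ℕ)) (lo : ℕ), IvOk lo l →
    lo + (l.map fun i => i.2 - i.1).sum ≤ finish lo l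
  | [], _, _ => by simp [finish]
  | (u, v) :: l, lo, h => by
    obtain ⟨h1, h2, h3⟩ := h
    have := iff_finish_ge l v h3
    simp only [List.map_cons, List.sum_cons, finish]
    omega

theorem Rec.Ok.iff_le_fin {c : Rec} (h : c.Ok) : c.r + c.p ≤ c.fin := by
  have := iff_finish_ge c.iv c.r h.1
  rw [h.2] at this
  exact this

theorem iff_two_mul_bound (E : ℕ) (xs : List ℕ) (hE : xs.sum < E) :
    2 * (bound E xs : ℝ) ≤ 90 * E + 236 * xs.length * E - 9 * xs.sum := by
  have h1 : 2 * bound E xs ≤ 90 * E + 236 * xs.length * E - 9 * xs.sum := by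
    unfold bound
    omega
  have h2 : 2 * bound E xs + 9 * xs.sum ≤ 90 * E + 236 * xs.length * E := by
    omega
  have h3 : (2 : ℝ) * bound E xs + 9 * xs.sum ≤ 90 * E + 236 * xs.length * E := by
    exact_mod_cast h2
  linarith

theorem iff_soundC (l : List ℕ) (σ : Schedule 5 (jobsC l)) (h1 : σ.Released)
    (h2 : σ.sumC ≤ boundC l) : Partition l := by
  rw [← iff_partition_gad]
  have hpos := (jobs_pos l).1
  have hE : (gad l).sum < unit l := Nat.lt_succ_self _
  have hJ : ((List.ofFn fun j : Fin (jobsC l).length => ((jobsC l)[j], σ.completion j)).map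
      Prod.fst) = jobsC l := by
    rw [List.map_ofFn]
    exact List.ofFn_getElem
  refine sound (unit l) (gad l) hE
    (List.ofFn fun j : Fin (jobsC l).length => ((jobsC l)[j], σ.completion j)) hJ ?_ ?_ ?_
  · intro j hj
    rw [List.mem_ofFn] at hj
    obtain ⟨i, rfl⟩ := hj
    exact h1.iff_le_completion σ i (hpos _ (List.getElem_mem _))
  · intro t
    rw [List.map_ofFn, List.sum_ofFn]
    exact_mod_cast σ.necessary t
  · rw [List.map_ofFn, List.sum_ofFn]
    have h3 : ∑ i : Fin (jobsC l).length, ((fun j : (ℕ × ℕ) × ℝ => j.2 - ((j.1.2 : ℝ) + j.1.1)) ∘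
        fun j : Fin (jobsC l).length => ((jobsC l)[j], σ.completion j)) i = σ.sumC -
        (((jobsC l).map fun j => j.2 + j.1).sum : ℕ) := by
      simp only [Function.comp_def, Finset.sum_sub_distrib]
      congr 1
      rw [← List.sum_ofFn]
      have : (List.ofFn fun i : Fin (jobsC l).length =>
          (((jobsC l)[i].2 : ℕ) : ℝ) + (((jobsC l)[i].1 : ℕ) : ℝ)) =
          (jobsC l).map fun j => ((j.2 : ℝ) + (j.1 : ℝ)) := by
        conv_rhs => rw [← List.ofFn_getElem (xs := jobsC l)]
        rw [List.map_ofFn]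
        rfl
      rw [this]
      push_cast
      simp [Function.comp_def]
    rw [h3]
    have h4 : (boundC l : ℝ) = bound (unit l) (gad l) + (((jobsC l).map fun j => j.2 + j.1).sum : ℕ)
      := by
      unfold boundC
      push_cast
      rfl
    have h5 := iff_two_mul_bound (unit l) (gad l) hE
    linarith

theorem iff_soundT (l : List ℕ) (σ : Schedule 5 (jobsT l)) (h2 : σ.sumT ≤ boundT l) :
    Partition l := by
  rw [← iff_partition_gad]
  have hE : (gad l).sum < unit l := Nat.lt_succ_self _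
  have hlen : (allJobs (unit l) (gad l)).length = (jobsT l).length := by simp [jobsT]
  have hget : ∀ j : Fin (jobsT l).length, (jobsT l)[j] =
      (((allJobs (unit l) (gad l))[(j : ℕ)]'(by have := j.2; omega)).1,
        ((allJobs (unit l) (gad l))[(j : ℕ)]'(by have := j.2; omega)).2 +
        ((allJobs (unit l) (gad l))[(j : ℕ)]'(by have := j.2; omega)).1) := by
    intro j
    exact List.getElem_map (fun j : ℕ × ℕ => (j.1, j.2 + j.1))
  have hJ : ((List.ofFn fun j : Fin (jobsT l).length =>
      (((allJobs (unit l) (gad l))[(j : ℕ)]'(by have := j.2; omega)),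
        max (σ.completion j) (jobsT l)[j].2)).map Prod.fst) = allJobs (unit l) (gad l) := by
    rw [List.map_ofFn]
    apply List.ext_getElem
    · simp [hlen]
    · intro n h1 h2
      simp
  refine sound (unit l) (gad l) hE _ hJ ?_ ?_ ?_
  · intro j hj
    rw [List.mem_ofFn] at hj
    obtain ⟨i, rfl⟩ := hj
    dsimp only
    refine le_trans (le_of_eq ?_) (le_max_right _ _)
    rw [hget i]
    push_cast
    rfl
  · intro t
    rw [List.map_ofFn, List.sum_ofFn]
    refine le_trans (Finset.sum_le_sum fun j _ => ?_) (σ.necessary t)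
    simp only [Function.comp_def]
    have : (jobsT l)[j].1 = ((allJobs (unit l) (gad l))[(j : ℕ)]'(by have := j.2; omega)).1 := by
      rw [hget j]
    rw [this]
    refine sub_le_sub_left ?_ _
    unfold psi
    refine min_le_min_left _ (max_le_max_left _ (sub_le_sub_right (le_max_left _ _) _))
  · rw [List.map_ofFn, List.sum_ofFn]
    have h3 : ∑ i : Fin (jobsT l).length, ((fun j : (ℕ × ℕ) × ℝ => j.2 - ((j.1.2 : ℝ) + j.1.1)) ∘
        fun j : Fin (jobsT l).length => (((allJobs (unit l) (gad l))[(j : ℕ)]'(by have := j.2; omega)),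
        max (σ.completion j) (jobsT l)[j].2)) i = σ.sumT := by
      refine Finset.sum_congr rfl fun j _ => ?_
      simp only [Function.comp_def]
      have : ((((allJobs (unit l) (gad l))[(j : ℕ)]'(by have := j.2; omega)).2 : ℕ) : ℝ) +
        ((((allJobs (unit l) (gad l))[(j : ℕ)]'(by have := j.2; omega)).1 : ℕ) : ℝ) =
          (((jobsT l)[j].2 : ℕ) : ℝ) := by
        rw [hget j]
        push_cast
        rfl
      rw [this]
      rcases le_total (σ.completion j) ((jobsT l)[j].2 : ℝ) with h | h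
      · rw [max_eq_right h, max_eq_left (by linarith)]
        ring
      · rw [max_eq_left h, max_eq_right (by linarith)]
    rw [h3]
    have h5 := iff_two_mul_bound (unit l) (gad l) hE
    have h6 : (boundT l : ℝ) = bound (unit l) (gad l) := rfl
    linarith

theorem iff_completeC (l : List ℕ) (h : Partition l) :
    ∃ σ : Schedule 5 (jobsC l), σ.Released ∧ σ.sumC ≤ boundC l := by
  rw [← iff_partition_gad] at h
  have hE : (gad l).sum < unit l := Nat.lt_succ_self _
  obtain ⟨L, hmap, hok, hcov, hsum⟩ := complete (unit l) (gad l) hE h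
  obtain ⟨σ, h1, h2⟩ := exists_schedule 5 L (fun c => c.r) hok hcov
  have hb : (L.map Rec.fin).sum ≤ boundC l := by
    unfold boundC bound jobsC
    omega
  have hJ : jobsC l = L.map fun c => (c.p, c.r) := hmap.symm
  rw [hJ]
  refine ⟨σ, ?_, ?_⟩
  · intro i t j hj
    have := h1 i t j hj
    simpa using this
  · have h3 : σ.sumC ≤ ∑ j : Fin (L.map fun c => (c.p, c.r)).length,
        (((L[(j : ℕ)]'(by simpa using j.2)).fin : ℕ) : ℝ) :=
      Finset.sum_le_sum fun j _ => h2 j
    refine h3.trans ?_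
    have h4 : ∑ j : Fin (L.map fun c => (c.p, c.r)).length,
        (L[(j : ℕ)]'(by simpa using j.2)).fin = (L.map Rec.fin).sum := by
      rw [← List.sum_ofFn]
      congr 1
      apply List.ext_getElem
      · simp
      · intro n h1 h2
        simp
    rw [← h4] at hb
    exact_mod_cast hb

theorem iff_completeT (l : List ℕ) (h : Partition l) :
    ∃ σ : Schedule 5 (jobsT l), σ.sumT ≤ boundT l := by
  rw [← iff_partition_gad] at h
  have hE : (gad l).sum < unit l := Nat.lt_succ_self _
  obtain ⟨L, hmap, hok, hcov, hsum⟩ := complete (unit l) (gad l) hE h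
  obtain ⟨σ, -, h2⟩ := exists_schedule 5 L (fun c => c.r + c.p) hok hcov
  have hJ : jobsT l = L.map fun c => (c.p, c.r + c.p) := by
    rw [jobsT, ← hmap, List.map_map]
    rfl
  have hb : (L.map fun c => c.fin - (c.r + c.p)).sum ≤ boundT l := by
    have h3 : ∀ L : List Rec, (∀ c ∈ L, c.Ok) → (L.map fun c => c.fin - (c.r + c.p)).sum +
        ((L.map fun c => (c.p, c.r)).map fun j => j.2 + j.1).sum = (L.map Rec.fin).sum := by
      intro L hL
      induction L with
      | nil => rfl
      | cons c L ih =>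
        have h4 := ih fun d hd => hL d (List.mem_cons_of_mem _ hd)
        have h5 := (hL c (List.mem_cons_self ..)).iff_le_fin
        simp only [List.map_cons, List.sum_cons]
        omega
    have h4 := h3 L hok
    rw [hmap] at h4
    unfold boundT bound
    omega
  rw [hJ]
  refine ⟨σ, ?_⟩
  have h3 : σ.sumT ≤ ∑ j : Fin (L.map fun c => (c.p, c.r + c.p)).length,
      (((L[(j : ℕ)]'(by simpa using j.2)).fin - ((L[(j : ℕ)]'(by simpa using j.2)).r +
        (L[(j : ℕ)]'(by simpa using j.2)).p) : ℕ) : ℝ) := by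
    refine Finset.sum_le_sum fun j _ => ?_
    refine max_le (Nat.cast_nonneg _) ?_
    have h4 := h2 j
    have h5 : (((L.map fun c => (c.p, c.r + c.p))[j].2 : ℕ) : ℝ) =
        (((L[(j : ℕ)]'(by simpa using j.2)).r + (L[(j : ℕ)]'(by simpa using j.2)).p : ℕ) : ℝ) := by
      simp
    have h6 := (hok _ (List.getElem_mem (l := L) (n := j) (by simpa using j.2))).iff_le_fin
    rw [h5, Nat.cast_sub h6]
    linarith
  refine h3.trans ?_
  have h4 : ∑ j : Fin (L.map fun c => (c.p, c.r + c.p)).length,
      ((L[(j : ℕ)]'(by simpa using j.2)).fin - ((L[(j : ℕ)]'(by simpa using j.2)).r +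
        (L[(j : ℕ)]'(by simpa using j.2)).p)) = (L.map fun c => c.fin - (c.r + c.p)).sum := by
    rw [← List.sum_ofFn]
    congr 1
    apply List.ext_getElem
    · simp
    · intro n h1 h2
      simp
  rw [← h4] at hb
  exact_mod_cast hb

theorem partition_iff_sumC (l : List ℕ) :
    Partition l ↔ ∃ σ : Schedule 5 (jobsC l), σ.Released ∧ σ.sumC ≤ boundC l :=
  ⟨iff_completeC l, fun ⟨σ, h1, h2⟩ => iff_soundC l σ h1 h2⟩

theorem partition_iff_sumT (l : List ℕ) :
    Partition l ↔ ∃ σ : Schedule 5 (jobsT l), σ.sumT ≤ boundT l :=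
  ⟨iff_completeT l, fun ⟨σ, h⟩ => iff_soundT l σ h⟩

end Pool.Agent.Lib.PmtnHard
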