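import Pool.Agent.Lib.MP_1f44d9_lc.Hard.Core
import Pool.Agent.Lib.MP_1f44d9_lc.Hard.Psi

/-!
# Soundness, part 1: the behaviour of single jobs at the peaks
-/

namespace Pool.Agent.Lib.PmtnHard

theorem psi_eq {p : ℝ} (hp : 0 ≤ p) (s : ℝ) : psi p s = max 0 s - max 0 (s - p) := by
  unfold psi
  rcases le_total s 0 with h | h
  · rw [max_eq_left h, max_eq_left (by linarith), min_eq_right hp]; ring
  · rw [max_eq_right h]
    rcases le_total s p with h' | h'
    · rw [min_eq_right h', max_eq_left (by linarith)]; ring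
    · rw [min_eq_left h', max_eq_right (by linarith)]; ring

theorem psi_nonneg {p : ℝ} (hp : 0 ≤ p) (s : ℝ) : 0 ≤ psi p s := le_min hp (le_max_left _ _)

theorem psi_of_ge {p s : ℝ} (h : p ≤ s) (hp : 0 ≤ p) : psi p s = p := by
  unfold psi
  rw [max_eq_right (hp.trans h), min_eq_left h]

theorem psi_of_nonpos {p s : ℝ} (h : s ≤ 0) (hp : 0 ≤ p) : psi p s = 0 := by
  unfold psi
  rw [max_eq_left h, min_eq_right hp]

theorem psi_le (p s : ℝ) : psi p s ≤ max 0 s := min_le_right _ _

/-- The sum over the points of a list. -/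
noncomputable def psum (T : List ℕ) (p D : ℝ) : ℝ := (T.map fun t : ℕ => psi p (D - t)).sum

@[simp] theorem psum_nil (p D : ℝ) : psum [] p D = 0 := rfl

@[simp] theorem psum_cons (t : ℕ) (T : List ℕ) (p D : ℝ) :
    psum (t :: T) p D = psi p (D - t) + psum T p D := by simp [psum]

@[simp] theorem psum_append (T T' : List ℕ) (p D : ℝ) :
    psum (T ++ T') p D = psum T p D + psum T' p D := by simp [psum]

theorem psum_nonneg {T : List ℕ} {p : ℝ} (hp : 0 ≤ p) (D : ℝ) : 0 ≤ psum T p D := by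
  refine List.sum_nonneg ?_
  intro x hx
  obtain ⟨t, -, rfl⟩ := List.mem_map.1 hx
  exact psi_nonneg hp _

/-- Consecutive points have distance at least `p`, and all are at least `lo`. -/
def Sep (p : ℕ) : ℕ → List ℕ → Prop
  | _, [] => True
  | lo, t :: T => lo ≤ t ∧ Sep p (t + p) T

theorem max_sub_mono {d D y z : ℝ} (h : d ≤ D) (hyz : y ≤ z) :
    max 0 (D - z) - max 0 (d - z) ≤ max 0 (D - y) - max 0 (d - y) := by
  rcases le_total (d - z) 0 with h1 | h1
  · rw [max_eq_left h1]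
    rcases le_total (D - z) 0 with h2 | h2
    · rw [max_eq_left h2]
      have : max 0 (d - y) ≤ max 0 (D - y) := max_le_max le_rfl (by linarith)
      linarith
    · rw [max_eq_right h2, max_eq_right (by linarith : (0 : ℝ) ≤ D - y)]
      rcases le_total (d - y) 0 with h3 | h3
      · rw [max_eq_left h3]; linarith
      · rw [max_eq_right h3]; linarith
  · rw [max_eq_right h1, max_eq_right (by linarith), max_eq_right (by linarith),
      max_eq_right (by linarith)]
    linarith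

theorem psum_sep {p : ℕ} {d D : ℝ} (h : d ≤ D) : ∀ (T : List ℕ) (lo : ℕ), Sep p lo T →
    psum T p D - psum T p d ≤ max 0 (D - lo) - max 0 (d - lo)
  | [], lo, _ => by
    have : max 0 (d - lo) ≤ max 0 (D - lo) := max_le_max le_rfl (by linarith)
    simp only [psum_nil]
    linarith
  | t :: T, lo, hT => by
    obtain ⟨h1, h2⟩ := hT
    have ih := psum_sep h T (t + p) h2
    have hlo : (lo : ℝ) ≤ t := by exact_mod_cast h1
    have h3 := max_sub_mono h hlo
    rw [psum_cons, psum_cons, psi_eq (Nat.cast_nonneg p), psi_eq (Nat.cast_nonneg p)]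
    push_cast at ih
    rw [show D - (t : ℝ) - p = D - (t + p) by ring, show d - (t : ℝ) - p = d - (t + p) by ring]
    linarith

theorem psum_sep' {p : ℕ} {d D : ℝ} (hd : 0 ≤ d) (h : d ≤ D) {T : List ℕ} (hT : Sep p 0 T) :
    psum T p D - psum T p d ≤ D - d := by
  have := psum_sep h T 0 hT
  simp only [Nat.cast_zero, sub_zero] at this
  rwa [max_eq_right hd, max_eq_right (hd.trans h)] at this

/-- Even peaks. -/
def ev (E : ℕ) : ℕ → List ℕ → List ℕ
  | B, [] => [B + 38 * E, B + 119 * E]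
  | B, x :: xs => (B + 38 * E) :: (B + 119 * E + x) :: ev E (B + 161 * E) xs

/-- Odd peaks. -/
def od (E : ℕ) : ℕ → List ℕ → List ℕ
  | B, [] => [B + 79 * E]
  | B, x :: xs => (B + 79 * E) :: (B + 159 * E + x) :: od E (B + 161 * E) xs

theorem sep_ev {E p : ℕ} (hp : p ≤ 79 * E) : ∀ (xs : List ℕ) (B lo : ℕ), (∀ x ∈ xs, x ≤ E) →
    lo ≤ B + 38 * E → Sep p lo (ev E B xs)
  | [], B, lo, _, h => ⟨h, by omega, trivial⟩
  | x :: xs, B, lo, hx, h => by
    have h1 := hx x (by simp)
    refine ⟨h, by omega, sep_ev hp xs _ _ (fun y hy => hx y (by simp [hy])) (by omega)⟩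

theorem sep_od {E p : ℕ} (hp : p ≤ 80 * E) : ∀ (xs : List ℕ) (B lo : ℕ), (∀ x ∈ xs, x ≤ E) →
    lo ≤ B + 79 * E → Sep p lo (od E B xs)
  | [], B, lo, _, h => ⟨h, trivial⟩
  | x :: xs, B, lo, hx, h => by
    have h1 := hx x (by simp)
    refine ⟨h, by omega, sep_od hp xs _ _ (fun y hy => hx y (by simp [hy])) (by omega)⟩

theorem psum_ev {E : ℕ} (D : ℝ) : ∀ (xs : List ℕ) (B : ℕ), (∀ x ∈ xs, x ≤ E) →
    psum (ev E B xs) (80 * E : ℕ) D ≤ max 0 (D - (B + 38 * E : ℕ))
  | [], B, _ => by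
    have hE : (0 : ℝ) ≤ E := Nat.cast_nonneg E
    rw [ev, psum_cons, psum_cons, psum_nil, psi_eq (Nat.cast_nonneg _)]
    have h2 : psi (80 * E : ℕ) (D - (B + 119 * E : ℕ)) ≤ max 0 (D - (B + 38 * E : ℕ) - (80 * E : ℕ)) := by
      refine (psi_le _ _).trans (max_le_max le_rfl ?_)
      push_cast
      linarith
    linarith
  | x :: xs, B, hx => by
    have hE : (0 : ℝ) ≤ E := Nat.cast_nonneg E
    have h1 := hx x (by simp)
    have ih := psum_ev D xs (B + 161 * E) (fun y hy => hx y (by simp [hy]))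
    rw [ev, psum_cons, psum_cons, psi_eq (Nat.cast_nonneg _)]
    have h2 : psi (80 * E : ℕ) (D - (B + 119 * E + x : ℕ)) + max 0 (D - (B + 161 * E + 38 * E : ℕ)) ≤
        max 0 (D - (B + 38 * E : ℕ) - (80 * E : ℕ)) := by
      have hx0 : (0 : ℝ) ≤ x := Nat.cast_nonneg x
      push_cast
      rcases le_total (D - ((B : ℝ) + 161 * E + 38 * E)) 0 with h | h
      · rw [max_eq_left h, add_zero]
        exact (psi_le _ _).trans (max_le_max le_rfl (by linarith))
      · rw [max_eq_right h, max_eq_right (by linarith)]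
        have : psi (80 * (E : ℝ)) (D - ((B : ℝ) + 119 * E + x)) ≤ 80 * E := min_le_left _ _
        linarith
    push_cast at ih h2 ⊢
    linarith

/-- Every job but the gadgets. -/
theorem job_normal {E p : ℕ} {xs : List ℕ} (hp : p ≤ 79 * E) (hx : ∀ x ∈ xs, x ≤ E) {d D : ℝ}
    (hd : 0 ≤ d) (h : d ≤ D) :
    psum (ev E 0 xs) p D - psum (ev E 0 xs) p d ≤ D - d ∧
    psum (od E 0 xs) p D - psum (od E 0 xs) p d ≤ D - d :=
  ⟨psum_sep' hd h (sep_ev hp xs 0 0 hx (Nat.zero_le _)),
   psum_sep' hd h (sep_od (by omega) xs 0 0 hx (Nat.zero_le _))⟩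

theorem psum_sat {T : List ℕ} {p B : ℕ} {d D : ℝ} (hT : ∀ t ∈ T, t ≤ B) (hd : (B : ℝ) + p ≤ d)
    (h : d ≤ D) : psum T p D = psum T p d := by
  unfold psum
  congr 1
  refine List.map_congr_left fun t ht => ?_
  have h1 : (t : ℝ) ≤ B := by exact_mod_cast hT t ht
  rw [psi_of_ge (by linarith) (Nat.cast_nonneg p), psi_of_ge (by linarith) (Nat.cast_nonneg p)]

/-- The gadget jobs. -/
theorem job_gadget {E B x : ℕ} {xs pe po : List ℕ} (hx : ∀ y ∈ x :: xs, y ≤ E)
    (he : ∀ t ∈ pe, t ≤ B) (ho : ∀ t ∈ po, t ≤ B) {D : ℝ} (h : ((B + 159 * E : ℕ) : ℝ) ≤ D) :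
    let d : ℝ := (B + 159 * E : ℕ)
    let e := psum (pe ++ ev E B (x :: xs)) (80 * E : ℕ) D - psum (pe ++ ev E B (x :: xs)) (80 * E : ℕ) d
    let o := psum (po ++ od E B (x :: xs)) (80 * E : ℕ) D - psum (po ++ od E B (x :: xs)) (80 * E : ℕ) d
    e + o ≤ 2 * (D - d) ∧ (e + o = 2 * (D - d) → e - o = 0 ∨ e - o = 2 * x) := by
  intro d e o
  have hE : (0 : ℝ) ≤ E := Nat.cast_nonneg E
  have hx0 : (0 : ℝ) ≤ x := Nat.cast_nonneg x
  have hxE : (x : ℝ) ≤ E := by exact_mod_cast hx x (by simp)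
  have hdd : d = (B : ℝ) + 159 * E := by simp only [d]; push_cast; ring
  have hp0 : (0 : ℝ) ≤ ((80 * E : ℕ) : ℝ) := Nat.cast_nonneg _
  have hp : ((80 * E : ℕ) : ℝ) = 80 * E := by push_cast; ring
  have hbd : (B : ℝ) + ((80 * E : ℕ) : ℝ) ≤ d := by rw [hdd, hp]; linarith
  have hy : 0 ≤ D - d := by linarith
  -- the odd peaks
  have ho1 : o ≤ max 0 (D - d - x) := by
    have h1 := psum_sat (p := 80 * E) ho hbd h
    have h2 : psi ((80 * E : ℕ) : ℝ) (D - (B + 79 * E : ℕ)) = ((80 * E : ℕ) : ℝ) :=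
      psi_of_ge (by rw [hp]; push_cast; linarith) hp0
    have h3 : psi ((80 * E : ℕ) : ℝ) (d - (B + 79 * E : ℕ)) = ((80 * E : ℕ) : ℝ) :=
      psi_of_ge (by rw [hp, hdd]; push_cast; linarith) hp0
    have h4 := psum_sep (p := 80 * E) h ((B + 159 * E + x) :: od E (B + 161 * E) xs)
      (B + 159 * E + x) ⟨le_rfl, sep_od le_rfl xs _ _ (fun y hy => hx y (by simp [hy])) (by
        have := hx x (by simp); omega)⟩
    have h5 : max 0 (d - ((B + 159 * E + x : ℕ) : ℝ)) = 0 :=
      max_eq_left (by rw [hdd]; push_cast; linarith)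
    have h6 : D - ((B + 159 * E + x : ℕ) : ℝ) = D - d - x := by rw [hdd]; push_cast; ring
    rw [h5, h6, sub_zero] at h4
    simp only [o, od, psum_append, psum_cons] at h4 ⊢
    rw [h1, h2, h3]
    linarith
  -- the even peaks
  have he1 : e ≤ min (40 * (E : ℝ) + x) (D - d) + max 0 (D - d - 40 * E) := by
    have h1 := psum_sat (p := 80 * E) he hbd h
    have h2 : psi ((80 * E : ℕ) : ℝ) (D - (B + 38 * E : ℕ)) = ((80 * E : ℕ) : ℝ) :=
      psi_of_ge (by rw [hp]; push_cast; linarith) hp0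
    have h3 : psi ((80 * E : ℕ) : ℝ) (d - (B + 38 * E : ℕ)) = ((80 * E : ℕ) : ℝ) :=
      psi_of_ge (by rw [hp, hdd]; push_cast; linarith) hp0
    have h4 : psi ((80 * E : ℕ) : ℝ) (d - (B + 119 * E + x : ℕ)) = 40 * E - x := by
      unfold psi
      rw [hp, hdd]
      push_cast
      rw [max_eq_right (by linarith), min_eq_right (by linarith)]
      ring
    have h5 : psi ((80 * E : ℕ) : ℝ) (D - (B + 119 * E + x : ℕ)) =
        (40 * E - x) + min (40 * (E : ℝ) + x) (D - d) := by
      have h51 : D - ((B + 119 * E + x : ℕ) : ℝ) = (40 * E - x) + (D - d) := by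
        rw [hdd]; push_cast; ring
      have h52 : (80 : ℝ) * E = (40 * E - x) + (40 * E + x) := by ring
      unfold psi
      rw [hp, h51, max_eq_right (by linarith), h52, min_add_add_left]
    have h6 := psum_ev D xs (B + 161 * E) (fun y hy => hx y (by simp [hy]))
    have h7 : D - ((B + 161 * E + 38 * E : ℕ) : ℝ) = D - d - 40 * E := by
      rw [hdd]; push_cast; ring
    have h8 := psum_nonneg (T := ev E (B + 161 * E) xs) hp0 d
    rw [h7] at h6
    simp only [e, ev, psum_append, psum_cons]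
    rw [h1, h2, h3, h4, h5]
    linarith
  rcases le_total (D - d) x with hc | hc
  · have h1 : o ≤ 0 := by rwa [max_eq_left (by linarith)] at ho1
    have h2 : e ≤ D - d := by
      rw [max_eq_left (by linarith)] at he1
      have := min_le_right (40 * (E : ℝ) + x) (D - d)
      linarith
    refine ⟨by linarith, fun h3 => Or.inl (by linarith)⟩
  · have h1 : o ≤ D - d - x := by rwa [max_eq_right (by linarith)] at ho1
    have h2 : e ≤ D - d + x := by
      rcases le_total (D - d) (40 * E) with h4 | h4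
      · rw [max_eq_left (by linarith)] at he1
        have := min_le_right (40 * (E : ℝ) + x) (D - d)
        linarith
      · rw [max_eq_right (by linarith)] at he1
        have := min_le_left (40 * (E : ℝ) + x) (D - d)
        linarith
    exact ⟨by linarith, fun h3 => Or.inr (by linarith)⟩

end Pool.Agent.Lib.PmtnHard
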