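import Pool.Agent.Lib.MP_1f44d9_lc.Hard.SoundA

/-!
# Soundness, part 2: the work released before the peaks
-/

namespace Pool.Agent.Lib.PmtnHard

/-- The work available up to time `t`, when the number of machines is unlimited. -/
def wk (t : ℕ) (J : List (ℕ × ℕ)) : ℕ := (J.map fun j => min j.1 (t - j.2)).sum

@[simp] theorem wk_nil (t : ℕ) : wk t [] = 0 := rfl

@[simp] theorem wk_cons (t : ℕ) (j : ℕ × ℕ) (J : List (ℕ × ℕ)) :
    wk t (j :: J) = min j.1 (t - j.2) + wk t J := by simp [wk]

@[simp] theorem wk_append (t : ℕ) (J J' : List (ℕ × ℕ)) :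
    wk t (J ++ J') = wk t J + wk t J' := by simp [wk]

@[simp] theorem wk_run (t E s N : ℕ) : wk t (run E s N) = min (N * E) (t - s) := by
  induction N with
  | zero => simp [run]
  | succ N ih =>
    have h1 : run E s (N + 1) = run E s N ++ [(E, s + N * E)] := by simp [run, List.range_succ]
    rw [h1, wk_append, ih]
    simp only [wk_cons, wk_nil]
    have h2 : (N + 1) * E = N * E + E := by ring
    rw [h2]
    omega

theorem wk_zero_of {t : ℕ} {J : List (ℕ × ℕ)} (h : ∀ j ∈ J, t ≤ j.2) : wk t J = 0 := by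
  induction J with
  | nil => rfl
  | cons j J ih =>
    have h1 := h j (by simp)
    rw [wk_cons, ih fun i hi => h i (by simp [hi])]
    omega

theorem run_ge {E s N : ℕ} {j : ℕ × ℕ} (hj : j ∈ run E s N) : s ≤ j.2 := by
  obtain ⟨i, -, rfl⟩ := List.mem_map.1 hj
  simp

theorem blockJobs_ge {E B x : ℕ} {j : ℕ × ℕ} (hj : j ∈ blockJobs E B x) : B ≤ j.2 := by
  simp only [blockJobs, List.mem_append, List.mem_cons, List.not_mem_nil, or_false] at hj
  rcases hj with (h | h | h | h | h | h | h | h | h) | (((h | h) | h) | h) <;>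
    first
      | (subst h; simp only []; omega)
      | (have := run_ge h; omega)

theorem finalJobs_ge {E B : ℕ} {j : ℕ × ℕ} (hj : j ∈ finalJobs E B) : B ≤ j.2 := by
  simp only [finalJobs, List.mem_append, List.mem_cons, List.not_mem_nil, or_false] at hj
  rcases hj with (h | h | h | h) | ((((h | h) | h) | h) | h) <;>
    first
      | (subst h; simp only []; omega)
      | (have := run_ge h; omega)

theorem jobsFrom_ge {E : ℕ} : ∀ (xs : List ℕ) (B : ℕ), ∀ j ∈ jobsFrom E B xs, B ≤ j.2
  | [], B, j, hj => finalJobs_ge hj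
  | x :: xs, B, j, hj => by
    rcases List.mem_append.1 hj with h | h
    · exact blockJobs_ge h
    · have := jobsFrom_ge xs _ j h
      omega

theorem wk_full {E B x t : ℕ} (hx : x ≤ E) (ht : B + 199 * E ≤ t) :
    wk t (blockJobs E B x) = 805 * E := by
  simp only [blockJobs, wk_append, wk_cons, wk_nil, wk_run]
  have h1 : min (79 * E) (t - B) = 79 * E := by omega
  have h2 : min (79 * E) (t - (B + 40 * E + x)) = 79 * E := by omega
  have h3 : min (80 * E) (t - (B + 79 * E)) = 80 * E := by omega
  have h4 : min (79 * E) (t - (B + 80 * E + x)) = 79 * E := by omega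
  have h5 : min (79 * E) (t - (B + 120 * E)) = 79 * E := by omega
  have h6 : min (30 * E) (t - (B + 10 * E + x)) = 30 * E := by omega
  have h7 : min (30 * E) (t - (B + 50 * E + x)) = 30 * E := by omega
  have h8 : min (16 * E) (t - (B + 104 * E)) = 16 * E := by omega
  have h9 : min (17 * E) (t - (B + 144 * E)) = 17 * E := by omega
  rw [h1, h2, h3, h4, h5, h6, h7, h8, h9]
  ring

theorem wk_c {E B x : ℕ} (hx : x ≤ E) : wk (B + 38 * E) (blockJobs E B x) + x = 104 * E := by
  simp only [blockJobs, wk_append, wk_cons, wk_nil, wk_run]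
  have h1 : min (79 * E) (B + 38 * E - B) = 38 * E := by omega
  have h2 : min (79 * E) (B + 38 * E - (B + 40 * E + x)) = 0 := by omega
  have h3 : min (80 * E) (B + 38 * E - (B + 79 * E)) = 0 := by omega
  have h4 : min (79 * E) (B + 38 * E - (B + 80 * E + x)) = 0 := by omega
  have h5 : min (79 * E) (B + 38 * E - (B + 120 * E)) = 0 := by omega
  have h6 : min (30 * E) (B + 38 * E - (B + 10 * E + x)) = 28 * E - x := by omega
  have h7 : min (30 * E) (B + 38 * E - (B + 50 * E + x)) = 0 := by omega
  have h8 : min (16 * E) (B + 38 * E - (B + 104 * E)) = 0 := by omega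
  have h9 : min (17 * E) (B + 38 * E - (B + 144 * E)) = 0 := by omega
  rw [h1, h2, h3, h4, h5, h6, h7, h8, h9]
  omega

theorem wk_a {E B x : ℕ} (hx : x ≤ E) :
    wk (B + 119 * E + x) (blockJobs E B x) = 509 * E + 2 * x := by
  simp only [blockJobs, wk_append, wk_cons, wk_nil, wk_run]
  have h1 : min (79 * E) (B + 119 * E + x - B) = 79 * E := by omega
  have h2 : min (79 * E) (B + 119 * E + x - (B + 40 * E + x)) = 79 * E := by omega
  have h3 : min (80 * E) (B + 119 * E + x - (B + 79 * E)) = 40 * E + x := by omega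
  have h4 : min (79 * E) (B + 119 * E + x - (B + 80 * E + x)) = 39 * E := by omega
  have h5 : min (79 * E) (B + 119 * E + x - (B + 120 * E)) = 0 := by omega
  have h6 : min (30 * E) (B + 119 * E + x - (B + 10 * E + x)) = 30 * E := by omega
  have h7 : min (30 * E) (B + 119 * E + x - (B + 50 * E + x)) = 30 * E := by omega
  have h8 : min (16 * E) (B + 119 * E + x - (B + 104 * E)) = 15 * E + x := by omega
  have h9 : min (17 * E) (B + 119 * E + x - (B + 144 * E)) = 0 := by omega
  rw [h1, h2, h3, h4, h5, h6, h7, h8, h9]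
  omega

theorem wk_d {E B x : ℕ} (hx : x ≤ E) :
    wk (B + 79 * E) (blockJobs E B x) + 3 * x = 295 * E := by
  simp only [blockJobs, wk_append, wk_cons, wk_nil, wk_run]
  have h1 : min (79 * E) (B + 79 * E - B) = 79 * E := by omega
  have h2 : min (79 * E) (B + 79 * E - (B + 40 * E + x)) = 39 * E - x := by omega
  have h3 : min (80 * E) (B + 79 * E - (B + 79 * E)) = 0 := by omega
  have h4 : min (79 * E) (B + 79 * E - (B + 80 * E + x)) = 0 := by omega
  have h5 : min (79 * E) (B + 79 * E - (B + 120 * E)) = 0 := by omega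
  have h6 : min (30 * E) (B + 79 * E - (B + 10 * E + x)) = 30 * E := by omega
  have h7 : min (30 * E) (B + 79 * E - (B + 50 * E + x)) = 29 * E - x := by omega
  have h8 : min (16 * E) (B + 79 * E - (B + 104 * E)) = 0 := by omega
  have h9 : min (17 * E) (B + 79 * E - (B + 144 * E)) = 0 := by omega
  rw [h1, h2, h3, h4, h5, h6, h7, h8, h9]
  omega

theorem wk_b {E B x : ℕ} (hx : x ≤ E) :
    wk (B + 159 * E + x) (blockJobs E B x) = 723 * E + 3 * x := by
  simp only [blockJobs, wk_append, wk_cons, wk_nil, wk_run]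
  have h1 : min (79 * E) (B + 159 * E + x - B) = 79 * E := by omega
  have h2 : min (79 * E) (B + 159 * E + x - (B + 40 * E + x)) = 79 * E := by omega
  have h3 : min (80 * E) (B + 159 * E + x - (B + 79 * E)) = 80 * E := by omega
  have h4 : min (79 * E) (B + 159 * E + x - (B + 80 * E + x)) = 79 * E := by omega
  have h5 : min (79 * E) (B + 159 * E + x - (B + 120 * E)) = 39 * E + x := by omega
  have h6 : min (30 * E) (B + 159 * E + x - (B + 10 * E + x)) = 30 * E := by omega
  have h7 : min (30 * E) (B + 159 * E + x - (B + 50 * E + x)) = 30 * E := by omega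
  have h8 : min (16 * E) (B + 159 * E + x - (B + 104 * E)) = 16 * E := by omega
  have h9 : min (17 * E) (B + 159 * E + x - (B + 144 * E)) = 15 * E + x := by omega
  rw [h1, h2, h3, h4, h5, h6, h7, h8, h9]
  omega

theorem wk_cf {E B : ℕ} : wk (B + 38 * E) (finalJobs E B) = 104 * E := by
  simp only [finalJobs, wk_append, wk_cons, wk_nil, wk_run]
  have h1 : min (79 * E) (B + 38 * E - B) = 38 * E := by omega
  have h2 : min (79 * E) (B + 38 * E - (B + 40 * E)) = 0 := by omega
  have h6 : min (30 * E) (B + 38 * E - (B + 10 * E)) = 28 * E := by omega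
  have h7 : min (30 * E) (B + 38 * E - (B + 50 * E)) = 0 := by omega
  have h3 : min (39 * E) (B + 38 * E - (B + 80 * E)) = 0 := by omega
  have h4 : min (40 * E) (B + 38 * E - (B + 79 * E)) = 0 := by omega
  have h5 : min (5 * E) (B + 38 * E - (B + 114 * E)) = 0 := by omega
  rw [h1, h2, h3, h4, h5, h6, h7]
  omega

theorem wk_df {E B : ℕ} : wk (B + 79 * E) (finalJobs E B) = 295 * E := by
  simp only [finalJobs, wk_append, wk_cons, wk_nil, wk_run]
  have h1 : min (79 * E) (B + 79 * E - B) = 79 * E := by omega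
  have h2 : min (79 * E) (B + 79 * E - (B + 40 * E)) = 39 * E := by omega
  have h6 : min (30 * E) (B + 79 * E - (B + 10 * E)) = 30 * E := by omega
  have h7 : min (30 * E) (B + 79 * E - (B + 50 * E)) = 29 * E := by omega
  have h3 : min (39 * E) (B + 79 * E - (B + 80 * E)) = 0 := by omega
  have h4 : min (40 * E) (B + 79 * E - (B + 79 * E)) = 0 := by omega
  have h5 : min (5 * E) (B + 79 * E - (B + 114 * E)) = 0 := by omega
  rw [h1, h2, h3, h4, h5, h6, h7]
  omega

theorem wk_af {E B : ℕ} : wk (B + 119 * E) (finalJobs E B) = 460 * E := by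
  simp only [finalJobs, wk_append, wk_cons, wk_nil, wk_run]
  have h1 : min (79 * E) (B + 119 * E - B) = 79 * E := by omega
  have h2 : min (79 * E) (B + 119 * E - (B + 40 * E)) = 79 * E := by omega
  have h6 : min (30 * E) (B + 119 * E - (B + 10 * E)) = 30 * E := by omega
  have h7 : min (30 * E) (B + 119 * E - (B + 50 * E)) = 30 * E := by omega
  have h3 : min (39 * E) (B + 119 * E - (B + 80 * E)) = 39 * E := by omega
  have h4 : min (40 * E) (B + 119 * E - (B + 79 * E)) = 40 * E := by omega
  have h5 : min (5 * E) (B + 119 * E - (B + 114 * E)) = 5 * E := by omega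
  rw [h1, h2, h3, h4, h5, h6, h7]
  omega

theorem ev_ge {E : ℕ} : ∀ (xs : List ℕ) (B : ℕ), ∀ t ∈ ev E B xs, B + 38 * E ≤ t
  | [], B, t, ht => by
    simp only [ev, List.mem_cons, List.not_mem_nil, or_false] at ht
    omega
  | x :: xs, B, t, ht => by
    simp only [ev, List.mem_cons] at ht
    rcases ht with h | h | h
    · omega
    · omega
    · have := ev_ge xs _ t h
      omega

theorem od_ge {E : ℕ} : ∀ (xs : List ℕ) (B : ℕ), ∀ t ∈ od E B xs, B + 79 * E ≤ t
  | [], B, t, ht => by
    simp only [od, List.mem_cons, List.not_mem_nil, or_false] at ht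
    omega
  | x :: xs, B, t, ht => by
    simp only [od, List.mem_cons] at ht
    rcases ht with h | h | h
    · omega
    · omega
    · have := od_ge xs _ t h
      omega

/-- The excess work, summed over the times of the list. -/
noncomputable def exc (T : List ℕ) (c : ℝ) (J : List (ℕ × ℕ)) : ℝ :=
  (T.map fun t : ℕ => c + (wk t J : ℝ) - 5 * t).sum

@[simp] theorem exc_nil (c : ℝ) (J : List (ℕ × ℕ)) : exc [] c J = 0 := rfl

@[simp] theorem exc_cons (t : ℕ) (T : List ℕ) (c : ℝ) (J : List (ℕ × ℕ)) :
    exc (t :: T) c J = (c + (wk t J : ℝ) - 5 * t) + exc T c J := by simp [exc]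

theorem exc_congr {T : List ℕ} {c c' : ℝ} {J J' : List (ℕ × ℕ)}
    (h : ∀ t ∈ T, c + (wk t J : ℝ) = c' + wk t J') : exc T c J = exc T c' J' := by
  unfold exc
  congr 1
  exact List.map_congr_left fun t ht => by rw [h t ht]

theorem exc_ev {E : ℕ} : ∀ (xs : List ℕ) (B : ℕ), (∀ x ∈ xs, x ≤ E) →
    exc (ev E B xs) (145 * E + 5 * B) (jobsFrom E B xs) =
      118 * xs.length * E - 4 * xs.sum + 69 * E
  | [], B, _ => by
    simp only [ev, jobsFrom, exc_cons, exc_nil, wk_cf, wk_af]
    simp only [List.length_nil, List.sum_nil, Nat.cast_zero]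
    push_cast
    ring
  | x :: xs, B, hx => by
    have h1 := hx x (by simp)
    have ih := exc_ev xs (B + 161 * E) (fun y hy => hx y (by simp [hy]))
    have hc : (wk (B + 38 * E) (blockJobs E B x ++ jobsFrom E (B + 161 * E) xs) : ℝ) =
        104 * E - x := by
      have h2 : wk (B + 38 * E) (jobsFrom E (B + 161 * E) xs) = 0 :=
        wk_zero_of fun j hj => by have := jobsFrom_ge xs _ j hj; omega
      have h3 := wk_c (B := B) h1
      rw [wk_append, h2, add_zero]
      have h4 : ((wk (B + 38 * E) (blockJobs E B x) + x : ℕ) : ℝ) = ((104 * E : ℕ) : ℝ) := by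
        rw [h3]
      push_cast at h4
      linarith
    have ha : (wk (B + 119 * E + x) (blockJobs E B x ++ jobsFrom E (B + 161 * E) xs) : ℝ) =
        509 * E + 2 * x := by
      have h2 : wk (B + 119 * E + x) (jobsFrom E (B + 161 * E) xs) = 0 :=
        wk_zero_of fun j hj => by have := jobsFrom_ge xs _ j hj; omega
      rw [wk_append, h2, add_zero, wk_a (B := B) h1]
      push_cast
      ring
    have hr : exc (ev E (B + 161 * E) xs) (145 * E + 5 * B)
        (blockJobs E B x ++ jobsFrom E (B + 161 * E) xs) =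
        exc (ev E (B + 161 * E) xs) (145 * E + 5 * (B + 161 * E : ℕ))
          (jobsFrom E (B + 161 * E) xs) := by
      refine exc_congr fun t ht => ?_
      have h2 := ev_ge xs _ t ht
      rw [wk_append, wk_full h1 (by omega)]
      push_cast
      ring
    rw [ev, jobsFrom, exc_cons, exc_cons, hc, ha, hr, ih]
    simp only [List.length_cons, List.sum_cons]
    push_cast
    ring

theorem exc_od {E : ℕ} : ∀ (xs : List ℕ) (B : ℕ), (∀ x ∈ xs, x ≤ E) →
    exc (od E B xs) (145 * E + 5 * B) (jobsFrom E B xs) =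
      118 * xs.length * E - 5 * xs.sum + 45 * E
  | [], B, _ => by
    simp only [od, jobsFrom, exc_cons, exc_nil, wk_df]
    simp only [List.length_nil, List.sum_nil, Nat.cast_zero]
    push_cast
    ring
  | x :: xs, B, hx => by
    have h1 := hx x (by simp)
    have ih := exc_od xs (B + 161 * E) (fun y hy => hx y (by simp [hy]))
    have hc : (wk (B + 79 * E) (blockJobs E B x ++ jobsFrom E (B + 161 * E) xs) : ℝ) =
        295 * E - 3 * x := by
      have h2 : wk (B + 79 * E) (jobsFrom E (B + 161 * E) xs) = 0 :=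
        wk_zero_of fun j hj => by have := jobsFrom_ge xs _ j hj; omega
      have h3 := wk_d (B := B) h1
      rw [wk_append, h2, add_zero]
      have h4 : ((wk (B + 79 * E) (blockJobs E B x) + 3 * x : ℕ) : ℝ) = ((295 * E : ℕ) : ℝ) := by
        rw [h3]
      push_cast at h4
      linarith
    have ha : (wk (B + 159 * E + x) (blockJobs E B x ++ jobsFrom E (B + 161 * E) xs) : ℝ) =
        723 * E + 3 * x := by
      have h2 : wk (B + 159 * E + x) (jobsFrom E (B + 161 * E) xs) = 0 :=
        wk_zero_of fun j hj => by have := jobsFrom_ge xs _ j hj; omega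
      rw [wk_append, h2, add_zero, wk_b (B := B) h1]
      push_cast
      ring
    have hr : exc (od E (B + 161 * E) xs) (145 * E + 5 * B)
        (blockJobs E B x ++ jobsFrom E (B + 161 * E) xs) =
        exc (od E (B + 161 * E) xs) (145 * E + 5 * (B + 161 * E : ℕ))
          (jobsFrom E (B + 161 * E) xs) := by
      refine exc_congr fun t ht => ?_
      have h2 := od_ge xs _ t ht
      rw [wk_append, wk_full h1 (by omega)]
      push_cast
      ring
    rw [od, jobsFrom, exc_cons, exc_cons, hc, ha, hr, ih]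
    simp only [List.length_cons, List.sum_cons]
    push_cast
    ring

theorem wk_init {E t : ℕ} (ht : 51 * E ≤ t) : wk t (initJobs E) = 145 * E := by
  simp only [initJobs, wk_append, wk_run]
  have h1 : min (7 * E) (t - 0) = 7 * E := by omega
  have h2 : min (38 * E) (t - 0) = 38 * E := by omega
  have h3 : min (49 * E) (t - 0) = 49 * E := by omega
  have h4 : min (51 * E) (t - 0) = 51 * E := by omega
  rw [h1, h2, h3, h4]
  omega

theorem wk_init' {E : ℕ} : wk (38 * E) (initJobs E) = 121 * E := by
  simp only [initJobs, wk_append, wk_run]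
  have h1 : min (7 * E) (38 * E - 0) = 7 * E := by omega
  have h2 : min (38 * E) (38 * E - 0) = 38 * E := by omega
  have h3 : min (49 * E) (38 * E - 0) = 38 * E := by omega
  have h4 : min (51 * E) (38 * E - 0) = 38 * E := by omega
  rw [h1, h2, h3, h4]
  omega

theorem exc_init {E : ℕ} {T : List ℕ} (hT : ∀ t ∈ T, 51 * E ≤ t) (J : List (ℕ × ℕ)) :
    exc T 0 (initJobs E ++ J) = exc T (145 * E) J := by
  refine exc_congr fun t ht => ?_
  rw [wk_append, wk_init (hT t ht)]
  push_cast
  ring

theorem exc_od_all {E : ℕ} {xs : List ℕ} (hx : ∀ x ∈ xs, x ≤ E) :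
    exc (od E 0 xs) 0 (allJobs E xs) = 118 * xs.length * E - 5 * xs.sum + 45 * E := by
  have h := exc_od xs 0 hx
  simp only [Nat.cast_zero, mul_zero, add_zero] at h
  rw [allJobs, exc_init _ _, h]
  intro t ht
  have := od_ge xs _ t ht
  omega

theorem ev_tail {E : ℕ} {xs : List ℕ} :
    ∃ T, ev E 0 xs = (38 * E) :: T ∧ ∀ t ∈ T, 51 * E ≤ t := by
  cases xs with
  | nil => exact ⟨[0 + 119 * E], by simp [ev], by
      intro t ht
      simp only [List.mem_cons, List.not_mem_nil, or_false] at ht
      omega⟩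
  | cons x xs =>
    refine ⟨(0 + 119 * E + x) :: ev E (0 + 161 * E) xs, by simp [ev], ?_⟩
    intro t ht
    simp only [List.mem_cons] at ht
    rcases ht with h | h
    · omega
    · have := ev_ge xs _ t h
      omega

theorem exc_ev_all {E : ℕ} {xs : List ℕ} (hx : ∀ x ∈ xs, x ≤ E) :
    exc (ev E 0 xs) 0 (allJobs E xs) = 118 * xs.length * E - 4 * xs.sum + 45 * E := by
  have h := exc_ev xs 0 hx
  simp only [Nat.cast_zero, mul_zero, add_zero] at h
  obtain ⟨T, hT, hge⟩ := ev_tail (E := E) (xs := xs)
  rw [hT, exc_cons] at h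
  rw [hT, exc_cons, allJobs, exc_init hge, wk_append, wk_init']
  push_cast at h ⊢
  linarith

end Pool.Agent.Lib.PmtnHard
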