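import Mathlib

/-!
# Preemptive scheduling on identical parallel machines: statement

The decision problems `P | pmtn, r_j | ∑ C_j` and `P | pmtn | ∑ T_j`, the number of distinct
processing times as a parameter, NP-hardness and parameterized algorithms. Running times are those
of Mathlib's Turing machines with several stacks (`Turing.FinTM2`).
-/

namespace Pool.Agent.Lib.PmtnHard

open MeasureTheory Turing

/-! ## Schedules -/

/-- A preemptive schedule on `m` identical machines of the jobs of the list `J`; a job is a pair of
numbers, the first one is its processing time (the second one is a release date or a due date).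
`on i t = some j` means that machine `i` processes job `j` at time `t`, `on i t = none` that
machine `i` is idle at time `t`. Nothing happens before time `0` or after some finite time; every
machine changes its job only finitely often; no job runs on two machines at the same time; job `j`
receives exactly its processing time. -/
structure Schedule (m : ℕ) (J : List (ℕ × ℕ)) where
  on : Fin m → ℝ → Option (Fin J.length)
  measurable_on : ∀ i j, MeasurableSet {t | on i t = some j}
  idle_before : ∀ i t, t < 0 → on i t = none
  idle_after : ∃ T : ℝ, ∀ i t, T < t → on i t = none
  changes : ∃ F : Finset ℝ, ∀ i s t, s ≤ t → (∀ u ∈ F, u ≤ s ∨ t < u) → on i s = on i t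
  no_parallel : ∀ t i i' j, on i t = some j → on i' t = some j → i = i'
  processed : ∀ j : Fin J.length, volume {t | ∃ i, on i t = some j} = (J[j].1 : ENNReal)

namespace Schedule

variable {m : ℕ} {J : List (ℕ × ℕ)} (σ : Schedule m J)

/-- The amount of processing that job `j` receives up to time `t`. -/
noncomputable def work (j : Fin J.length) (t : ℝ) : ℝ :=
  (volume {s | s ≤ t ∧ ∃ i, σ.on i s = some j}).toReal

/-- The completion time `C_j`: the first time at which job `j` has received its processing
time. -/
noncomputable def completion (j : Fin J.length) : ℝ :=
  sInf {t | 0 ≤ t ∧ (J[j].1 : ℝ) ≤ σ.work j t}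

/-- No job is processed before its release date (the second component of the job). -/
def Released : Prop := ∀ i t j, σ.on i t = some j → (J[j].2 : ℝ) ≤ t

/-- The total completion time `∑ C_j`. -/
noncomputable def sumC : ℝ := ∑ j, σ.completion j

/-- The total tardiness `∑ T_j`, `T_j = max (0, C_j - d_j)` with the due date `d_j` (the second
component of the job). -/
noncomputable def sumT : ℝ := ∑ j, max 0 (σ.completion j - (J[j].2 : ℝ))

end Schedule

/-! ## The decision problems -/

/-- The inputs `(m, k, J)`: the number of machines (positive), the bound for the objective, and the
list of jobs (with positive processing times). -/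
def Input : Type := {I : ℕ × ℕ × List (ℕ × ℕ) // 0 < I.1 ∧ ∀ j ∈ I.2.2, 0 < j.1}

namespace Input

/-- number of machines -/
def m (I : Input) : ℕ := I.1.1

/-- bound for the objective -/
def k (I : Input) : ℕ := I.1.2.1

/-- list of jobs -/
def jobs (I : Input) : List (ℕ × ℕ) := I.1.2.2

/-- The parameter: the number of distinct processing times. -/
def pbar (I : Input) : ℕ := (I.jobs.map Prod.fst).toFinset.card

/-- The self-delimiting binary notation of a number: every binary digit (the lowest first) is
preceded by `true`, and `false` marks the end. -/
def natWord (n : ℕ) : List Bool := ((Nat.bits n).flatMap fun b => [true, b]) ++ [false]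

/-- The bit string of an input: all numbers are written in binary. -/
def word (I : Input) : List Bool :=
  natWord I.m ++ natWord I.k ++ natWord I.jobs.length ++
    I.jobs.flatMap fun j => natWord j.1 ++ natWord j.2

end Input

/-- `P | pmtn, r_j | ∑ C_j`: is there a schedule, no job being processed before its release date,
with total completion time at most `k`? -/
def SumCompletion : Set Input :=
  {I | ∃ σ : Schedule I.m I.jobs, σ.Released ∧ σ.sumC ≤ I.k}

/-- `P | pmtn | ∑ T_j`: is there a schedule with total tardiness at most `k`? -/
def SumTardiness : Set Input :=
  {I | ∃ σ : Schedule I.m I.jobs, σ.sumT ≤ I.k}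

/-! ## Complexity -/

/-- The word of a pair of bit strings: the two strings with a separator between them. -/
def pairWord (p : List Bool × List Bool) : List (Option Bool) :=
  p.1.map some ++ none :: p.2.map some

/-- The class NP: `x` is in the language iff there is a witness `w` of length `p(|x|)` with
`V (x, w) = true`, for a polynomial `p` and a predicate `V` decidable in polynomial time. -/
def InNP (L : Set (List Bool)) : Prop :=
  ∃ (p : Polynomial ℕ) (V : List Bool × List Bool → Bool),
    Nonempty (TM2ComputableInPolyTime pairWord Computability.encodeBool V) ∧
    ∀ x, x ∈ L ↔ ∃ w : List Bool, w.length = p.eval x.length ∧ V (x, w) = true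

/-- The class P. -/
def InP (L : Set (List Bool)) : Prop :=
  ∃ D : List Bool → Bool,
    Nonempty (TM2ComputableInPolyTime (fun w : List Bool => w) Computability.encodeBool D) ∧
    ∀ x, x ∈ L ↔ D x = true

/-- NP-hardness, under polynomial-time many-one reductions, of the problem `L` whose instances
`a : α` are given by the bit strings `e a`. -/
def NPHard {α : Type} (e : α → List Bool) (L : Set α) : Prop :=
  ∀ L' : Set (List Bool), InNP L' → ∃ f : List Bool → α,
    Nonempty (TM2ComputableInPolyTime (fun w : List Bool => w) e f) ∧ ∀ x, x ∈ L' ↔ f x ∈ L

open Classical in
/-- There is a Turing machine that decides, for every `a : α`, given the bit string `e a`, whether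
`a ∈ L`, in at most `time a` steps. -/
def DecidedInTime {α : Type} (e : α → List Bool) (L : Set α) (time : α → ℕ) : Prop :=
  ∃ c : TM2ComputableAux Bool Bool, ∀ a : α,
    Nonempty (TM2OutputsInTime c.tm (List.map c.inputAlphabet.invFun (e a))
      (some (List.map c.outputAlphabet.invFun (Computability.encodeBool (decide (a ∈ L)))))
      (time a))

/-- Fixed-parameter tractability with respect to the parameter `κ`: decidable in time
`f (κ a) * (|a| + 1) ^ c` (for some function `f`, which is not even required to be
computable). -/
def FPT {α : Type} (e : α → List Bool) (κ : α → ℕ) (L : Set α) : Prop :=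
  ∃ (f : ℕ → ℕ) (c : ℕ), DecidedInTime e L fun a => f (κ a) * ((e a).length + 1) ^ c

/-- The class XP (slicewise polynomial time) with respect to the parameter `κ`: decidable in time
`f (κ a) * (|a| + 1) ^ f (κ a)`. -/
def XP {α : Type} (e : α → List Bool) (κ : α → ℕ) (L : Set α) : Prop :=
  ∃ f : ℕ → ℕ, DecidedInTime e L fun a => f (κ a) * ((e a).length + 1) ^ f (κ a)

end Pool.Agent.Lib.PmtnHard
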